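import Pool.Agent.Lib.MP_2d08ba_nt.Word.SpecH

set_option autoImplicit false

/-! The invariants determine the numbered polygon up to `SL₂(ℤ)` and translations. -/

namespace Pool.Agent.Lib.MP_2d08ba_nt.Word

open Pool.Agent.Lib.MP_2d08ba_nt

/-- an integer matrix -/
private def mv (a b d e : ℤ) (x : ℤ × ℤ) : ℤ × ℤ := (a * x.1 + b * x.2, d * x.1 + e * x.2)

section

variable {a b d e : ℤ}

private theorem mv_add (x y : ℤ × ℤ) : mv a b d e (x + y) = mv a b d e x + mv a b d e y := by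
  apply Prod.ext <;> simp only [mv, Prod.fst_add, Prod.snd_add] <;> ring

private theorem mv_sub (x y : ℤ × ℤ) : mv a b d e (x - y) = mv a b d e x - mv a b d e y := by
  apply Prod.ext <;> simp only [mv, Prod.fst_sub, Prod.snd_sub] <;> ring

private theorem mv_smul (k : ℤ) (x : ℤ × ℤ) : mv a b d e (k • x) = k • mv a b d e x := by
  apply Prod.ext <;> simp only [mv, Prod.smul_fst, Prod.smul_snd, smul_eq_mul] <;> ring

private theorem mv_det (h : a * e - b * d = 1) (x y : ℤ × ℤ) :
    detZ (mv a b d e x) (mv a b d e y) = detZ x y := by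
  simp only [detZ, mv]
  linear_combination (x.1 * y.2 - x.2 * y.1) * h

private theorem mv_run (B : List ℤ) : ∀ x y : ℤ × ℤ,
    run B (mv a b d e x, mv a b d e y) =
      (mv a b d e (run B (x, y)).1, mv a b d e (run B (x, y)).2) := by
  induction B with
  | nil => intro x y; rfl
  | cons c B ih =>
    intro x y
    change run B (mv a b d e y, c • mv a b d e y - mv a b d e x) =
      (mv a b d e (run B (y, c • y - x)).1, mv a b d e (run B (y, c • y - x)).2)
    rw [← ih y (c • y - x), mv_sub, mv_smul]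

private theorem glen_dvd_mv (x : ℤ × ℤ) : glen x ∣ glen (mv a b d e x) := by
  have h1 : glen x ∣ x.1 := Int.gcd_dvd_left ..
  have h2 : glen x ∣ x.2 := Int.gcd_dvd_right ..
  exact Int.dvd_coe_gcd (dvd_add (h1.mul_left _) (h2.mul_left _))
    (dvd_add (h1.mul_left _) (h2.mul_left _))

private theorem mv_inv (h : a * e - b * d = 1) (x : ℤ × ℤ) :
    mv e (-b) (-d) a (mv a b d e x) = x := by
  apply Prod.ext
  · simp only [mv]
    linear_combination x.1 * h
  · simp only [mv]
    linear_combination x.2 * h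

private theorem glen_mv (h : a * e - b * d = 1) (x : ℤ × ℤ) :
    glen (mv a b d e x) = glen x := by
  apply Int.dvd_antisymm (Int.natCast_nonneg _) (Int.natCast_nonneg _)
  · have h1 := glen_dvd_mv (a := e) (b := -b) (d := -d) (e := a) (mv a b d e x)
    rwa [mv_inv h] at h1
  · exact glen_dvd_mv x

end

private theorem aff_cancel {k : ℤ} (hk : 0 < k) {x y : ℤ × ℤ} (h : k • x = k • y) : x = y := by
  have h1 := congrArg Prod.fst h
  have h2 := congrArg Prod.snd h
  simp only [Prod.smul_fst, Prod.smul_snd, smul_eq_mul] at h1 h2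
  exact Prod.ext (mul_left_cancel₀ hk.ne' h1) (mul_left_cancel₀ hk.ne' h2)

private theorem aff_fwd {n : ℕ} [NeZero n] {v v' : ZMod n → ℤ × ℤ}
    (hv : ∀ i, v (i + 1) - v i = glen (v (i + 1) - v i) • dir v i)
    (hv' : ∀ i, v' (i + 1) - v' i = glen (v' (i + 1) - v' i) • dir v' i)
    {l c : ZMod n → ℤ} {B : ZMod n → List ℤ} (h : Inv v l c B) (h' : Inv v' l c B) :
    ∃ a b d e : ℤ, a * e - b * d = 1 ∧ ∃ t : ℤ × ℤ, ∀ i,
      v' i = (a * (v i).1 + b * (v i).2 + t.1, d * (v i).1 + e * (v i).2 + t.2) := by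
  obtain ⟨hl, q, hq⟩ := h
  obtain ⟨hl', q', hq'⟩ := h'
  obtain ⟨a, ha⟩ : ∃ a, a = (q 0).2 * (dir v' 0).1 - (dir v 0).2 * (q' 0).1 := ⟨_, rfl⟩
  obtain ⟨b, hb⟩ : ∃ b, b = -(q 0).1 * (dir v' 0).1 + (dir v 0).1 * (q' 0).1 := ⟨_, rfl⟩
  obtain ⟨d, hd⟩ : ∃ d, d = (q 0).2 * (dir v' 0).2 - (dir v 0).2 * (q' 0).2 := ⟨_, rfl⟩
  obtain ⟨e, he⟩ : ∃ e, e = -(q 0).1 * (dir v' 0).2 + (dir v 0).1 * (q' 0).2 := ⟨_, rfl⟩
  have h0 := (hq 0).1
  have h0' := (hq' 0).1
  unfold detZ at h0 h0'
  have hdet : a * e - b * d = 1 := by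
    rw [ha, hb, hd, he]
    linear_combination ((dir v' 0).1 * (q' 0).2 - (dir v' 0).2 * (q' 0).1) * h0 + h0'
  have hu0 : mv a b d e (dir v 0) = dir v' 0 := by
    apply Prod.ext
    · simp only [mv, ha, hb]
      linear_combination (dir v' 0).1 * h0
    · simp only [mv, hd, he]
      linear_combination (dir v' 0).2 * h0
  have hq0 : mv a b d e (q 0) = q' 0 := by
    apply Prod.ext
    · simp only [mv, ha, hb]
      linear_combination (q' 0).1 * h0
    · simp only [mv, hd, he]
      linear_combination (q' 0).2 * h0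
  have key : ∀ k : ℕ, mv a b d e (dir v (k : ZMod n)) = dir v' (k : ZMod n) ∧
      mv a b d e (q (k : ZMod n)) = q' (k : ZMod n) := by
    intro k
    induction k with
    | zero =>
      rw [Nat.cast_zero]
      exact ⟨hu0, hq0⟩
    | succ k ih =>
      have h1 := (hq (k : ZMod n)).2.2
      have h2 := (hq' (k : ZMod n)).2.2
      have h3 := mv_run (a := a) (b := b) (d := d) (e := e) (B (k : ZMod n))
        (dir v (k : ZMod n)) (q (k : ZMod n))
      rw [ih.1, ih.2, h1, h2] at h3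
      have h4 := congrArg Prod.snd h3
      have h5 := congrArg Prod.fst h3
      simp only at h4 h5
      rw [mv_sub, mv_smul, ← h4] at h5
      rw [Nat.cast_succ]
      exact ⟨h4.symm, (sub_right_injective h5).symm⟩
  have hdir : ∀ i, mv a b d e (dir v i) = dir v' i := by
    intro i
    have h1 := (key i.val).1
    rwa [ZMod.natCast_zmod_val] at h1
  have hstep : ∀ i, v' (i + 1) - v' i = mv a b d e (v (i + 1) - v i) := by
    intro i
    rw [hv' i, hv i, mv_smul, hdir, ← hl, ← hl']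
  refine ⟨a, b, d, e, hdet, v' 0 - mv a b d e (v 0), ?_⟩
  have hk : ∀ k : ℕ, v' (k : ZMod n) = mv a b d e (v (k : ZMod n)) + (v' 0 - mv a b d e (v 0)) := by
    intro k
    induction k with
    | zero =>
      rw [Nat.cast_zero]
      abel
    | succ k ih =>
      have h1 := hstep (k : ZMod n)
      rw [mv_sub, ih] at h1
      rw [Nat.cast_succ]
      have h2 : v' ((k : ZMod n) + 1) = (v' ((k : ZMod n) + 1) -
          (mv a b d e (v (k : ZMod n)) + (v' 0 - mv a b d e (v 0)))) +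
          (mv a b d e (v (k : ZMod n)) + (v' 0 - mv a b d e (v 0))) := by abel
      rw [h2, h1]
      abel
  intro i
  have h1 := hk i.val
  rw [ZMod.natCast_zmod_val] at h1
  rw [h1]
  rfl

private theorem aff_bwd {n : ℕ} {v v' : ZMod n → ℤ × ℤ}
    (hv : ∀ i, 0 < glen (v (i + 1) - v i) ∧ v (i + 1) - v i = glen (v (i + 1) - v i) • dir v i)
    (hv' : ∀ i, v' (i + 1) - v' i = glen (v' (i + 1) - v' i) • dir v' i)
    {l c : ZMod n → ℤ} {B : ZMod n → List ℤ} (h : Inv v l c B)
    {a b d e : ℤ} (hdet : a * e - b * d = 1) {t : ℤ × ℤ}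
    (ht : ∀ i, v' i = (a * (v i).1 + b * (v i).2 + t.1, d * (v i).1 + e * (v i).2 + t.2)) :
    Inv v' l c B := by
  obtain ⟨hl, q, hq⟩ := h
  have hstep : ∀ i, v' (i + 1) - v' i = mv a b d e (v (i + 1) - v i) := by
    intro i
    rw [ht, ht]
    apply Prod.ext <;> simp only [mv, Prod.fst_sub, Prod.snd_sub] <;> ring
  have hg : ∀ i, glen (v' (i + 1) - v' i) = glen (v (i + 1) - v i) := by
    intro i
    rw [hstep, glen_mv hdet]
  have hdir : ∀ i, dir v' i = mv a b d e (dir v i) := by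
    intro i
    apply aff_cancel (hv i).1
    rw [← mv_smul, ← (hv i).2, ← hstep, ← hg]
    exact (hv' i).symm
  refine ⟨fun i => (hl i).trans (hg i).symm, fun i => mv a b d e (q i), fun i => ⟨?_, (hq i).2.1, ?_⟩⟩
  · rw [hdir, mv_det hdet]
    exact (hq i).1
  · rw [hdir, mv_run, (hq i).2.2, hdir, mv_sub, mv_smul]

theorem aff (h1 : S_Bas) : S_Aff := by
  intro n _ V V' v v' hn hV hV' l c B hI
  have hb := (h1 n V v hn hV).2
  have hb' := (h1 n V' v' hn hV').2
  constructor
  · intro hI'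
    exact aff_fwd (fun i => (hb i).2.1) (fun i => (hb' i).2.1) hI hI'
  · rintro ⟨a, b, d, e, hdet, t, ht⟩
    exact aff_bwd (fun i => ⟨(hb i).1, (hb i).2.1⟩) (fun i => (hb' i).2.1) hI hdet ht

end Pool.Agent.Lib.MP_2d08ba_nt.Word
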