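import Pool.Agent.Lib.MP_2d08ba_nt.Word.Spec

set_option autoImplicit false

/-! Basic facts on the primitive directions of the edges. -/

namespace Pool.Agent.Lib.MP_2d08ba_nt.Word

open Pool.Agent.Lib.MP_2d08ba_nt

private theorem bas_card {n : ℕ} [NeZero n] {V : Finset (ℤ × ℤ)} {v : ZMod n → ℤ × ℤ}
    (hv : Ccw V v) : V.card = n := by
  classical
  have h1 : V = Finset.univ.image v := by
    ext x
    rw [Finset.mem_image]
    constructor
    · intro h
      obtain ⟨i, hi⟩ := (hv.2.1 x).mp h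
      exact ⟨i, Finset.mem_univ _, hi⟩
    · rintro ⟨i, _, hi⟩
      exact (hv.2.1 x).mpr ⟨i, hi⟩
  rw [h1, Finset.card_image_of_injective _ hv.1, Finset.card_univ, ZMod.card]

theorem bas : S_Bas := by
  intro n _ V v hn hv
  have hcard := bas_card hv
  refine ⟨hcard, ?_⟩
  have key : ∀ i, 0 < glen (v (i + 1) - v i) ∧
      v (i + 1) - v i = glen (v (i + 1) - v i) • dir v i ∧ detZ (bez v i) (dir v i) = 1 := by
    intro i
    have he := hv.2.2 i
    set e := v (i + 1) - v i with hedef
    have hne : e ≠ 0 := by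
      intro h
      exact he.2.2.1 (sub_eq_zero.mp h).symm
    have hg := glen_pos hne
    have hd : dir v i = (e.1 / glen e, e.2 / glen e) := rfl
    have d1 : glen e ∣ e.1 := Int.gcd_dvd_left _ _
    have d2 : glen e ∣ e.2 := Int.gcd_dvd_right _ _
    have m1 : glen e * (e.1 / glen e) = e.1 := Int.mul_ediv_cancel' d1
    have m2 : glen e * (e.2 / glen e) = e.2 := Int.mul_ediv_cancel' d2
    refine ⟨hg, ?_, ?_⟩
    · rw [hd]
      apply Prod.ext
      · simp only [Prod.smul_fst, smul_eq_mul]; exact m1.symm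
      · simp only [Prod.smul_snd, smul_eq_mul]; exact m2.symm
    · have hcop : Int.gcd (dir v i).1 (dir v i).2 = 1 := by
        rw [hd]
        have h2 : 0 < Int.gcd e.1 e.2 := by
          have : (0 : ℤ) < (Int.gcd e.1 e.2 : ℤ) := hg
          exact_mod_cast this
        exact Int.gcd_ediv_gcd_ediv_gcd h2
      have hb := Int.gcd_eq_gcd_ab (dir v i).1 (dir v i).2
      rw [hcop] at hb
      unfold detZ bez
      simp only
      push_cast at hb
      linarith
  intro i
  refine ⟨(key i).1, (key i).2.1, (key i).2.2, ?_⟩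
  have h1 := next_pos (by rw [hcard]; exact hn) (hv.2.2 i) (hv.2.2 (i + 1))
  rw [(key i).2.1, (key (i + 1)).2.1, detZ_smul_left, detZ_smul_right] at h1
  have g1 := (key i).1
  have g2 := (key (i + 1)).1
  by_contra hcon
  push Not at hcon
  have h3 : detZ (dir v i) (dir v (i + 1)) ≤ 0 := hcon
  have h4 : glen (v (i + 1 + 1) - v (i + 1)) * detZ (dir v i) (dir v (i + 1)) ≤ 0 :=
    mul_nonpos_of_nonneg_of_nonpos g2.le h3
  have h5 : glen (v (i + 1) - v i) *
      (glen (v (i + 1 + 1) - v (i + 1)) * detZ (dir v i) (dir v (i + 1))) ≤ 0 :=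
    mul_nonpos_of_nonneg_of_nonpos g1.le h4
  linarith

end Pool.Agent.Lib.MP_2d08ba_nt.Word
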