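import Pool.Agent.Lib.MP_2d08ba_nt.Word.Spec

set_option autoImplicit false

/-! Existence of a counterclockwise numbering of the vertices. -/

namespace Pool.Agent.Lib.MP_2d08ba_nt.Word

open Pool.Agent.Lib.MP_2d08ba_nt

private theorem ccw_next_unique {V : Finset (ℤ × ℤ)} {a b b' : ℤ × ℤ} (h : IsEdgeZ V a b)
    (h' : IsEdgeZ V a b') : b = b' :=
  toR_injective (next_unique (edge_iff.mpr h) (edge_iff.mpr h'))

private theorem ccw_prev_unique {V : Finset (ℤ × ℤ)} {a c c' : ℤ × ℤ} (h : IsEdgeZ V c a)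
    (h' : IsEdgeZ V c' a) : c = c' :=
  toR_injective (prev_unique (edge_iff.mpr h) (edge_iff.mpr h'))

private theorem ccw_next {V : Finset (ℤ × ℤ)} (hcard : 3 ≤ V.card) (hV : ConvexPos (vertexSet V))
    {a : ℤ × ℤ} (ha : a ∈ V) : ∃ b, IsEdgeZ V a b := by
  obtain ⟨y, hy⟩ := exists_next hV (by rw [card_vertexSet]; omega)
    (mem_vertexSet.mpr ⟨a, ha, rfl⟩)
  obtain ⟨a', b, hab, h1, h2⟩ := edge_lift hy
  have := toR_injective h1
  subst this
  exact ⟨b, hab⟩

/-- every vertex is reached from `a` -/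
private theorem ccw_orbit {V : Finset (ℤ × ℤ)} (hcard : 3 ≤ V.card)
    (hV : ConvexPos (vertexSet V)) (σ : Equiv.Perm V)
    (hσ : ∀ x : V, IsEdgeZ V (x : ℤ × ℤ) (σ x : ℤ × ℤ)) (a w : V) : σ.SameCycle a w := by
  classical
  have hwV : toR w ∈ vertexSet V := mem_vertexSet.mpr ⟨w, w.2, rfl⟩
  obtain ⟨f, hf⟩ := sep_vertex hV hwV
  have hne : (Finset.univ.filter fun c : V => σ.SameCycle a c).Nonempty :=
    ⟨a, by rw [Finset.mem_filter]; exact ⟨Finset.mem_univ _, Equiv.Perm.SameCycle.refl σ a⟩⟩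
  obtain ⟨c, hc, hmax⟩ := Finset.exists_max_image _ (fun c : V => f (toR c)) hne
  rw [Finset.mem_filter] at hc
  by_cases hwc : w = c
  · rw [hwc]; exact hc.2
  exfalso
  have hq := hσ c
  have hp : IsEdgeZ V ((σ.symm c : V) : ℤ × ℤ) (c : ℤ × ℤ) := by
    have := hσ (σ.symm c)
    rwa [Equiv.apply_symm_apply] at this
  have mq := hmax (σ c) (by
    rw [Finset.mem_filter]
    exact ⟨Finset.mem_univ _, Equiv.Perm.sameCycle_apply_right.mpr hc.2⟩)
  have mp := hmax (σ.symm c) (by
    rw [Finset.mem_filter]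
    exact ⟨Finset.mem_univ _, Equiv.Perm.sameCycle_symm_apply_right.mpr hc.2⟩)
  have hq' := edge_iff.mpr hq
  have hp' := edge_iff.mpr hp
  obtain ⟨s, t, hs, ht, hst⟩ := cone_local (by rw [card_vertexSet]; omega) hq' hp'
    (vertex_nonneg hq' hwV) (vertex_nonneg hp' hwV)
  have h1 : f (toR w - toR c) = s * f (toR (σ.symm c : V) - toR c) + t * f (toR (σ c : V) - toR c) := by
    rw [hst, map_add, map_smul, map_smul]; simp
  rw [map_sub, map_sub, map_sub] at h1
  have h2 : s * (f (toR (σ.symm c : V)) - f (toR c)) ≤ 0 :=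
    mul_nonpos_of_nonneg_of_nonpos hs (by linarith)
  have h3 : t * (f (toR (σ c : V)) - f (toR c)) ≤ 0 :=
    mul_nonpos_of_nonneg_of_nonpos ht (by linarith)
  have h4 := hf (toR c) (mem_vertexSet.mpr ⟨c, c.2, rfl⟩)
    (fun h => hwc (Subtype.ext (toR_injective h)).symm)
  linarith

theorem ccw : S_Ccw := by
  classical
  intro V hcard hV
  have hnx : ∀ x : V, ∃ y : V, IsEdgeZ V (x : ℤ × ℤ) (y : ℤ × ℤ) := by
    intro x
    obtain ⟨b, hb⟩ := ccw_next hcard hV x.2
    exact ⟨⟨b, hb.2.1⟩, hb⟩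
  choose g hg using hnx
  have hginj : Function.Injective g := by
    intro x y hxy
    apply Subtype.ext
    have h1 := hg x
    rw [hxy] at h1
    exact ccw_prev_unique h1 (hg y)
  have hgbij : Function.Bijective g := Finite.injective_iff_bijective.mp hginj
  let σ : Equiv.Perm V := Equiv.ofBijective g hgbij
  have hσ : ∀ x : V, IsEdgeZ V (x : ℤ × ℤ) (σ x : ℤ × ℤ) := hg
  have hcyc : σ.IsCycleOn ((Finset.univ : Finset V) : Set V) := by
    refine ⟨?_, ?_⟩
    · rw [Finset.coe_univ]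
      exact Set.bijOn_univ.mpr σ.bijective
    · intro x _ y _
      exact ccw_orbit hcard hV σ hσ x y
  have hcardu : (Finset.univ : Finset V).card = V.card := by
    rw [Finset.card_univ, Fintype.card_coe]
  have : NeZero V.card := ⟨by omega⟩
  have : Fact (1 < V.card) := ⟨by omega⟩
  obtain ⟨a0, ha0⟩ : V.Nonempty := by rw [← Finset.card_pos]; omega
  let a : V := ⟨a0, ha0⟩
  have hper : (σ ^ V.card) a = a := by
    rw [← hcardu]
    exact hcyc.pow_card_apply (Finset.mem_univ _)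
  let u : ZMod V.card → V := fun i => (σ ^ i.val) a
  have hsurj : Function.Surjective u := by
    intro w
    obtain ⟨k, hk, hkw⟩ := hcyc.exists_pow_eq (Finset.mem_univ a) (Finset.mem_univ w)
    rw [hcardu] at hk
    refine ⟨(k : ZMod V.card), ?_⟩
    change (σ ^ (k : ZMod V.card).val) a = w
    rw [ZMod.val_cast_of_lt hk]
    exact hkw
  have hbij : Function.Bijective u := by
    rw [Fintype.bijective_iff_surjective_and_card]
    refine ⟨hsurj, ?_⟩
    rw [ZMod.card, Fintype.card_coe]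
  have hmod : ∀ k : ℕ, (σ ^ (k % V.card)) a = (σ ^ k) a := by
    intro k
    have h1 : ∀ j : ℕ, ((σ ^ V.card) ^ j) a = a := by
      intro j
      induction j with
      | zero => simp
      | succ j ih => rw [pow_succ, Equiv.Perm.mul_apply, hper, ih]
    conv_rhs => rw [← Nat.mod_add_div k V.card]
    rw [pow_add, Equiv.Perm.mul_apply, pow_mul, h1]
  have hstep : ∀ i, u (i + 1) = σ (u i) := by
    intro i
    change (σ ^ (i + 1).val) a = σ ((σ ^ i.val) a)
    rw [ZMod.val_add, ZMod.val_one, hmod, pow_succ', Equiv.Perm.mul_apply]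
  refine ⟨fun i => (u i : ℤ × ℤ), ?_, ?_, ?_⟩
  · intro i j hij
    exact hbij.1 (Subtype.ext hij)
  · intro x
    constructor
    · intro hx
      obtain ⟨i, hi⟩ := hsurj ⟨x, hx⟩
      exact ⟨i, congrArg Subtype.val hi⟩
    · rintro ⟨i, rfl⟩
      exact (u i).2
  · intro i
    simp only [hstep]
    exact hσ (u i)

end Pool.Agent.Lib.MP_2d08ba_nt.Word
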