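import Pool.Agent.Lib.MP_2d08ba_nt.Word.Spec

set_option autoImplicit false

/-! A sparse set of points gives a sparse family of tilted half-planes. -/

namespace Pool.Agent.Lib.MP_2d08ba_nt.Word

open Pool.Agent.Lib.MP_2d08ba_nt
open Real Filter Topology

private theorem cert_fin {V : Finset (ℤ × ℤ)} {S : Finset (ℤ × ℤ)} {l : Filter ℝ}
    (h : ∀ x ∈ S, ∀ v ∈ V, ∀ᶠ θ in l, 0 < dirf θ (toR x - toR v)) :
    ∀ᶠ θ in l, ∀ x ∈ S, ∀ v ∈ V, 0 < dirf θ (toR x - toR v) := by
  rw [Filter.eventually_all_finset]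
  intro x hx
  rw [Filter.eventually_all_finset]
  intro v hv
  exact h x hx v hv

theorem cert : S_Cert := by
  intro V _ _ w X hX a b s hab S hS hT
  rcases S.eq_empty_or_nonempty with h0 | hne
  · rw [h0]
    simp
  obtain ⟨ν, hν, _, _⟩ := exists_LE hab 0
  obtain ⟨θ, hθ⟩ : ∃ θ : ℝ, ∀ x ∈ S, ∀ v ∈ V, 0 < dirf θ (toR x - toR v) := by
    cases s with
    | true =>
      exact (cert_fin fun x hx v hv => eventually_sep hν hv (hT x hx)).exists
    | false =>
      exact (cert_fin fun x hx v hv => eventually_sep' hν hv (hT x hx)).exists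
  obtain ⟨x₀, hx₀, hmin⟩ := Finset.exists_min_image S (fun x => dirf θ (toR x)) hne
  refine hX (cos θ) (sin θ) (dirf θ (toR x₀)) ?_ S hS ?_
  · intro v hv
    have h1 := hθ x₀ hx₀ v hv
    rw [dirf_sub] at h1
    have h2 : dirf θ (toR v) = cos θ * v.1 + sin θ * v.2 := by
      simp [dirf, toR]
    linarith
  · intro x hx
    have h1 := hmin x hx
    have h2 : dirf θ (toR x) = cos θ * x.1 + sin θ * x.2 := by
      simp [dirf, toR]
    linarith

end Pool.Agent.Lib.MP_2d08ba_nt.Word
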