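import Pool.Agent.Lib.MP_2d08ba_nt.Word.Spec

set_option autoImplicit false

/-! The remainders at the two corners of an edge. -/

namespace Pool.Agent.Lib.MP_2d08ba_nt.Word

open Pool.Agent.Lib.MP_2d08ba_nt

private theorem cor_mult {u p w : ℤ × ℤ} (hp : detZ p u = 1) (h0 : detZ u w = 0) :
    w = detZ p w • u := by
  unfold detZ at *
  apply Prod.ext
  · simp only [Prod.smul_fst, smul_eq_mul]
    linear_combination (-w.1) * hp - p.1 * h0
  · simp only [Prod.smul_snd, smul_eq_mul]
    linear_combination (-w.2) * hp - p.2 * h0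

/-- remainder zero -/
private theorem cor_zero {u w p q : ℤ × ℤ} {D s : ℤ} (hD : 0 < D) (hs : s = 1 ∨ s = -1)
    (hp : detZ p u = 1) (hq : detZ q w = 1) (hw : detZ w u = s * D) :
    detZ w p % D = 0 ↔ D = 1 := by
  constructor
  · intro h
    obtain ⟨k, hk⟩ := Int.dvd_of_emod_eq_zero h
    have hz0 : detZ w (p - (s * k) • u) = 0 := by
      rw [detZ_sub_right, detZ_smul_right, hw, hk]
      rcases hs with rfl | rfl <;> ring
    have hz := cor_mult hq hz0
    have h2 : detZ u (p - (s * k) • u) = -1 := by
      rw [detZ_sub_right, detZ_smul_right, detZ_self, detZ_anti u p, hp]; ring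
    rw [hz, detZ_smul_right, detZ_anti u w, hw] at h2
    have h3 : D ∣ 1 := by
      refine ⟨detZ q (p - (s * k) • u) * s, ?_⟩
      linear_combination h2
    exact le_antisymm (Int.le_of_dvd one_pos h3) hD
  · intro h
    rw [h, Int.emod_one]

/-- remainder minus one -/
private theorem cor_flat {u w p : ℤ × ℤ} {D s : ℤ} (hD : 0 < D) (hs : s = 1 ∨ s = -1)
    (hp : detZ p u = 1) (hw : detZ w u = s * D) :
    detZ w p % D = D - 1 ↔ ∃ z : ℤ × ℤ, u - w = (-s * D) • z := by
  constructor
  · intro h
    have h1 := Int.emod_add_mul_ediv (detZ w p) D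
    set k := detZ w p / D with hk
    -- detZ w p = D k + D - 1
    refine ⟨p - (s * (k + 1)) • u, ?_⟩
    have h2 : detZ w p = D * (k + 1) - 1 := by linarith
    unfold detZ at hp hw h2
    apply Prod.ext
    · simp only [Prod.smul_fst, Prod.fst_sub, smul_eq_mul]
      rcases hs with rfl | rfl
      · linear_combination w.1 * hp - p.1 * hw + u.1 * h2
      · linear_combination w.1 * hp - p.1 * hw + u.1 * h2
    · simp only [Prod.smul_snd, Prod.snd_sub, smul_eq_mul]
      rcases hs with rfl | rfl
      · linear_combination w.2 * hp - p.2 * hw + u.2 * h2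
      · linear_combination w.2 * hp - p.2 * hw + u.2 * h2
  · rintro ⟨z, hz⟩
    have h1 : detZ u z = -1 := by
      have h2 := congrArg (detZ u) hz
      rw [detZ_sub_right, detZ_self, detZ_smul_right, detZ_anti u w, hw] at h2
      have h3 : s * D * (detZ u z + 1) = 0 := by linear_combination h2
      rcases mul_eq_zero.mp h3 with h4 | h4
      · exfalso
        rcases hs with rfl | rfl <;> omega
      · linarith
    have h2 : detZ w z = -1 := by
      have h3 := congrArg (detZ w) hz
      rw [detZ_sub_right, detZ_self, detZ_smul_right, hw] at h3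
      have h4 : s * D * (detZ w z + 1) = 0 := by linear_combination h3
      rcases mul_eq_zero.mp h4 with h5 | h5
      · exfalso
        rcases hs with rfl | rfl <;> omega
      · linarith
    have h0 : detZ u (z - p) = 0 := by
      rw [detZ_sub_right, h1, detZ_anti u p, hp]; ring
    have h4 := cor_mult hp h0
    set κ := detZ p (z - p) with hκ
    have h5 : z = p + κ • u := by rw [← h4]; abel
    have h6 : detZ w p + κ * (s * D) = -1 := by
      rw [← h2]
      conv_rhs => rw [h5]
      rw [detZ_add_right, detZ_smul_right, hw]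
    have h7 : detZ w p = (D - 1) + D * (-(κ * s) - 1) := by linear_combination h6
    rw [h7, Int.add_mul_emod_self_left]
    exact Int.emod_eq_of_lt (by omega) (by omega)

theorem cor (h1 : S_Bas) : S_Cor := by
  intro n _ V v hn hv i
  have hb := (h1 n V v hn hv).2
  obtain ⟨hg, he, hp, hs⟩ := hb i
  obtain ⟨-, -, hpl, hs'⟩ := hb (i - 1)
  obtain ⟨-, -, hpr, -⟩ := hb (i + 1)
  have hw1 : detZ (dir v (i + 1)) (dir v i) = -1 * sn v i := by
    unfold sn; rw [detZ_anti]; ring
  have hw2 : detZ (dir v (i - 1)) (dir v i) = 1 * sn v (i - 1) := by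
    unfold sn; rw [sub_add_cancel, one_mul]
  refine ⟨cor_zero hs (Or.inr rfl) hp hpr hw1, ?_, cor_zero hs' (Or.inl rfl) hp hpl hw2, ?_⟩
  · rw [cor_flat hs (Or.inr rfl) hp hw1]
    unfold Flat
    simp only [neg_neg, one_mul]
  · rw [cor_flat hs' (Or.inl rfl) hp hw2]
    unfold Flat
    rw [sub_add_cancel]
    constructor
    · rintro ⟨z, hz⟩
      refine ⟨z, ?_⟩
      rw [← neg_sub, hz]
      simp
    · rintro ⟨z, hz⟩
      refine ⟨z, ?_⟩
      rw [← neg_sub, hz]
      simp

end Pool.Agent.Lib.MP_2d08ba_nt.Word
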