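import Pool.Agent.Lib.MP_2d08ba_nt.Helly
import Pool.Agent.Lib.MP_2d08ba_nt.Tilt

set_option autoImplicit false

/-! The word of an integer polygon and its blocks (definitions). -/

namespace Pool.Agent.Lib.MP_2d08ba_nt.Word

open Pool.Agent.Lib.MP_2d08ba_nt

variable {n : ℕ}

/-- `v` numbers the vertices of the polygon with vertex set `V` counterclockwise: every vertex
occurs exactly once, and `(v i, v (i + 1))` is an edge (with the polygon on its left). -/
def Ccw (V : Finset (ℤ × ℤ)) (v : ZMod n → ℤ × ℤ) : Prop :=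
  Function.Injective v ∧ (∀ x, x ∈ V ↔ ∃ i, v i = x) ∧ ∀ i, IsEdgeZ V (v i) (v (i + 1))

/-- The primitive direction of the edge `i`, from `v i` to `v (i + 1)`. -/
def dir (v : ZMod n → ℤ × ℤ) (i : ZMod n) : ℤ × ℤ :=
  ((v (i + 1) - v i).1 / glen (v (i + 1) - v i), (v (i + 1) - v i).2 / glen (v (i + 1) - v i))

/-- The integer sine `D i` of the corner between the edges `i` and `i + 1`. -/
def sn (v : ZMod n → ℤ × ℤ) (i : ZMod n) : ℤ := detZ (dir v i) (dir v (i + 1))

/-- The Bézout vector of the edge `i`: an integer vector `p` with `det (p, dir i) = 1`. -/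
def bez (v : ZMod n → ℤ × ℤ) (i : ZMod n) : ℤ × ℤ :=
  (Int.gcdB (dir v i).1 (dir v i).2, -Int.gcdA (dir v i).1 (dir v i).2)

/-- The number `t i` of the edge `i`: its lattice length plus the floors of
`det (dir (i - 1), p) / D (i - 1)` and `det (dir (i + 1), p) / D i`, `p` the Bézout vector. -/
def tn (v : ZMod n → ℤ × ℤ) (i : ZMod n) : ℤ :=
  glen (v (i + 1) - v i) + detZ (dir v (i - 1)) (bez v i) / sn v (i - 1) +
    detZ (dir v (i + 1)) (bez v i) / sn v i

/-- The corner between the edges `i` and `i + 1` is flat: its integer sine divides the difference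
of the two primitive directions. -/
def Flat (v : ZMod n → ℤ × ℤ) (i : ZMod n) : Prop :=
  ∃ w : ℤ × ℤ, dir v i - dir v (i + 1) = sn v i • w

/-- The block of the edge `i` with offset `c`. -/
def stripBlock (v : ZMod n → ℤ × ℤ) (i : ZMod n) (c : ℤ) : Set (ZMod n × Bool) :=
  {p | p.1 = i ∨ (p = (i - 1, true) ∧ c = 0 ∧ sn v (i - 1) = 1) ∨
    (p = (i + 1, false) ∧ c = tn v i ∧ sn v i = 1)}

/-- The block of the edges `i, ..., i + K`. -/
def cornerBlock (v : ZMod n → ℤ × ℤ) (i : ZMod n) (K : ℕ) : Set (ZMod n × Bool) :=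
  {p | (∃ k : ℕ, k ≤ K ∧ p.1 = i + k) ∨ (p = (i - 1, true) ∧ tn v i = -1 ∧ sn v (i - 1) = 1) ∨
    (p = (i + K + 1, false) ∧ tn v (i + K) = -1 ∧ sn v (i + K) = 1)}

/-- The blocks of the polygon: sets of positions `(i, s)`, `i` an edge, `s` one of its two sides
(`false` = before, `true` = after). -/
def IsBlock (v : ZMod n → ℤ × ℤ) (B : Set (ZMod n × Bool)) : Prop :=
  (∃ (i : ZMod n) (c : ℤ), 0 ≤ c ∧ c ≤ tn v i ∧ B = stripBlock v i c) ∨
  (∃ (i : ZMod n) (K : ℕ), 1 ≤ K ∧ K + 2 ≤ n ∧ (∀ k : ℕ, k < K → Flat v (i + k)) ∧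
    (∀ k : ℕ, 0 < k → k < K → tn v (i + k) = -2) ∧ -1 ≤ tn v i ∧ -1 ≤ tn v (i + K) ∧
    B = cornerBlock v i K)

end Pool.Agent.Lib.MP_2d08ba_nt.Word
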