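import Pool.Agent.Lib.MP_2d08ba_nt.Word.Main

set_option autoImplicit false

/-! The word criterion: piercing, certificates, dependence on the word. -/

namespace Pool.Agent.Lib.MP_2d08ba_nt.Word

open Pool.Agent.Lib.MP_2d08ba_nt

/-- The numbers `t` at least `2` are not distinguished, nor are the numbers at most `-3`. -/
def clip (t : ℤ) : ℤ := max (-3) (min t 2)

/-- `v` and `v'` have the same letter at `i`: the same clipped number, and their corners
between the edges `i` and `i + 1` are both smooth or both not, both flat or both not. -/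
def SameLetter {n : ℕ} (v v' : ZMod n → ℤ × ℤ) (i : ZMod n) : Prop :=
  clip (tn v i) = clip (tn v' i) ∧ (sn v i = 1 ↔ sn v' i = 1) ∧ (Flat v i ↔ Flat v' i)

section

variable {n : ℕ} {v v' : ZMod n → ℤ × ℤ}

theorem SameLetter.symm {i : ZMod n} (h : SameLetter v v' i) : SameLetter v' v i :=
  ⟨h.1.symm, h.2.1.symm, h.2.2.symm⟩

theorem clip_facts {t t' : ℤ} (h : clip t = clip t') :
    (-1 ≤ t → -1 ≤ t') ∧ (t = -1 ↔ t' = -1) ∧ (t = -2 → t' = -2) ∧ (t = 0 → t' = 0) ∧
      (t = 1 → t' = 1) ∧ (2 ≤ t → 2 ≤ t') := by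
  unfold clip at h
  refine ⟨fun h1 => ?_, ⟨fun h1 => ?_, fun h1 => ?_⟩, fun h1 => ?_, fun h1 => ?_, fun h1 => ?_,
    fun h1 => ?_⟩ <;> omega

theorem block_dep (h : ∀ i, SameLetter v v' i) {B : Set (ZMod n × Bool)} (hB : IsBlock v B) :
    IsBlock v' B := by
  rcases hB with ⟨i, c, hc0, hc1, rfl⟩ | ⟨i, K, hK1, hK2, hflat, htwo, hti, htj, rfl⟩
  · left
    obtain ⟨k1, k2, k3, k4, k5, k6⟩ := clip_facts (h i).1
    have hkey : ∃ c', 0 ≤ c' ∧ c' ≤ tn v' i ∧ (c = 0 ↔ c' = 0) ∧ (c = tn v i ↔ c' = tn v' i) := by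
      by_cases ht0 : tn v i = 0
      · exact ⟨0, le_refl _, by rw [k4 ht0], by omega, by rw [k4 ht0, ht0]; omega⟩
      by_cases ht1 : tn v i = 1
      · have := k5 ht1
        exact ⟨c, hc0, by omega, Iff.rfl, by omega⟩
      have ht2 := k6 (by omega)
      by_cases hcz : c = 0
      · exact ⟨0, le_refl _, by omega, by omega, by omega⟩
      by_cases hct : c = tn v i
      · exact ⟨tn v' i, by omega, le_refl _, by omega, by omega⟩
      · exact ⟨1, by omega, by omega, by omega, by omega⟩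
    obtain ⟨c', h1, h2, h3, h4⟩ := hkey
    refine ⟨i, c', h1, h2, ?_⟩
    ext p
    simp only [stripBlock, Set.mem_ofPred_eq]
    rw [h3, h4, (h (i - 1)).2.1, (h i).2.1]
  · right
    refine ⟨i, K, hK1, hK2, fun k hk => (h _).2.2.mp (hflat k hk),
      fun k hk0 hk => (clip_facts (h _).1).2.2.1 (htwo k hk0 hk), (clip_facts (h _).1).1 hti,
      (clip_facts (h _).1).1 htj, ?_⟩
    ext p
    simp only [cornerBlock, Set.mem_ofPred_eq]
    rw [(clip_facts (h i).1).2.1, (clip_facts (h (i + K)).1).2.1, (h (i - 1)).2.1,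
      (h (i + K)).2.1]

end

section

variable {n : ℕ} [NeZero n] {V : Finset (ℤ × ℤ)} {v : ZMod n → ℤ × ℤ}

theorem word_pierce (h1 : S_Bas) (h2 : S_Pt) (h3 : S_Cor) (h4 : S_VisE) (h5 : S_VisP)
    (h6 : S_Til) (m : ℕ) (hm : 2 ≤ m) (hn : 3 ≤ n) (hV : ConvexPos (vertexSet V))
    (hv : Ccw V v) : Realizable m (poly V) ↔
      ∃ f : Fin (m + 1) → ZMod n × Bool, ∀ B, IsBlock v B → ∃ k, f k ∈ B := by
  have hcard := (h1 n V v hn hv).1
  rw [tilt_main m hm (by rw [hcard]; exact hn) hV]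
  constructor
  · rintro ⟨a, b, s, hab, hcov⟩
    choose g hg1 hg2 using fun k => edge_index hv (hab k)
    refine ⟨fun k => (g k, s k), ?_⟩
    intro B hB
    obtain ⟨x, hx, rfl⟩ := shell_of_block h1 h2 h3 h5 h6 hn hV hv hB
    obtain ⟨k, hk⟩ := hcov x hx
    refine ⟨k, ?_⟩
    show Tilt (v (g k)) (v (g k + 1)) (s k) x
    rw [hg1, hg2]
    exact hk
  · rintro ⟨f, hf⟩
    refine ⟨fun k => v (f k).1, fun k => v ((f k).1 + 1), fun k => (f k).2,
      fun k => hv.2.2 _, ?_⟩
    intro x hx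
    exact hf (T v x) (block_of_shell h1 h2 h3 h4 h6 hn hV hv hx)

theorem word_pierce_not (h1 : S_Bas) (h2 : S_Pt) (h3 : S_Cor) (h4 : S_VisE) (h5 : S_VisP)
    (h6 : S_Til) (m : ℕ) (hm : 2 ≤ m) (hn : 3 ≤ n) (hV : ConvexPos (vertexSet V))
    (hv : Ccw V v) : ¬ Realizable m (poly V) ↔
      ∀ f : Fin (m + 1) → ZMod n × Bool, ∃ B, IsBlock v B ∧ ∀ k, f k ∉ B := by
  rw [word_pierce h1 h2 h3 h4 h5 h6 m hm hn hV hv]
  push Not
  rfl

/-- a sparse family of blocks excludes realizability -/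
theorem cert_not_realizable (h1 : S_Bas) (h2 : S_Pt) (h3 : S_Cor) (h4 : S_VisE) (h5 : S_VisP)
    (h6 : S_Til) (m : ℕ) (hm : 2 ≤ m) (hn : 3 ≤ n) (hV : ConvexPos (vertexSet V))
    (hv : Ccw V v) (w : ℕ) (F : Fin (w * (m + 1) + 1) → Set (ZMod n × Bool))
    (hF : ∀ k, IsBlock v (F k)) (hsp : ∀ p, {k | p ∈ F k}.ncard ≤ w) :
    ¬ Realizable m (poly V) := by
  classical
  intro hreal
  obtain ⟨f, hf⟩ := (word_pierce h1 h2 h3 h4 h5 h6 m hm hn hV hv).mp hreal
  have hcov : (Finset.univ : Finset (Fin (w * (m + 1) + 1))) ⊆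
      Finset.univ.biUnion (fun j : Fin (m + 1) => Finset.univ.filter (fun k => f j ∈ F k)) := by
    intro k _
    obtain ⟨j, hj⟩ := hf (F k) (hF k)
    rw [Finset.mem_biUnion]
    exact ⟨j, Finset.mem_univ _, Finset.mem_filter.mpr ⟨Finset.mem_univ _, hj⟩⟩
  have hc1 := (Finset.card_le_card hcov).trans Finset.card_biUnion_le
  have hc2 : ∑ j : Fin (m + 1), (Finset.univ.filter
      (fun k : Fin (w * (m + 1) + 1) => f j ∈ F k)).card ≤ ∑ _j : Fin (m + 1), w := by
    refine Finset.sum_le_sum (fun j _ => ?_)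
    have h8 := hsp (f j)
    have h9 : {k | f j ∈ F k} = ((Finset.univ.filter
        (fun k : Fin (w * (m + 1) + 1) => f j ∈ F k) : Finset _) : Set _) := by
      ext k
      rw [Finset.mem_coe, Finset.mem_filter]
      exact ⟨fun h => ⟨Finset.mem_univ _, h⟩, fun h => h.2⟩
    rw [h9, Set.ncard_coe_finset] at h8
    exact h8
  rw [Finset.card_univ, Fintype.card_fin] at hc1
  rw [Finset.sum_const, Finset.card_univ, Fintype.card_fin, smul_eq_mul] at hc2
  have := hc1.trans hc2
  rw [mul_comm] at this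
  omega

theorem word_cert (h1 : S_Bas) (h2 : S_Pt) (h3 : S_Cor) (h4 : S_VisE) (h5 : S_VisP)
    (h6 : S_Til) (h7 : S_Cert) (m : ℕ) (hm : 2 ≤ m) (hn : 3 ≤ n) (hV : ConvexPos (vertexSet V))
    (hv : Ccw V v) : ¬ Realizable m (poly V) ↔
      ∃ w : ℕ, 1 ≤ w ∧ w ≤ turns V ∧ ∃ F : Fin (w * (m + 1) + 1) → Set (ZMod n × Bool),
        (∀ k, IsBlock v (F k)) ∧ ∀ p, {k | p ∈ F k}.ncard ≤ w := by
  classical
  have hcard := (h1 n V v hn hv).1
  have h3' : 3 ≤ V.card := by rw [hcard]; exact hn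
  constructor
  · intro hnot
    obtain ⟨w, hw1, hw2, X, hX, hXs, hsp⟩ := (bounded_main m hm V h3' hV).1.mp hnot
    let e := (X.equivFinOfCardEq hX).symm
    refine ⟨w, hw1, hw2, fun k => T v (e k : ℤ × ℤ), ?_, ?_⟩
    · intro k
      exact block_of_shell h1 h2 h3 h4 h6 hn hV hv (hXs _ (e k).2)
    · intro p
      set S : Finset (ℤ × ℤ) := X.filter (fun x => Tilt (v p.1) (v (p.1 + 1)) p.2 x) with hS
      have hScard : S.card ≤ w := h7 V h3' hV w X hsp _ _ _ (hv.2.2 p.1) S
        (Finset.filter_subset _ _) (fun x hx => (Finset.mem_filter.mp hx).2)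
      have hle : {k | p ∈ T v (e k : ℤ × ℤ)}.ncard ≤ (S : Set (ℤ × ℤ)).ncard := by
        refine Set.ncard_le_ncard_of_injOn (fun k => (e k : ℤ × ℤ)) ?_ ?_ S.finite_toSet
        · intro k hk
          rw [Finset.mem_coe, hS, Finset.mem_filter]
          exact ⟨(e k).2, hk⟩
        · intro k _ k' _ hkk
          exact e.injective (Subtype.ext hkk)
      rw [Set.ncard_coe_finset] at hle
      exact hle.trans hScard
  · rintro ⟨w, hw1, hw2, F, hF, hsp⟩
    exact cert_not_realizable h1 h2 h3 h4 h5 h6 m hm hn hV hv w F hF hsp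

/-- an edge is full if and only if its two positions form a block -/
theorem full_iff (h1 : S_Bas) (h2 : S_Pt) (h3 : S_Cor) (h4 : S_VisE) (h5 : S_VisP)
    (h6 : S_Til) (hn : 3 ≤ n) (hV : ConvexPos (vertexSet V)) (hv : Ccw V v) (i : ZMod n) :
    FullEdge V (v i) (v (i + 1)) ↔ IsBlock v {p | p.1 = i} := by
  have hb := (h1 n V v hn hv).2
  constructor
  · rintro ⟨z, c, hz, _, hc, x, hx1, hx2, hx3⟩
    obtain ⟨j, hj1, hj2⟩ := edge_index hv hz
    have hji : j = i - 1 := by
      have := hv.1 hj2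
      rw [← this]; ring
    subst hji
    have hc2 : v (i + 1 + 1) = c := toR_injective
      (next_unique (edge_iff.mpr (hv.2.2 (i + 1))) (edge_iff.mpr hc))
    rw [← hj1, ← hj2, detZ_H h1 hn hv] at hx2
    rw [← hc2, detZ_H h1 hn hv] at hx3
    rw [detZ_H h1 hn hv] at hx1
    have g0 := (hb i).1
    have g1 := (hb (i - 1)).1
    have g2 := (hb (i + 1)).1
    have y1 : H v i x = -1 := by
      have h9 : glen (v (i + 1) - v i) * (H v i x + 1) = 0 := by linear_combination hx1
      rcases mul_eq_zero.mp h9 with h10 | h10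
      · exact absurd h10 g0.ne'
      · linarith
    have y2 : 0 < H v (i - 1) x := by
      by_contra hcon
      push Not at hcon
      have := mul_nonpos_of_nonneg_of_nonpos g1.le hcon
      linarith
    have y3 : 0 < H v (i + 1) x := by
      by_contra hcon
      push Not at hcon
      have := mul_nonpos_of_nonneg_of_nonpos g2.le hcon
      linarith
    obtain ⟨hs, hvis⟩ := shell_of_vis h1 h5 hn hV hv (x := x) (i := i) (K := 0) (by omega)
      (by
        intro k hk
        have : k = 0 := by omega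
        subst this
        rw [Nat.cast_zero, add_zero]; exact y1) y2.le
      (by rw [Nat.cast_zero, add_zero]; exact y3.le)
    have hB := block_of_shell h1 h2 h3 h4 h6 hn hV hv hs
    rw [T_eq h6 hn hV hv hvis] at hB
    convert hB using 1
    ext p
    simp only [Set.mem_ofPred_eq, Nat.cast_zero, add_zero]
    constructor
    · intro h
      exact Or.inl ⟨0, le_refl _, by rw [h, Nat.cast_zero, add_zero]⟩
    · rintro (⟨k, hk, hp⟩ | ⟨_, h⟩ | ⟨_, h⟩)
      · have : k = 0 := by omega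
        subst this
        rw [hp, Nat.cast_zero, add_zero]
      · exact absurd h y2.ne'
      · exact absurd h y3.ne'
  · intro hB
    obtain ⟨x, hx, hT⟩ := shell_of_block h1 h2 h3 h5 h6 hn hV hv hB
    have hx' := (mem_shell_iff h1 hn hv x).mp hx
    obtain ⟨j, K, hvis⟩ := h4 n V v hn hV hv x hx'.1
    rw [T_eq h6 hn hV hv hvis] at hT
    have hone : (1 : ZMod n) ≠ 0 := by
      intro h
      have h8 := congrArg ZMod.val h
      rw [ZMod.val_zero] at h8
      have h9 : ZMod.val (1 : ZMod n) = 1 := by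
        rw [← Nat.cast_one, ZMod.val_natCast, Nat.mod_eq_of_lt (by omega)]
      omega
    have hrun : ∀ k : ℕ, k ≤ K → j + (k : ZMod n) = i := by
      intro k hk
      have h8 : ((j + (k : ZMod n), true) : ZMod n × Bool) ∈ {p : ZMod n × Bool | p.1 = i} := by
        rw [← hT]
        exact Or.inl ⟨k, hk, rfl⟩
      exact h8
    have hj : j = i := by
      have := hrun 0 (Nat.zero_le _)
      rw [Nat.cast_zero, add_zero] at this
      exact this
    subst hj
    have hK : K = 0 := by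
      by_contra hcon
      have := hrun 1 (by omega)
      rw [Nat.cast_one] at this
      exact hone (by
        have h8 := congrArg (fun y => y - j) this
        simpa using h8)
    subst hK
    have y1 : H v j x = -1 := by
      have h8 := hvis.2.1 0 (le_refl _)
      rw [Nat.cast_zero, add_zero] at h8
      have := hx'.2 j
      omega
    have y2 : 0 < H v (j - 1) x := by
      rcases eq_or_lt_of_le hvis.2.2.1 with h8 | h8
      · exfalso
        have h9 : ((j - 1, true) : ZMod n × Bool) ∈ {p : ZMod n × Bool | p.1 = j} := by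
          rw [← hT]
          exact Or.inr (Or.inl ⟨rfl, h8.symm⟩)
        have h10 : j - 1 = j := h9
        exact hone (by
          have h11 := congrArg (fun y => j - y) h10
          simpa using h11)
      · exact h8
    have hr := hvis.2.2.2
    rw [Nat.cast_zero, add_zero] at hr
    have y3 : 0 < H v (j + 1) x := by
      rcases eq_or_lt_of_le hr with h8 | h8
      · exfalso
        have h9 : ((j + 1, false) : ZMod n × Bool) ∈ {p : ZMod n × Bool | p.1 = j} := by
          rw [← hT]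
          refine Or.inr (Or.inr ⟨?_, ?_⟩)
          · rw [Nat.cast_zero, add_zero]
          · rw [Nat.cast_zero, add_zero]; exact h8.symm
        have h10 : j + 1 = j := h9
        exact hone (by
          have h11 := congrArg (fun y => y - j) h10
          simpa using h11)
      · exact h8
    have e1 : IsEdgeZ V (v (j - 1)) (v j) := by
      have := hv.2.2 (j - 1)
      rwa [sub_add_cancel] at this
    refine ⟨v (j - 1), v (j + 1 + 1), e1, hv.2.2 j, hv.2.2 (j + 1), x, ?_, ?_, ?_⟩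
    · rw [detZ_H h1 hn hv, y1]; ring
    · have h8 := detZ_H h1 hn hv (j - 1) x
      rw [sub_add_cancel] at h8
      rw [h8]
      have g := (hb (j - 1)).1
      rw [sub_add_cancel] at g
      exact mul_pos g y2
    · rw [detZ_H h1 hn hv]
      exact mul_pos (hb (j + 1)).1 y3

theorem word_turns (h1 : S_Bas) (h2 : S_Pt) (h3 : S_Cor) (h4 : S_VisE) (h5 : S_VisP)
    (h6 : S_Til) (hn : 3 ≤ n) (hV : ConvexPos (vertexSet V)) (hv : Ccw V v) (w : ℕ) :
    w ≤ turns V → w ≤ 3 ∧ ((∃ i, IsBlock v {p | p.1 = i}) → w ≤ 2) ∧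
      ((∃ i, IsBlock v {p | p.1 = i} ∧ IsBlock v {p | p.1 = i + 1}) → w ≤ 1) := by
  classical
  intro hw
  refine ⟨hw.trans (turns_le V), ?_, ?_⟩
  · rintro ⟨i, hi⟩
    have h7 := (full_iff h1 h2 h3 h4 h5 h6 hn hV hv i).mpr hi
    refine hw.trans ?_
    unfold turns
    rw [if_pos (⟨_, _, h7⟩ : ∃ a b, FullEdge V a b)]
    split_ifs <;> norm_num
  · rintro ⟨i, hi, hi'⟩
    have h7 := (full_iff h1 h2 h3 h4 h5 h6 hn hV hv i).mpr hi
    have h8 := (full_iff h1 h2 h3 h4 h5 h6 hn hV hv (i + 1)).mpr hi'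
    refine hw.trans ?_
    unfold turns
    rw [if_pos (⟨_, _, _, h7, h8⟩ : ∃ a b c, FullEdge V a b ∧ FullEdge V b c)]

end

end Pool.Agent.Lib.MP_2d08ba_nt.Word
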