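import Pool.Agent.Lib.MP_2d08ba_nt.Word.SpecH
import Pool.Agent.Lib.MP_2d08ba_nt.Word.Final

set_option autoImplicit false

/-! The invariants of a numbered polygon: existence, uniqueness, and the blocks. -/

namespace Pool.Agent.Lib.MP_2d08ba_nt.Word

open Pool.Agent.Lib.MP_2d08ba_nt

theorem multH {u p w : ℤ × ℤ} (hp : detZ p u = 1) (h0 : detZ u w = 0) :
    w = detZ p w • u := by
  unfold detZ at *
  apply Prod.ext
  · simp only [Prod.smul_fst, smul_eq_mul]
    linear_combination (-w.1) * hp - p.1 * h0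
  · simp only [Prod.smul_snd, smul_eq_mul]
    linear_combination (-w.2) * hp - p.2 * h0

section

variable {n : ℕ} [NeZero n] {V : Finset (ℤ × ℤ)} {v : ZMod n → ℤ × ℤ}

/-- existence of the invariants -/
theorem exists_inv (h1 : S_Bas) (h2 : S_HJex) (h3 : S_HJpr) (hn : 3 ≤ n) (hv : Ccw V v) :
    ∃ (l c : ZMod n → ℤ) (B : ZMod n → List ℤ), Inv v l c B := by
  have hb := (h1 n V v hn hv).2
  have hprim : ∀ i, ∃ s t : ℤ, (dir v i).1 * s + (dir v i).2 * t = 1 := by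
    intro i
    refine ⟨-(bez v i).2, (bez v i).1, ?_⟩
    have := (hb i).2.2.1
    unfold detZ at this
    linear_combination this
  have hex : ∀ i, ∃ (q : ℤ × ℤ) (B : List ℤ), detZ (dir v i) q = 1 ∧ (∀ b ∈ B, 2 ≤ b) ∧
      (run B (dir v i, q)).2 = dir v (i + 1) := fun i =>
    h2 (dir v i) (dir v (i + 1)) (hb i).2.2.2 (hprim i) (hprim (i + 1))
  choose q B hq hB hrun using hex
  have hp : ∀ i, detZ (run (B (i - 1)) (dir v (i - 1), q (i - 1))).1 (dir v i) = 1 := by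
    intro i
    have e : run (B (i - 1)) (dir v (i - 1), q (i - 1)) =
        ((run (B (i - 1)) (dir v (i - 1), q (i - 1))).1, dir v i) := by
      apply Prod.ext
      · rfl
      · rw [hrun (i - 1), sub_add_cancel]
    exact (h3 _ _ _ _ _ (hq (i - 1)) (hB (i - 1)) e).1
  refine ⟨fun i => glen (v (i + 1) - v i), fun i => detZ (bez v i)
    ((run (B (i - 1)) (dir v (i - 1), q (i - 1))).1 + q i), B, fun i => rfl, q, ?_⟩
  intro i
  refine ⟨hq i, hB i, ?_⟩
  apply Prod.ext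
  · simp only
    have h0 : detZ (dir v (i + 1)) ((run (B (i + 1 - 1)) (dir v (i + 1 - 1), q (i + 1 - 1))).1 +
        q (i + 1)) = 0 := by
      rw [detZ_add_right, hq (i + 1), detZ_anti, hp (i + 1)]; ring
    have h4 := multH (hb (i + 1)).2.2.1 h0
    rw [← h4, add_sub_cancel_right, add_sub_cancel_right]
  · exact hrun i

/-- uniqueness of the invariants -/
theorem inv_unique (h1 : S_Bas) (h2 : S_HJun) (hn : 3 ≤ n) (hv : Ccw V v)
    {l c l' c' : ZMod n → ℤ} {B B' : ZMod n → List ℤ} (h : Inv v l c B) (h' : Inv v l' c' B') :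
    l = l' ∧ c = c' ∧ B = B' := by
  have hb := (h1 n V v hn hv).2
  obtain ⟨hl, q, hq⟩ := h
  obtain ⟨hl', q', hq'⟩ := h'
  have key : ∀ i, q i = q' i ∧ B i = B' i := fun i =>
    h2 (dir v i) (q i) (q' i) (dir v (i + 1)) (B i) (B' i) (hq i).1 (hq' i).1 (hq i).2.1
      (hq' i).2.1 (by rw [(hq i).2.2]) (by rw [(hq' i).2.2])
  refine ⟨?_, ?_, ?_⟩
  · funext i; rw [hl, hl']
  · funext j
    obtain ⟨i, rfl⟩ : ∃ i, j = i + 1 := ⟨j - 1, by ring⟩
    have e1 := (hq i).2.2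
    rw [(key i).1, (key i).2, (hq' i).2.2] at e1
    have e2 := congrArg (fun y => detZ (bez v (i + 1)) (y.1 + q (i + 1))) e1
    simp only at e2
    rw [(key (i + 1)).1, sub_add_cancel, sub_add_cancel, detZ_smul_right, detZ_smul_right,
      (hb (i + 1)).2.2.1, mul_one, mul_one] at e2
    exact e2.symm
  · funext i; exact (key i).2

theorem inv_facts (h1 : S_Bas) (h2 : S_HJpr) (h3 : S_Tn) (hn : 3 ≤ n) (hv : Ccw V v)
    {l c : ZMod n → ℤ} {B : ZMod n → List ℤ} (h : Inv v l c B) (i : ZMod n) :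
    tn v i = l i - c i ∧ (sn v i = 1 ↔ B i = []) ∧ (Flat v i ↔ ∀ b ∈ B i, b = 2) := by
  obtain ⟨hl, q, hq⟩ := h
  obtain ⟨a1, a2, a3, a4, a5⟩ := h2 _ _ _ _ _ (hq i).1 (hq i).2.1 (hq i).2.2
  obtain ⟨b1, b2, b3, b4, b5⟩ := h2 _ _ _ _ _ (hq (i - 1)).1 (hq (i - 1)).2.1 (hq (i - 1)).2.2
  rw [sub_add_cancel] at b1 b2
  have hs : sn v i = detZ (dir v i) (dir v (i + 1)) := rfl
  have hs' : sn v (i - 1) = detZ (dir v (i - 1)) (dir v i) := by
    unfold sn; rw [sub_add_cancel]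
  refine ⟨?_, ?_, ?_⟩
  · rw [hl i]
    exact h3 n V v hn hv i _ (q i) (c i) b1 (hq i).1 (by rw [sub_add_cancel]) b2.1
      (by rw [hs']; exact b2.2) a3.1 (by rw [hs]; exact a3.2)
  · rw [hs]; exact a4.symm
  · rw [a5]; rfl

/-- the blocks from the invariants -/
theorem block_iff (h1 : S_Bas) (h2 : S_HJpr) (h3 : S_Tn) (hn : 3 ≤ n) (hv : Ccw V v)
    {l c : ZMod n → ℤ} {B : ZMod n → List ℤ} (h : Inv v l c B) (S : Set (ZMod n × Bool)) :
    IsBlock v S ↔ IsBl (fun i => l i - c i) B S := by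
  have hf := inv_facts h1 h2 h3 hn hv h
  have e1 : ∀ i a, stripBlock v i a = stripBl (fun i => l i - c i) B i a := by
    intro i a
    ext p
    simp only [stripBlock, stripBl, Set.mem_ofPred_eq]
    rw [(hf i).1, (hf i).2.1, (hf (i - 1)).2.1]
  have e2 : ∀ i K, cornerBlock v i K = cornerBl (fun i => l i - c i) B i K := by
    intro i K
    ext p
    simp only [cornerBlock, cornerBl, Set.mem_ofPred_eq]
    rw [(hf i).1, (hf (i + K)).1, (hf (i + K)).2.1, (hf (i - 1)).2.1]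
  unfold IsBlock IsBl
  simp only [e1, e2, fun i => (hf i).1, fun i => (hf i).2.2]

end

end Pool.Agent.Lib.MP_2d08ba_nt.Word
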