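import Pool.Agent.Lib.MP_2d08ba_nt.Word.SpecH

set_option autoImplicit false

/-! Existence of the Hirzebruch-Jung continued fraction (`S_HJex`). -/

namespace Pool.Agent.Lib.MP_2d08ba_nt.Word

open Pool.Agent.Lib.MP_2d08ba_nt

private theorem hjex_mult {u p w : ℤ × ℤ} (hp : detZ p u = 1) (h0 : detZ u w = 0) :
    w = detZ p w • u := by
  unfold detZ at *
  apply Prod.ext
  · simp only [Prod.smul_fst, smul_eq_mul]
    linear_combination (-w.1) * hp - p.1 * h0
  · simp only [Prod.smul_snd, smul_eq_mul]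
    linear_combination (-w.2) * hp - p.2 * h0

/-- division with remainder -/
private theorem hjex_div {u w : ℤ × ℤ} (hD : 0 < detZ u w)
    (hu : ∃ s t : ℤ, u.1 * s + u.2 * t = 1) :
    ∃ q : ℤ × ℤ, detZ u q = 1 ∧ 0 ≤ detZ q w ∧ detZ q w < detZ u w := by
  obtain ⟨s, t, hst⟩ := hu
  obtain ⟨k, hk⟩ : ∃ k : ℤ, k = detZ (-t, s) w / detZ u w := ⟨_, rfl⟩
  refine ⟨(-t - k * u.1, s - k * u.2), ?_, ?_⟩
  · unfold detZ
    linear_combination hst
  · have h1 : detZ (-t - k * u.1, s - k * u.2) w = detZ (-t, s) w - k * detZ u w := by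
      unfold detZ
      ring
    have h2 : detZ (-t, s) w - k * detZ u w = detZ (-t, s) w % detZ u w := by
      rw [hk, Int.emod_def]
      ring
    rw [h1, h2]
    exact ⟨Int.emod_nonneg _ hD.ne', Int.emod_lt_of_pos _ hD⟩

private theorem hjex_ind (h1 : S_HJpr) (N : ℕ) : ∀ u w : ℤ × ℤ, 0 < detZ u w →
    (detZ u w).toNat ≤ N → (∃ s t : ℤ, u.1 * s + u.2 * t = 1) →
    (∃ s t : ℤ, w.1 * s + w.2 * t = 1) →
    ∃ (q : ℤ × ℤ) (B : List ℤ), detZ u q = 1 ∧ (∀ b ∈ B, 2 ≤ b) ∧ (run B (u, q)).2 = w := by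
  induction N with
  | zero =>
    intro u w hD hN _ _
    exfalso
    omega
  | succ N ih =>
    intro u w hD hN hu hw
    obtain ⟨q, hq, hq0, hq1⟩ := hjex_div hD hu
    rcases hq0.eq_or_lt with h0 | h0
    · -- the remainder is zero
      have h2 := hjex_mult hq h0.symm
      obtain ⟨s, t, hst⟩ := hw
      have h3 : detZ u w = 1 := by
        have h4 : detZ u w ∣ 1 := by
          refine ⟨q.1 * s + q.2 * t, ?_⟩
          have e1 : w.1 = detZ u w * q.1 := congrArg Prod.fst h2
          have e2 : w.2 = detZ u w * q.2 := congrArg Prod.snd h2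
          linear_combination -hst + s * e1 + t * e2
        have h5 := Int.le_of_dvd one_pos h4
        omega
      refine ⟨q, [], hq, fun b hb => absurd hb List.not_mem_nil, ?_⟩
      change q = w
      rw [h3, one_smul] at h2
      exact h2.symm
    · -- the remainder is positive
      have hqp : ∃ s t : ℤ, q.1 * s + q.2 * t = 1 := by
        refine ⟨-u.2, u.1, ?_⟩
        have h2 : u.1 * q.2 - u.2 * q.1 = 1 := hq
        linear_combination h2
      obtain ⟨q', B', hq', hB', hrun⟩ := ih q w h0 (by omega) hqp hw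
      have h2 : detZ q (q' + u) = 0 := by
        have e1 : q.1 * q'.2 - q.2 * q'.1 = 1 := hq'
        have e2 : u.1 * q.2 - u.2 * q.1 = 1 := hq
        have e3 : detZ q (q' + u) = q.1 * (q'.2 + u.2) - q.2 * (q'.1 + u.1) := rfl
        rw [e3]
        linear_combination e1 - e2
      have h3 := hjex_mult hq h2
      obtain ⟨b, hb⟩ : ∃ b : ℤ, b = detZ u (q' + u) := ⟨_, rfl⟩
      rw [← hb] at h3
      have h4 : q' = b • q - u := by rw [← h3, add_sub_cancel_right]
      obtain ⟨-, -, h5, -⟩ := h1 q q' (run B' (q, q')).1 w B' hq' hB' (Prod.ext rfl hrun)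
      have h6 : detZ q' w = b * detZ q w - detZ u w := by
        rw [h4]
        simp only [detZ, Prod.fst_sub, Prod.snd_sub, Prod.smul_fst, Prod.smul_snd, smul_eq_mul]
        ring
      have h7 : 2 ≤ b := by
        by_contra h8
        have h9 : b ≤ 1 := by omega
        nlinarith [h5.1]
      refine ⟨q, b :: B', hq, ?_, ?_⟩
      · intro c hc
        rcases List.mem_cons.1 hc with rfl | hc
        · exact h7
        · exact hB' c hc
      · rw [run]
        change (run B' (q, b • q - u)).2 = w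
        rw [← h4, hrun]

theorem hjex (h1 : S_HJpr) : S_HJex := fun u w hD hu hw =>
  hjex_ind h1 _ u w hD le_rfl hu hw

end Pool.Agent.Lib.MP_2d08ba_nt.Word
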