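import Pool.Agent.Lib.MP_2d08ba_nt.Word.SpecH

set_option autoImplicit false

/-! Properties of the Hirzebruch-Jung recursion (`S_HJpr`). -/

namespace Pool.Agent.Lib.MP_2d08ba_nt.Word

open Pool.Agent.Lib.MP_2d08ba_nt

/-- the determinant of the two vectors is invariant -/
private theorem hjpr_inv (B : List ℤ) : ∀ x : (ℤ × ℤ) × (ℤ × ℤ),
    detZ (run B x).1 (run B x).2 = detZ x.1 x.2 := by
  induction B with
  | nil => exact fun x => rfl
  | cons b B ih =>
    intro x
    rw [run, ih]
    simp only [detZ, Prod.fst_sub, Prod.snd_sub, Prod.smul_fst, Prod.smul_snd, smul_eq_mul]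
    ring

/-- the values of a linear form increase -/
private theorem hjpr_inc (u : ℤ × ℤ) (B : List ℤ) : (∀ b ∈ B, 2 ≤ b) →
    ∀ x : (ℤ × ℤ) × (ℤ × ℤ), 0 ≤ detZ u x.1 → detZ u x.1 < detZ u x.2 →
      0 ≤ detZ u (run B x).1 ∧ detZ u (run B x).1 < detZ u (run B x).2 := by
  induction B with
  | nil => exact fun _ x h1 h2 => ⟨h1, h2⟩
  | cons b B ih =>
    intro hB x h1 h2
    rw [run]
    have hb : 2 ≤ b := hB b List.mem_cons_self
    refine ih (fun c hc => hB c (List.mem_cons_of_mem b hc)) (x.2, b • x.2 - x.1)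
      (by change 0 ≤ detZ u x.2; omega) ?_
    have h3 : detZ u (b • x.2 - x.1) = b * detZ u x.2 - detZ u x.1 := by
      simp only [detZ, Prod.fst_sub, Prod.snd_sub, Prod.smul_fst, Prod.smul_snd, smul_eq_mul]
      ring
    change detZ u x.2 < detZ u (b • x.2 - x.1)
    rw [h3]
    nlinarith

private theorem hjpr_next (u q : ℤ × ℤ) (b : ℤ) (h : detZ u q = 1) :
    detZ q (b • q - u) = 1 := by
  rw [← h]
  simp only [detZ, Prod.fst_sub, Prod.snd_sub, Prod.smul_fst, Prod.smul_snd, smul_eq_mul]
  ring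

private theorem hjpr_rec (u q w : ℤ × ℤ) (b : ℤ) :
    detZ u w = b * detZ q w - detZ (b • q - u) w := by
  simp only [detZ, Prod.fst_sub, Prod.snd_sub, Prod.smul_fst, Prod.smul_snd, smul_eq_mul]
  ring

/-- the second sequence of determinants -/
private theorem hjpr_dec (B : List ℤ) : (∀ b ∈ B, 2 ≤ b) → ∀ u q : ℤ × ℤ, detZ u q = 1 →
    0 ≤ detZ q (run B (u, q)).2 ∧ detZ q (run B (u, q)).2 < detZ u (run B (u, q)).2 := by
  induction B with
  | nil =>
    intro _ u q h
    change 0 ≤ detZ q q ∧ detZ q q < detZ u q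
    have h1 : detZ q q = 0 := by
      simp only [detZ]
      ring
    rw [h1, h]
    exact ⟨le_refl 0, one_pos⟩
  | cons b B ih =>
    intro hB u q h
    have hb : 2 ≤ b := hB b List.mem_cons_self
    obtain ⟨h1, h2⟩ := ih (fun c hc => hB c (List.mem_cons_of_mem b hc)) q (b • q - u)
      (hjpr_next u q b h)
    rw [run]
    change 0 ≤ detZ q (run B (q, b • q - u)).2 ∧
      detZ q (run B (q, b • q - u)).2 < detZ u (run B (q, b • q - u)).2
    have h3 := hjpr_rec u q (run B (q, b • q - u)).2 b
    refine ⟨by omega, ?_⟩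
    rw [h3]
    nlinarith

/-- one -/
private theorem hjpr_one (B : List ℤ) (hB : ∀ b ∈ B, 2 ≤ b) (u q : ℤ × ℤ) (h : detZ u q = 1) :
    B = [] ↔ detZ u (run B (u, q)).2 = 1 := by
  refine ⟨fun h1 => by rw [h1]; exact h, fun h1 => ?_⟩
  cases B with
  | nil => rfl
  | cons b B =>
    exfalso
    obtain ⟨h2, h3⟩ := hjpr_dec (b :: B) hB u q h
    obtain ⟨h4, h5⟩ := hjpr_dec B (fun c hc => hB c (List.mem_cons_of_mem b hc)) q (b • q - u)
      (hjpr_next u q b h)
    rw [run] at h1 h2 h3
    change detZ u (run B (q, b • q - u)).2 = 1 at h1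
    change 0 ≤ detZ q (run B (q, b • q - u)).2 at h2
    change detZ q (run B (q, b • q - u)).2 < detZ u (run B (q, b • q - u)).2 at h3
    omega

/-- all entries are two: one direction -/
private theorem hjpr_two (B : List ℤ) : (∀ b ∈ B, b = 2) → ∀ u q : ℤ × ℤ, detZ u q = 1 →
    u - (run B (u, q)).2 = detZ u (run B (u, q)).2 • (u - q) := by
  induction B with
  | nil =>
    intro _ u q h
    change u - q = detZ u q • (u - q)
    rw [h, one_smul]
  | cons b B ih =>
    intro hB u q h
    have hb : b = 2 := hB b List.mem_cons_self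
    have h1 := ih (fun c hc => hB c (List.mem_cons_of_mem b hc)) q (b • q - u)
      (hjpr_next u q b h)
    rw [run]
    change u - (run B (q, b • q - u)).2 = detZ u (run B (q, b • q - u)).2 • (u - q)
    generalize (run B (q, b • q - u)).2 = w at h1 ⊢
    subst hb
    have h2 := congrArg Prod.fst h1
    have h3 := congrArg Prod.snd h1
    simp only [Prod.fst_sub, Prod.snd_sub, Prod.smul_fst, Prod.smul_snd, smul_eq_mul] at h2 h3
    have h4 : detZ u w = 1 + detZ q w := by
      have h5 : u.1 * q.2 - u.2 * q.1 = 1 := h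
      have h6 : detZ u w = u.1 * w.2 - u.2 * w.1 := rfl
      rw [h6]
      linear_combination u.2 * h2 - u.1 * h3 + (1 + detZ q w) * h5
    rw [h4]
    refine Prod.ext ?_ ?_
    · simp only [Prod.fst_sub, Prod.smul_fst, smul_eq_mul]
      linear_combination h2
    · simp only [Prod.snd_sub, Prod.smul_snd, smul_eq_mul]
      linear_combination h3

/-- all entries are two: the other direction -/
private theorem hjpr_two' (B : List ℤ) : (∀ b ∈ B, 2 ≤ b) → ∀ u q : ℤ × ℤ, detZ u q = 1 →
    (∃ z : ℤ × ℤ, u - (run B (u, q)).2 = detZ u (run B (u, q)).2 • z) → ∀ b ∈ B, b = 2 := by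
  induction B with
  | nil =>
    intro _ u q _ _ b hb
    exact absurd hb List.not_mem_nil
  | cons b B ih =>
    rintro hB u q h ⟨z, hz⟩
    have hb : 2 ≤ b := hB b List.mem_cons_self
    have hB' : ∀ c ∈ B, 2 ≤ c := fun c hc => hB c (List.mem_cons_of_mem b hc)
    obtain ⟨h2, h3⟩ := hjpr_dec (b :: B) hB u q h
    obtain ⟨h4, h5⟩ := hjpr_dec B hB' q (b • q - u) (hjpr_next u q b h)
    have h6 := ih hB' q (b • q - u) (hjpr_next u q b h)
    rw [run] at hz h2 h3
    change u - (run B (q, b • q - u)).2 = detZ u (run B (q, b • q - u)).2 • z at hz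
    change 0 ≤ detZ q (run B (q, b • q - u)).2 at h2
    change detZ q (run B (q, b • q - u)).2 < detZ u (run B (q, b • q - u)).2 at h3
    have h7 := hjpr_rec u q (run B (q, b • q - u)).2 b
    generalize (run B (q, b • q - u)).2 = w at hz h2 h3 h4 h5 h6 h7
    have hz1 := congrArg Prod.fst hz
    have hz2 := congrArg Prod.snd hz
    simp only [Prod.fst_sub, Prod.snd_sub, Prod.smul_fst, Prod.smul_snd, smul_eq_mul] at hz1 hz2
    have hD : 0 < detZ u w := by omega
    have hD0 : detZ u w ≠ 0 := by omega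
    have hdu : detZ u w = u.1 * w.2 - u.2 * w.1 := rfl
    have hdq : detZ q w = q.1 * w.2 - q.2 * w.1 := rfl
    have hq : u.1 * q.2 - u.2 * q.1 = 1 := h
    have hz3 : u.1 * z.2 - u.2 * z.1 = -1 := by
      apply mul_left_cancel₀ hD0
      linear_combination u.2 * hz1 - u.1 * hz2 + hdu
    have hz4 : z.1 * w.2 - z.2 * w.1 = 1 := by
      apply mul_left_cancel₀ hD0
      linear_combination w.1 * hz2 - w.2 * hz1 - hdu
    -- `q + z = κ u`
    obtain ⟨κ, hκ⟩ : ∃ κ : ℤ, κ = z.1 * q.2 - z.2 * q.1 := ⟨_, rfl⟩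
    have e1 : q.1 + z.1 = κ * u.1 := by
      rw [hκ]
      linear_combination (-z.1) * hq + q.1 * hz3
    have e2 : q.2 + z.2 = κ * u.2 := by
      rw [hκ]
      linear_combination (-z.2) * hq + q.2 * hz3
    have e3 : detZ q w = κ * detZ u w - 1 := by
      rw [hdq, hdu]
      linear_combination w.2 * e1 - w.1 * e2 - hz4
    have hκ1 : κ = 1 := by
      rw [e3] at h2 h3
      have h8 : 0 < κ := by
        by_contra h9
        have h10 : κ ≤ 0 := by omega
        nlinarith
      have h9 : κ < 2 := by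
        by_contra h10
        have h11 : 2 ≤ κ := by omega
        nlinarith
      omega
    subst hκ1
    rw [one_mul] at e1 e2 e3
    have hb2 : b = 2 := by
      rw [e3] at h5 h7
      have h8 : 1 ≤ detZ u w - 1 := by omega
      have h9 : b < 3 := by
        by_contra h10
        have h11 : 3 ≤ b := by omega
        nlinarith
      omega
    intro c hc
    rcases List.mem_cons.1 hc with hc | hc
    · rw [hc, hb2]
    · refine h6 ⟨z, ?_⟩ c hc
      rw [e3]
      refine Prod.ext ?_ ?_
      · simp only [Prod.fst_sub, Prod.smul_fst, smul_eq_mul]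
        linear_combination hz1 + e1
      · simp only [Prod.snd_sub, Prod.smul_snd, smul_eq_mul]
        linear_combination hz2 + e2

/-- Properties of the Hirzebruch-Jung recursion. -/
theorem hjpr : S_HJpr := by
  intro u q p w B h hB hr
  have hp : (run B (u, q)).1 = p := by rw [hr]
  have hw : (run B (u, q)).2 = w := by rw [hr]
  have huu : detZ u u = 0 := by
    simp only [detZ]
    ring
  refine ⟨?_, ?_, ?_, ?_, ?_⟩
  · rw [← hp, ← hw, hjpr_inv]
    exact h
  · have h1 := hjpr_inc u B hB (u, q) (by change 0 ≤ detZ u u; omega)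
      (by change detZ u u < detZ u q; omega)
    rw [hp, hw] at h1
    exact h1
  · have h1 := hjpr_dec B hB u q h
    rw [hw] at h1
    exact h1
  · have h1 := hjpr_one B hB u q h
    rw [hw] at h1
    exact h1
  · refine ⟨fun h1 => ⟨u - q, ?_⟩, fun h1 => ?_⟩
    · have h2 := hjpr_two B h1 u q h
      rw [hw] at h2
      exact h2
    · refine hjpr_two' B hB u q h ?_
      rw [hw]
      exact h1

end Pool.Agent.Lib.MP_2d08ba_nt.Word
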