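import Pool.Agent.Lib.MP_2d08ba_nt.Word.SpecH

set_option autoImplicit false

namespace Pool.Agent.Lib.MP_2d08ba_nt.Word

open Pool.Agent.Lib.MP_2d08ba_nt

private theorem hjun_par (u x q : ℤ × ℤ) (h : detZ u q = 1) (h0 : detZ u x = 0) :
    x = (detZ x q) • u := by
  unfold detZ at *
  ext
  · simp only [Prod.smul_fst, smul_eq_mul]
    linear_combination (-x.1) * h + q.1 * h0
  · simp only [Prod.smul_snd, smul_eq_mul]
    linear_combination (-x.2) * h + q.2 * h0

private theorem hjun_q (h1 : S_HJpr) (u q q' w : ℤ × ℤ) (B B' : List ℤ) (hq : detZ u q = 1)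
    (hq' : detZ u q' = 1) (hB : ∀ b ∈ B, 2 ≤ b) (hB' : ∀ b ∈ B', 2 ≤ b)
    (hr : (run B (u, q)).2 = w) (hr' : (run B' (u, q')).2 = w) : q = q' := by
  have a1 := (h1 u q (run B (u, q)).1 w B hq hB (by rw [← hr])).2.2.1
  have a2 := (h1 u q' (run B' (u, q')).1 w B' hq' hB' (by rw [← hr'])).2.2.1
  have e0 : detZ u (q' - q) = 0 := by rw [detZ_sub_right, hq, hq', sub_self]
  have e1 := hjun_par u (q' - q) q hq e0
  generalize detZ (q' - q) q = k at e1
  have e2 : detZ q' w = detZ q w + k * detZ u w := by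
    have e3 : q' = q + k • u := by rw [← e1]; abel
    rw [e3]
    unfold detZ
    simp only [Prod.fst_add, Prod.snd_add, Prod.smul_fst, Prod.smul_snd, smul_eq_mul]
    ring
  have hk : k = 0 := by
    by_contra hk
    rcases lt_or_gt_of_ne hk with hk | hk
    · nlinarith [a1.1, a1.2, a2.1, a2.2]
    · nlinarith [a1.1, a1.2, a2.1, a2.2]
  rw [hk, zero_smul] at e1
  exact (sub_eq_zero.mp e1).symm

private theorem hjun_ne {u q : ℤ × ℤ} (h : detZ u q = 1) : q ≠ 0 := by
  rintro rfl
  unfold detZ at h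
  simp at h

theorem hjun (h1 : S_HJpr) : S_HJun := by
  intro u q q' w B
  induction B generalizing u q q' with
  | nil =>
    intro B' hq hq' hB hB' hr hr'
    have hqq := hjun_q h1 u q q' w [] B' hq hq' hB hB' hr hr'
    refine ⟨hqq, ?_⟩
    have e1 := (h1 u q (run [] (u, q)).1 w [] hq hB (by rw [← hr])).2.2.2.1.1 rfl
    exact ((h1 u q' (run B' (u, q')).1 w B' hq' hB' (by rw [← hr'])).2.2.2.1.2 e1).symm
  | cons b B ih =>
    intro B' hq hq' hB hB' hr hr'
    have hqq := hjun_q h1 u q q' w (b :: B) B' hq hq' hB hB' hr hr'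
    refine ⟨hqq, ?_⟩
    cases B' with
    | nil =>
      have e1 := (h1 u q' (run [] (u, q')).1 w [] hq' hB' (by rw [← hr'])).2.2.2.1.1 rfl
      exact (h1 u q (run (b :: B) (u, q)).1 w (b :: B) hq hB (by rw [← hr])).2.2.2.1.2 e1
    | cons b' B' =>
      subst hqq
      have d : ∀ c : ℤ, detZ q (c • q - u) = 1 := fun c => by
        rw [detZ_sub_right, detZ_smul_right, detZ_self, detZ_anti q u, hq]; ring
      obtain ⟨e1, e2⟩ := ih q (b • q - u) (b' • q - u) B' (d b) (d b')
        (fun c hc => hB c (List.mem_cons_of_mem _ hc))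
        (fun c hc => hB' c (List.mem_cons_of_mem _ hc)) hr hr'
      have e3 : (b - b') • q = 0 := by rw [sub_smul]; exact sub_eq_zero.mpr (sub_left_injective e1)
      rcases smul_eq_zero.mp e3 with e4 | e4
      · rw [e2, sub_eq_zero.mp e4]
      · exact absurd e4 (hjun_ne hq)

end Pool.Agent.Lib.MP_2d08ba_nt.Word
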