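import Pool.Agent.Lib.MP_2d08ba_nt.Word.SpecH

set_option autoImplicit false

/-! The list of the integer polygons, part A: half turns of a closed sequence of integer vectors with
consecutive determinants one, and the sum of the numbers `3 - d`. -/

namespace Pool.Agent.Lib.MP_2d08ba_nt.Word

open Pool.Agent.Lib.MP_2d08ba_nt

/-- The vector is in the open upper half plane or on the positive half of the first axis. -/
def Up (x : ℤ × ℤ) : Prop := 0 < x.2 ∨ (x.2 = 0 ∧ 0 < x.1)

theorem up_add {x y : ℤ × ℤ} (hx : Up x) (hy : Up y) : Up (x + y) := by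
  unfold Up at *
  simp only [Prod.fst_add, Prod.snd_add]
  omega

theorem not_up_add {x y : ℤ × ℤ} (hx : ¬ Up x) (hy : ¬ Up y) : ¬ Up (x + y) := by
  unfold Up at *
  simp only [Prod.fst_add, Prod.snd_add]
  omega

theorem up_neg {x : ℤ × ℤ} (hx : x ≠ 0) : Up (-x) ↔ ¬ Up x := by
  have h : x.1 ≠ 0 ∨ x.2 ≠ 0 := by
    by_contra hc
    push Not at hc
    exact hx (Prod.ext hc.1 hc.2)
  unfold Up
  simp only [Prod.fst_neg, Prod.snd_neg]
  omega

open Classical in
/-- `1` if exactly one of the two vectors is in the half plane. -/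
noncomputable def cr (x y : ℤ × ℤ) : ℤ := if (Up x ↔ Up y) then 0 else 1

theorem cr_of {x y : ℤ × ℤ} (h : Up x ↔ Up y) : cr x y = 0 := if_pos h

theorem cr_of_not {x y : ℤ × ℤ} (h : ¬ (Up x ↔ Up y)) : cr x y = 1 := if_neg h

theorem cr_comm (x y : ℤ × ℤ) : cr x y = cr y x := by
  by_cases h : (Up x ↔ Up y)
  · rw [cr_of h, cr_of h.symm]
  · rw [cr_of_not h, cr_of_not (fun h' => h h'.symm)]

theorem cr_neg_right {x y : ℤ × ℤ} (hy : y ≠ 0) : cr x (-y) = 1 - cr x y := by
  have h1 := up_neg hy
  by_cases hx : Up x <;> by_cases h : Up y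
  · rw [cr_of (iff_of_true hx h), cr_of_not (fun h' => (h1.1 (h'.1 hx)) h)]
    norm_num
  · rw [cr_of_not (fun h' => h (h'.1 hx)), cr_of (iff_of_true hx (h1.2 h))]
    norm_num
  · rw [cr_of_not (fun h' => hx (h'.2 h)), cr_of (iff_of_false hx (fun h' => h1.1 h' h))]
    norm_num
  · rw [cr_of (iff_of_false hx h), cr_of_not (fun h' => hx (h'.2 (h1.2 h)))]
    norm_num

theorem cr_neg_left {x y : ℤ × ℤ} (hx : x ≠ 0) : cr (-x) y = 1 - cr x y := by
  rw [cr_comm, cr_neg_right hx, cr_comm]

theorem cr_neg_neg {x y : ℤ × ℤ} (hx : x ≠ 0) (hy : y ≠ 0) : cr (-x) (-y) = cr x y := by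
  rw [cr_neg_left hx, cr_neg_right hy]
  ring

/-- a vector between -/
theorem cr_between {x y z : ℤ × ℤ} (h1 : Up x → Up y → Up z) (h2 : ¬ Up x → ¬ Up y → ¬ Up z) :
    cr x z + cr z y = cr x y := by
  by_cases hx : Up x <;> by_cases hy : Up y <;> by_cases hz : Up z
  · rw [cr_of (iff_of_true hx hz), cr_of (iff_of_true hz hy), cr_of (iff_of_true hx hy)]
    norm_num
  · exact absurd (h1 hx hy) hz
  · rw [cr_of (iff_of_true hx hz), cr_of_not (fun h => hy (h.1 hz)),
      cr_of_not (fun h => hy (h.1 hx))]
    norm_num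
  · rw [cr_of_not (fun h => hz (h.1 hx)), cr_of (iff_of_false hz hy),
      cr_of_not (fun h => hy (h.1 hx))]
    norm_num
  · rw [cr_of_not (fun h => hx (h.2 hz)), cr_of (iff_of_true hz hy),
      cr_of_not (fun h => hx (h.2 hy))]
    norm_num
  · rw [cr_of (iff_of_false hx hz), cr_of_not (fun h => hz (h.2 hy)),
      cr_of_not (fun h => hx (h.2 hy))]
    norm_num
  · exact absurd hz (h2 hx hy)
  · rw [cr_of (iff_of_false hx hz), cr_of (iff_of_false hz hy), cr_of (iff_of_false hx hy)]
    norm_num

theorem cr_add (x y : ℤ × ℤ) : cr x (x + y) + cr (x + y) y = cr x y :=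
  cr_between up_add not_up_add

/-- The number of half turns along the recursion. -/
noncomputable def tc : List ℤ → (ℤ × ℤ) × (ℤ × ℤ) → ℤ
  | [], _ => 0
  | b :: B, x => cr x.2 (b • x.2 - x.1) + tc B (x.2, b • x.2 - x.1)

theorem run_cons (b : ℤ) (B : List ℤ) (x y : ℤ × ℤ) :
    run (b :: B) (x, y) = run B (y, b • y - x) := rfl

theorem tc_cons (b : ℤ) (B : List ℤ) (x y : ℤ × ℤ) :
    tc (b :: B) (x, y) = cr y (b • y - x) + tc B (y, b • y - x) := rfl

theorem tc_nil (s : (ℤ × ℤ) × (ℤ × ℤ)) : tc [] s = 0 := rfl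

theorem run_append (P Q : List ℤ) (s : (ℤ × ℤ) × (ℤ × ℤ)) : run (P ++ Q) s = run Q (run P s) := by
  induction P generalizing s with
  | nil => rfl
  | cons b P ih => exact ih _

theorem tc_append (P Q : List ℤ) (s : (ℤ × ℤ) × (ℤ × ℤ)) :
    tc (P ++ Q) s = tc P s + tc Q (run P s) := by
  induction P generalizing s with
  | nil =>
    rw [List.nil_append, tc_nil, zero_add]
    rfl
  | cons b P ih =>
    have h := ih (s.2, b • s.2 - s.1)
    show cr s.2 (b • s.2 - s.1) + tc (P ++ Q) (s.2, b • s.2 - s.1) = _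
    rw [h, ← add_assoc]
    rfl

theorem det_run (B : List ℤ) (s : (ℤ × ℤ) × (ℤ × ℤ)) :
    detZ (run B s).1 (run B s).2 = detZ s.1 s.2 := by
  induction B generalizing s with
  | nil => rfl
  | cons b B ih =>
    have h := ih (s.2, b • s.2 - s.1)
    show detZ (run B (s.2, b • s.2 - s.1)).1 (run B (s.2, b • s.2 - s.1)).2 = _
    rw [h]
    unfold detZ
    simp only [Prod.fst_sub, Prod.snd_sub, Prod.smul_fst, Prod.smul_snd, smul_eq_mul]
    ring

theorem det_step {x y : ℤ × ℤ} (h : detZ x y = 1) (b : ℤ) : detZ y (b • y - x) = 1 := by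
  rw [← h]
  unfold detZ
  simp only [Prod.fst_sub, Prod.snd_sub, Prod.smul_fst, Prod.smul_snd, smul_eq_mul]
  ring

theorem ne_zero_of_det {x y : ℤ × ℤ} (h : detZ x y = 1) : x ≠ 0 ∧ y ≠ 0 := by
  constructor <;>
  · rintro rfl
    simp [detZ] at h

theorem run_neg (B : List ℤ) (x y : ℤ × ℤ) :
    run B (-x, -y) = (-(run B (x, y)).1, -(run B (x, y)).2) := by
  induction B generalizing x y with
  | nil => rfl
  | cons b B ih =>
    rw [run_cons, run_cons]
    have e : b • -y - -x = -(b • y - x) := by
      rw [smul_neg]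
      abel
    rw [e, ih]

theorem tc_neg (B : List ℤ) (x y : ℤ × ℤ) (h : detZ x y = 1) : tc B (-x, -y) = tc B (x, y) := by
  induction B generalizing x y with
  | nil => rfl
  | cons b B ih =>
    rw [tc_cons, tc_cons]
    have e : b • -y - -x = -(b • y - x) := by
      rw [smul_neg]
      abel
    have h2 := det_step h b
    rw [e, ih _ _ h2, cr_neg_neg (ne_zero_of_det h2).1 (ne_zero_of_det h2).2]

/-- the sum of the numbers `3 - d` -/
def sm (B : List ℤ) : ℤ := (B.map (fun b => 3 - b)).sum

theorem sm_append (P Q : List ℤ) : sm (P ++ Q) = sm P + sm Q := by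
  unfold sm
  rw [List.map_append, List.sum_append]

theorem sm_cons (b : ℤ) (Q : List ℤ) : sm (b :: Q) = 3 - b + sm Q := by
  unfold sm
  rw [List.map_cons, List.sum_cons]

theorem sm_nil : sm [] = 0 := rfl

/-! ### The three moves -/

theorem move_one (a b : ℤ) (Q : List ℤ) (x y : ℤ × ℤ) (h : detZ x y = 1) :
    run (a :: 1 :: b :: Q) (x, y) = run ((a - 1) :: (b - 1) :: Q) (x, y) ∧
      tc (a :: 1 :: b :: Q) (x, y) = tc ((a - 1) :: (b - 1) :: Q) (x, y) := by
  have h1 := det_step h a
  have h2 := det_step h1 1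
  have e1 : (a - 1) • y - x = (1 : ℤ) • (a • y - x) - y := by
    rw [sub_smul, one_smul, one_smul]
    abel
  have e2 : (b - 1) • ((1 : ℤ) • (a • y - x) - y) - y =
      b • ((1 : ℤ) • (a • y - x) - y) - (a • y - x) := by
    rw [sub_smul, one_smul, one_smul]
    abel
  constructor
  · rw [run_cons, run_cons, run_cons, run_cons, run_cons, e1, e2]
  · rw [tc_cons, tc_cons, tc_cons, tc_cons, tc_cons, e1, e2]
    have e3 : a • y - x = y + ((1 : ℤ) • (a • y - x) - y) := by
      rw [one_smul]
      abel
    have h3 := cr_add y ((1 : ℤ) • (a • y - x) - y)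
    rw [← e3] at h3
    rw [← h3]
    ring

theorem move_zero (a b : ℤ) (Q : List ℤ) (x y : ℤ × ℤ) (h : detZ x y = 1) :
    run (a :: 0 :: b :: Q) (x, y) = (-(run ((a + b) :: Q) (x, y)).1,
      -(run ((a + b) :: Q) (x, y)).2) ∧
      tc (a :: 0 :: b :: Q) (x, y) = tc ((a + b) :: Q) (x, y) + 1 := by
  have h1 := det_step h a
  have h3 := det_step h (a + b)
  have e1 : (0 : ℤ) • (a • y - x) - y = -y := by
    rw [zero_smul, zero_sub]
  have e2 : b • -y - (a • y - x) = -((a + b) • y - x) := by
    rw [add_smul, smul_neg]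
    abel
  constructor
  · rw [run_cons, run_cons, run_cons, run_cons, e1, e2, run_neg]
  · rw [tc_cons, tc_cons, tc_cons, tc_cons, e1, e2, tc_neg _ _ _ h3,
      cr_neg_neg (ne_zero_of_det h3).1 (ne_zero_of_det h3).2,
      cr_neg_right (ne_zero_of_det h).2, cr_comm (a • y - x) y]
    ring

theorem move_neg (a b : ℤ) (Q : List ℤ) (x y : ℤ × ℤ) (h : detZ x y = 1) :
    run (a :: (-1) :: b :: Q) (x, y) = (-(run ((a + 1) :: (b + 1) :: Q) (x, y)).1,
      -(run ((a + 1) :: (b + 1) :: Q) (x, y)).2) ∧
      tc (a :: (-1) :: b :: Q) (x, y) = tc ((a + 1) :: (b + 1) :: Q) (x, y) + 1 := by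
  have h1 := det_step h a
  have h3 := det_step h (a + 1)
  have h4 := det_step h3 (b + 1)
  have e1 : (-1 : ℤ) • (a • y - x) - y = -((a + 1) • y - x) := by
    rw [add_smul, neg_smul, one_smul, one_smul]
    abel
  have e2 : b • -((a + 1) • y - x) - (a • y - x) = -((b + 1) • ((a + 1) • y - x) - y) := by
    rw [add_smul b 1 ((a + 1) • y - x), smul_neg, one_smul, add_smul a 1 y, one_smul]
    abel
  constructor
  · rw [run_cons, run_cons, run_cons, run_cons, run_cons, e1, e2, run_neg]
  · rw [tc_cons, tc_cons, tc_cons, tc_cons, tc_cons, e1, e2, tc_neg _ _ _ h4,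
      cr_neg_neg (ne_zero_of_det h4).1 (ne_zero_of_det h4).2,
      cr_neg_right (ne_zero_of_det h3).2]
    have e3 : (a + 1) • y - x = y + (a • y - x) := by
      rw [add_smul, one_smul]
      abel
    have h5 := cr_add y (a • y - x)
    rw [← e3] at h5
    rw [cr_comm ((a + 1) • y - x) (a • y - x)] at h5
    linarith

/-! ### Growth -/

theorem growth (X : List ℤ) (hX : ∀ b ∈ X, 2 ≤ |b|) (f : (ℤ × ℤ) →+ ℤ) (x y : ℤ × ℤ)
    (h : |f x| < |f y|) :
    |f (run X (x, y)).1| < |f (run X (x, y)).2| ∧ |f y| ≤ |f (run X (x, y)).2| ∧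
      (X ≠ [] → |f y| < |f (run X (x, y)).2|) := by
  induction X generalizing x y with
  | nil => exact ⟨h, le_refl _, fun h => absurd rfl h⟩
  | cons b X ih =>
    have hb : 2 ≤ |b| := hX b (List.mem_cons_self)
    have e : f (b • y - x) = b * f y - f x := by
      rw [map_sub, map_zsmul, smul_eq_mul]
    have h1 : |f y| < |f (b • y - x)| := by
      rw [e]
      have h2 : |b * f y| - |f x| ≤ |b * f y - f x| := abs_sub_abs_le_abs_sub _ _
      rw [abs_mul] at h2
      have h3 : 2 * |f y| ≤ |b| * |f y| := mul_le_mul_of_nonneg_right hb (abs_nonneg _)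
      linarith
    obtain ⟨a1, a2, a3⟩ := ih (fun c hc => hX c (List.mem_cons_of_mem _ hc)) _ _ h1
    rw [run_cons]
    exact ⟨a1, (h1.le.trans a2), fun _ => lt_of_lt_of_le h1 a2⟩

/-- A closed sequence of length at least three has an inner coefficient `0`, `1` or `-1`. -/
theorem inner (d1 dN : ℤ) (X : List ℤ) (hX : X ≠ []) (x y : ℤ × ℤ) (h : detZ x y = 1)
    (hc : run (d1 :: (X ++ [dN])) (x, y) = (x, y) ∨ run (d1 :: (X ++ [dN])) (x, y) = (-x, -y)) :
    ∃ d ∈ X, |d| ≤ 1 := by
  by_contra hcon
  push Not at hcon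
  have hX2 : ∀ b ∈ X, 2 ≤ |b| := fun b hb => by
    have := hcon b hb
    omega
  let f : (ℤ × ℤ) →+ ℤ :=
    { toFun := fun z => detZ y z
      map_zero' := by simp [detZ]
      map_add' := fun z w => detZ_add_right y z w }
  have hf : ∀ z, f z = detZ y z := fun _ => rfl
  have f1 : f y = 0 := by rw [hf, detZ_self]
  have f2 : f (d1 • y - x) = 1 := by rw [hf, det_step h]
  obtain ⟨-, -, a3⟩ := growth X hX2 f y (d1 • y - x) (by rw [f1, f2]; norm_num)
  have a4 := a3 hX
  rw [f2] at a4
  rw [run_cons, run_append] at hc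
  set s := run X (y, d1 • y - x) with hs
  have e : run [dN] s = (s.2, dN • s.2 - s.1) := rfl
  rw [e] at hc
  have h5 : s.2 = x ∨ s.2 = -x := by
    rcases hc with hc | hc
    · exact Or.inl (congrArg Prod.fst hc)
    · exact Or.inr (congrArg Prod.fst hc)
  have h6 : |f s.2| = 1 := by
    have h7 : f x = -1 := by rw [hf, detZ_anti, h]
    rcases h5 with h5 | h5
    · rw [h5, h7]
      norm_num
    · rw [h5, map_neg, h7]
      norm_num
  rw [h6] at a4
  norm_num at a4

/-- **Half turns.** For a sequence which closes up to sign the sum of the numbers `3 - d` is six times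
the number of half turns. -/
theorem noether (N : ℕ) : ∀ L : List ℤ, L.length ≤ N → ∀ x y : ℤ × ℤ, detZ x y = 1 →
    (run L (x, y) = (x, y) ∨ run L (x, y) = (-x, -y)) → sm L = 6 * tc L (x, y) := by
  induction N with
  | zero =>
    intro L hL x y _ _
    have : L = [] := List.length_eq_zero_iff.1 (Nat.le_zero.1 hL)
    subst this
    rw [sm_nil, tc_nil]
    norm_num
  | succ N ih =>
    intro L hL x y h hc
    obtain ⟨hx, hy⟩ := ne_zero_of_det h
    match L with
    | [] =>
      rw [sm_nil, tc_nil]
      norm_num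
    | [d] =>
      exfalso
      have e : run [d] (x, y) = (y, d • y - x) := rfl
      rw [e] at hc
      rcases hc with hc | hc
      · have h1 : y = x := congrArg Prod.fst hc
        rw [h1, detZ_self] at h
        norm_num at h
      · have h1 : y = -x := congrArg Prod.fst hc
        rw [h1] at h
        simp only [detZ, Prod.fst_neg, Prod.snd_neg] at h
        have : (0 : ℤ) = 1 := by linear_combination h
        norm_num at this
    | [d, e] =>
      have e1 : run [d, e] (x, y) = (d • y - x, e • (d • y - x) - y) := rfl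
      rw [e1] at hc
      rcases hc with hc | hc
      · exfalso
        have h1 : d • y - x = x := congrArg Prod.fst hc
        have h2 : detZ x (d • y - x) = 0 := by rw [h1, detZ_self]
        rw [detZ_sub_right, detZ_smul_right, detZ_self, h] at h2
        have hd : d = 0 := by linarith
        rw [hd, zero_smul, zero_sub] at h1
        apply hx
        have h3 : x.1 = 0 := by
          have := congrArg Prod.fst h1
          simp only [Prod.fst_neg] at this
          omega
        have h4 : x.2 = 0 := by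
          have := congrArg Prod.snd h1
          simp only [Prod.snd_neg] at this
          omega
        exact Prod.ext h3 h4
      · have h1 : d • y - x = -x := congrArg Prod.fst hc
        have h2 : detZ x (d • y - x) = detZ x (-x) := by rw [h1]
        have h2' : detZ x (-x) = 0 := by
          simp only [detZ, Prod.fst_neg, Prod.snd_neg]
          ring
        rw [h2', detZ_sub_right, detZ_smul_right, detZ_self, h] at h2
        have hd : d = 0 := by linarith
        subst hd
        have h3 : e • ((0 : ℤ) • y - x) - y = -y := congrArg Prod.snd hc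
        rw [zero_smul, zero_sub] at h3
        have h4 : e • -x = 0 := by
          have := congrArg (fun z => z + y) h3
          simpa using this
        have he : e = 0 := by
          rcases smul_eq_zero.1 h4 with h5 | h5
          · exact h5
          · exact absurd (neg_eq_zero.1 h5) hx
        subst he
        rw [sm_cons, sm_cons, sm_nil, tc_cons, tc_cons, tc_nil]
        have e2 : (0 : ℤ) • y - x = -x := by rw [zero_smul, zero_sub]
        rw [e2]
        have e3 : (0 : ℤ) • -x - y = -y := by rw [zero_smul, zero_sub]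
        rw [e3, cr_neg_neg hx hy, cr_neg_right hx, cr_comm x y]
        ring
    | d1 :: d2 :: d3 :: Q0 =>
      -- split off the last coefficient
      obtain ⟨X0, dN, hXN⟩ : ∃ (X0 : List ℤ) (dN : ℤ), d3 :: Q0 = X0 ++ [dN] := by
        rcases List.eq_nil_or_concat (d3 :: Q0) with h0 | ⟨X0, dN, h0⟩
        · exact absurd h0 (List.cons_ne_nil _ _)
        · exact ⟨X0, dN, by rw [h0, List.concat_eq_append]⟩
      have hL2 : d1 :: d2 :: d3 :: Q0 = d1 :: ((d2 :: X0) ++ [dN]) := by
        rw [hXN]
        rfl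
      rw [hL2] at hc
      obtain ⟨d, hd, hd1⟩ := inner d1 dN (d2 :: X0) (List.cons_ne_nil _ _) x y h hc
      obtain ⟨X1, X2, hX⟩ := List.append_of_mem hd
      obtain ⟨P, a, hP⟩ : ∃ (P : List ℤ) (a : ℤ), d1 :: X1 = P ++ [a] := by
        rcases List.eq_nil_or_concat (d1 :: X1) with h0 | ⟨P, a, h0⟩
        · exact absurd h0 (List.cons_ne_nil _ _)
        · exact ⟨P, a, by rw [h0, List.concat_eq_append]⟩
      obtain ⟨b, Q, hQ⟩ : ∃ (b : ℤ) (Q : List ℤ), X2 ++ [dN] = b :: Q := by
        rcases h0 : X2 ++ [dN] with _ | ⟨b, Q⟩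
        · simp at h0
        · exact ⟨b, Q, rfl⟩
      have hL3 : d1 :: d2 :: d3 :: Q0 = P ++ (a :: d :: b :: Q) := by
        rw [hL2, hX]
        have : d1 :: ((X1 ++ d :: X2) ++ [dN]) = (d1 :: X1) ++ (d :: (X2 ++ [dN])) := by
          simp
        rw [this, hP, hQ]
        simp
      rw [← hL2] at hc
      rw [hL3] at hc hL ⊢
      set s := run P (x, y) with hs
      have hsd : detZ s.1 s.2 = 1 := by rw [hs, det_run]; exact h
      have hs2 : s = (s.1, s.2) := rfl
      rw [List.length_append, List.length_cons, List.length_cons, List.length_cons] at hL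
      have key : ∀ (R : List ℤ) (ε : ℤ), (ε = 1 ∨ ε = 0) →
          run (a :: d :: b :: Q) s = (if ε = 0 then run R s else (-(run R s).1, -(run R s).2)) →
          tc (a :: d :: b :: Q) s = tc R s + ε →
          sm (a :: d :: b :: Q) = sm R + 6 * ε → R.length ≤ Q.length + 2 →
          sm (P ++ (a :: d :: b :: Q)) = 6 * tc (P ++ (a :: d :: b :: Q)) (x, y) := by
        intro R ε hε e1 e2 e3 e4
        have hlen : (P ++ R).length ≤ N := by
          rw [List.length_append]
          omega
        have hcl : run (P ++ R) (x, y) = (x, y) ∨ run (P ++ R) (x, y) = (-x, -y) := by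
          rw [run_append, ← hs] at hc ⊢
          rcases hε with rfl | rfl
          · rw [e1, if_neg one_ne_zero] at hc
            rcases hc with hc | hc
            · right
              have c1 := congrArg Prod.fst hc
              have c2 := congrArg Prod.snd hc
              simp only at c1 c2
              exact Prod.ext (by rw [← c1, neg_neg]) (by rw [← c2, neg_neg])
            · left
              have c1 := congrArg Prod.fst hc
              have c2 := congrArg Prod.snd hc
              simp only at c1 c2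
              exact Prod.ext (neg_injective c1) (neg_injective c2)
          · rw [e1, if_pos rfl] at hc
            exact hc
        have h5 := ih (P ++ R) hlen x y h hcl
        rw [sm_append, tc_append, ← hs] at h5 ⊢
        rw [e2, e3]
        linarith
      have hd3 : d = 1 ∨ d = 0 ∨ d = -1 := by
        rw [abs_le] at hd1
        omega
      rcases hd3 with rfl | rfl | rfl
      · obtain ⟨m1, m2⟩ := move_one a b Q s.1 s.2 hsd
        refine key ((a - 1) :: (b - 1) :: Q) 0 (Or.inr rfl) (by rw [if_pos rfl]; exact m1)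
          (by rw [add_zero]; exact m2) ?_ (by simp)
        rw [sm_cons, sm_cons, sm_cons, sm_cons, sm_cons]
        ring
      · obtain ⟨m1, m2⟩ := move_zero a b Q s.1 s.2 hsd
        refine key ((a + b) :: Q) 1 (Or.inl rfl) (by rw [if_neg one_ne_zero]; exact m1) m2 ?_
          (by simp)
        rw [sm_cons, sm_cons, sm_cons, sm_cons]
        ring
      · obtain ⟨m1, m2⟩ := move_neg a b Q s.1 s.2 hsd
        refine key ((a + 1) :: (b + 1) :: Q) 1 (Or.inl rfl)
          (by rw [if_neg one_ne_zero]; exact m1) m2 ?_ (by simp)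
        rw [sm_cons, sm_cons, sm_cons, sm_cons, sm_cons]
        ring

/-- The half turns of a corner: with all coefficients at least two, only the two ends count. -/
theorem tc_corner (B : List ℤ) (hB : ∀ b ∈ B, 2 ≤ b) (hpr : S_HJpr) (u q : ℤ × ℤ)
    (h : detZ u q = 1) : cr u q + tc B (u, q) = cr u (run B (u, q)).2 := by
  induction B generalizing u q with
  | nil =>
    rw [tc_nil, add_zero]
    rfl
  | cons b B ih =>
    have hq := det_step h b
    have h1 := ih (fun c hc => hB c (List.mem_cons_of_mem _ hc)) q (b • q - u) hq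
    rw [tc_cons, run_cons, h1]
    set w := (run B (q, b • q - u)).2 with hw
    obtain ⟨p1, p2, p3, -, -⟩ := hpr u q (run B (q, b • q - u)).1 w (b :: B) h hB rfl
    -- `q` is in the cone spanned by `u` and `w`
    have hD : 0 < detZ u w := lt_of_le_of_lt p2.1 p2.2
    have e : detZ u w • q = detZ q w • u + w := by
      have h2 := h
      unfold detZ at h2 ⊢
      apply Prod.ext
      · simp only [Prod.smul_fst, Prod.fst_add, smul_eq_mul]
        linear_combination w.1 * h2
      · simp only [Prod.smul_snd, Prod.snd_add, smul_eq_mul]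
        linear_combination w.2 * h2
    have hsc : ∀ z : ℤ × ℤ, ∀ k : ℤ, 0 < k → (Up (k • z) ↔ Up z) := by
      intro z k hk
      unfold Up
      simp only [Prod.smul_fst, Prod.smul_snd, smul_eq_mul]
      rw [mul_pos_iff_of_pos_left hk, mul_pos_iff_of_pos_left hk, mul_eq_zero]
      constructor
      · rintro (h | ⟨h | h, h'⟩)
        · exact Or.inl h
        · exact absurd h hk.ne'
        · exact Or.inr ⟨h, h'⟩
      · rintro (h | ⟨h, h'⟩)
        · exact Or.inl h
        · exact Or.inr ⟨Or.inr h, h'⟩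
    refine cr_between ?_ ?_
    · intro hu hw'
      rw [← hsc q _ hD, e]
      rcases eq_or_lt_of_le p3.1 with h0 | h0
      · rw [← h0, zero_smul, zero_add]
        exact hw'
      · exact up_add ((hsc u _ h0).2 hu) hw'
    · intro hu hw'
      rw [← hsc q _ hD, e]
      rcases eq_or_lt_of_le p3.1 with h0 | h0
      · rw [← h0, zero_smul, zero_add]
        exact hw'
      · exact not_up_add (fun h => hu ((hsc u _ h0).1 h)) hw'

end Pool.Agent.Lib.MP_2d08ba_nt.Word
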