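import Pool.Agent.Lib.MP_2d08ba_nt.Word.ListA

set_option autoImplicit false

/-! The list of the integer polygons, part B: a cyclic sequence of directions and lengths which closes
and turns once is a convex polygon. -/

namespace Pool.Agent.Lib.MP_2d08ba_nt.Word

open Pool.Agent.Lib.MP_2d08ba_nt

/-! ### Transitivity in the upper half plane -/

theorem up_trans {x y z : ℤ × ℤ} (hx : Up x) (hy : Up y) (hz : Up z) (h1 : 0 ≤ detZ x y)
    (h2 : 0 < detZ y z) : 0 < detZ x z := by
  have e : y.2 * detZ x z = z.2 * detZ x y + x.2 * detZ y z := by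
    unfold detZ; ring
  have hx2 : 0 ≤ x.2 := by unfold Up at hx; omega
  have hy2 : 0 ≤ y.2 := by unfold Up at hy; omega
  have hz2 : 0 ≤ z.2 := by unfold Up at hz; omega
  rcases eq_or_lt_of_le hy2 with h | h
  · -- `y` on the axis
    have hy1 : 0 < y.1 := by unfold Up at hy; omega
    unfold detZ at h1 h2 ⊢
    rw [← h] at h1 h2
    have hz3 : 0 < z.2 := by
      rcases eq_or_lt_of_le hz2 with h3 | h3
      · rw [← h3] at h2
        simp at h2
      · exact h3
    have hx3 : x.2 = 0 := by
      rcases eq_or_lt_of_le hx2 with h3 | h3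
      · exact h3.symm
      · have : 0 < x.2 * y.1 := mul_pos h3 hy1
        linarith
    have hx1 : 0 < x.1 := by unfold Up at hx; omega
    rw [hx3]
    have : 0 < x.1 * z.2 := mul_pos hx1 hz3
    linarith
  · have hz3 : 0 < z.2 := by
      rcases eq_or_lt_of_le hz2 with h3 | h3
      · have hz1 : 0 < z.1 := by unfold Up at hz; omega
        unfold detZ at h2
        rw [← h3] at h2
        have : 0 < y.2 * z.1 := mul_pos h hz1
        linarith
      · exact h3
    rcases eq_or_lt_of_le hx2 with h3 | h3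
    · have hx1 : 0 < x.1 := by unfold Up at hx; omega
      unfold detZ
      rw [← h3]
      have : 0 < x.1 * z.2 := mul_pos hx1 hz3
      linarith
    · have h4 : 0 ≤ z.2 * detZ x y := mul_nonneg hz2 h1
      have h5 : 0 < x.2 * detZ y z := mul_pos h3 h2
      have h6 : 0 < y.2 * detZ x z := by linarith
      exact (mul_pos_iff_of_pos_left h).1 h6

theorem up_trans' {x y z : ℤ × ℤ} (hx : Up x) (hy : Up y) (hz : Up z) (h1 : 0 < detZ x y)
    (h2 : 0 ≤ detZ y z) : 0 < detZ x z := by
  have e : y.2 * detZ x z = z.2 * detZ x y + x.2 * detZ y z := by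
    unfold detZ; ring
  have hx2 : 0 ≤ x.2 := by unfold Up at hx; omega
  have hy2 : 0 ≤ y.2 := by unfold Up at hy; omega
  have hz2 : 0 ≤ z.2 := by unfold Up at hz; omega
  have hy3 : 0 < y.2 := by
    rcases eq_or_lt_of_le hy2 with h | h
    · have hy1 : 0 < y.1 := by unfold Up at hy; omega
      unfold detZ at h1
      rw [← h] at h1
      have : 0 ≤ x.2 * y.1 := mul_nonneg hx2 hy1.le
      linarith
    · exact h
  have hz3 : 0 < z.2 := by
    rcases eq_or_lt_of_le hz2 with h3 | h3
    · have hz1 : 0 < z.1 := by unfold Up at hz; omega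
      unfold detZ at h2
      rw [← h3] at h2
      have : 0 < y.2 * z.1 := mul_pos hy3 hz1
      linarith
    · exact h3
  have h4 : 0 < z.2 * detZ x y := mul_pos hz3 h1
  have h5 : 0 ≤ x.2 * detZ y z := mul_nonneg hx2 h2
  have h6 : 0 < y.2 * detZ x z := by linarith
  exact (mul_pos_iff_of_pos_left hy3).1 h6

theorem detZ_neg_neg (x y : ℤ × ℤ) : detZ (-x) (-y) = detZ x y := by
  simp only [detZ, Prod.fst_neg, Prod.snd_neg]
  ring

theorem detZ_neg_left (x y : ℤ × ℤ) : detZ (-x) y = -detZ x y := by
  simp only [detZ, Prod.fst_neg, Prod.snd_neg]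
  ring

theorem detZ_neg_right (x y : ℤ × ℤ) : detZ x (-y) = -detZ x y := by
  simp only [detZ, Prod.fst_neg, Prod.snd_neg]
  ring

theorem detZ_ne {x y : ℤ × ℤ} (h : 0 < detZ x y) : x ≠ 0 ∧ y ≠ 0 := by
  constructor <;>
  · rintro rfl
    simp [detZ] at h

theorem cr_cases (x y : ℤ × ℤ) : cr x y = 0 ∨ cr x y = 1 := by
  by_cases h : (Up x ↔ Up y)
  · exact Or.inl (cr_of h)
  · exact Or.inr (cr_of_not h)

theorem cr_nonneg (x y : ℤ × ℤ) : 0 ≤ cr x y := by
  rcases cr_cases x y with h | h <;> rw [h] <;> norm_num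

theorem iff_of_cr {x y : ℤ × ℤ} (h : cr x y = 0) : Up x ↔ Up y := by
  by_contra h1
  rw [cr_of_not h1] at h
  norm_num at h

theorem not_iff_of_cr {x y : ℤ × ℤ} (h : cr x y = 1) : ¬ (Up x ↔ Up y) := by
  intro h1
  rw [cr_of h1] at h
  norm_num at h

/-! ### One full turn -/

/-- The signs of the determinants with the first vector, for a sequence turning once. -/
theorem turn_signs (n : ℕ) (w : ℕ → ℤ × ℤ) (hd : ∀ k, k < n → 0 < detZ (w k) (w (k + 1)))
    (hn : w n = w 0) (h2 : ∑ k ∈ Finset.range n, cr (w k) (w (k + 1)) = 2) (h0 : Up (w 0)) :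
    ∀ k, 1 ≤ k → k < n → detZ (w 0) (w k) ≤ 0 →
      detZ (w 0) (w (k + 1)) ≤ 0 := by
  obtain ⟨C, hC⟩ : ∃ C : ℕ → ℤ, C = fun m => ∑ k ∈ Finset.range m, cr (w k) (w (k + 1)) := ⟨_, rfl⟩
  have C0 : C 0 = 0 := by rw [hC]; simp
  have Cs : ∀ m, C (m + 1) = C m + cr (w m) (w (m + 1)) := by
    intro m
    rw [hC]
    simp only
    rw [Finset.sum_range_succ]
  have Cn : C n = 2 := by rw [hC]; exact h2
  have Cmono : ∀ m k, m ≤ k → C m ≤ C k := by
    intro m k hk
    induction k, hk using Nat.le_induction with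
    | base => exact le_refl _
    | succ k _ ih =>
      rw [Cs]
      have := cr_nonneg (w k) (w (k + 1))
      linarith
  have hup : ∀ m, (Up (w m) ↔ C m % 2 = 0) := by
    intro m
    induction m with
    | zero => rw [C0]; simpa using h0
    | succ m ih =>
      rw [Cs]
      rcases cr_cases (w m) (w (m + 1)) with h | h
      · rw [h, add_zero, ← iff_of_cr h]
        exact ih
      · rw [h]
        have h3 := not_iff_of_cr h
        by_cases h4 : Up (w m)
        · have h5 : ¬ Up (w (m + 1)) := fun h5 => h3 (iff_of_true h4 h5)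
          have h6 := ih.1 h4
          constructor
          · intro h7; exact absurd h7 h5
          · intro h7; omega
        · have h5 : Up (w (m + 1)) := by
            by_contra h5
            exact h3 (iff_of_false h4 h5)
          have h6 : ¬ C m % 2 = 0 := fun h6 => h4 (ih.2 h6)
          constructor
          · intro _; omega
          · intro _; exact h5
  -- first run
  have run0 : ∀ k, k < n → C (k + 1) = 0 → 0 ≤ detZ (w 0) (w k) ∧ 0 < detZ (w 0) (w (k + 1)) := by
    intro k
    induction k with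
    | zero =>
      intro h _
      rw [detZ_self]
      exact ⟨le_refl _, hd 0 h⟩
    | succ k ih =>
      intro h hc
      have hc1 : C (k + 1) = 0 := by
        have h3 := Cmono 0 (k + 1) (Nat.zero_le _)
        have h4 := Cmono (k + 1) (k + 1 + 1) (Nat.le_succ _)
        rw [C0] at h3
        omega
      obtain ⟨-, h5⟩ := ih (by omega) hc1
      refine ⟨h5.le, ?_⟩
      refine up_trans h0 ((hup (k + 1)).2 (by rw [hc1]; rfl)) ((hup (k + 1 + 1)).2 (by rw [hc]; rfl))
        h5.le (hd (k + 1) h)
  -- last run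
  have run2 : ∀ j, j < n → C (n - (j + 1)) = 2 → 0 < detZ (w (n - (j + 1))) (w 0) := by
    intro j
    induction j with
    | zero =>
      intro h _
      have h3 := hd (n - 1) (by omega)
      have h4 : n - 1 + 1 = n := by omega
      rw [h4, hn] at h3
      simpa using h3
    | succ j ih =>
      intro h hc
      have hc1 : C (n - (j + 1)) = 2 := by
        have h3 := Cmono (n - (j + 1 + 1)) (n - (j + 1)) (by omega)
        have h4 := Cmono (n - (j + 1)) n (by omega)
        rw [Cn] at h4
        omega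
      have h5 := ih (by omega) hc1
      have h6 := hd (n - (j + 1 + 1)) (by omega)
      have h7 : n - (j + 1 + 1) + 1 = n - (j + 1) := by omega
      rw [h7] at h6
      exact up_trans' ((hup _).2 (by rw [hc]; rfl)) ((hup _).2 (by rw [hc1]; rfl)) h0 h6 h5.le
  intro k hk1 hkn hle
  have hCk : C (k + 1) ≤ 2 := by
    have := Cmono (k + 1) n hkn
    omega
  have hCk0 : 1 ≤ C k := by
    by_contra h3
    have h4 := Cmono 0 k (Nat.zero_le _)
    rw [C0] at h4
    have h5 : C k = 0 := by omega
    obtain ⟨m, rfl⟩ : ∃ m, k = m + 1 := ⟨k - 1, by omega⟩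
    have h6 := (run0 m (by omega) h5).2
    omega
  have hCmk := Cmono k (k + 1) (Nat.le_succ _)
  rcases eq_or_lt_of_le hCk with h3 | h3
  · -- last run
    rcases Nat.lt_or_ge (k + 1) n with h4 | h4
    · have h5 := run2 (n - (k + 1) - 1) (by omega) (by
        have : n - (n - (k + 1) - 1 + 1) = k + 1 := by omega
        rw [this]; exact h3)
      have h6 : n - (n - (k + 1) - 1 + 1) = k + 1 := by omega
      rw [h6] at h5
      have h7 := detZ_anti (w 0) (w (k + 1))
      linarith
    · have h5 : k + 1 = n := by omega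
      rw [h5, hn, detZ_self]
  · have h4 : C (k + 1) = 1 := by omega
    have h5 : C k = 1 := by omega
    have h6 : ¬ Up (w k) := fun h => by
      have := (hup k).1 h
      omega
    have h7 : ¬ Up (w (k + 1)) := fun h => by
      have := (hup (k + 1)).1 h
      omega
    have h8 := hd k hkn
    obtain ⟨h9, h10⟩ := detZ_ne h8
    have h11 : Up (-(w k)) := (up_neg h9).2 h6
    have h12 : Up (-(w (k + 1))) := (up_neg h10).2 h7
    have h13 := up_trans h0 h11 h12 (by rw [detZ_neg_right]; linarith)
      (by rw [detZ_neg_neg]; exact h8)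
    rw [detZ_neg_right] at h13
    linarith

/-- The same without the condition on the first vector. -/
theorem turn_signs' (n : ℕ) (w : ℕ → ℤ × ℤ) (hd : ∀ k, k < n → 0 < detZ (w k) (w (k + 1)))
    (hn : w n = w 0) (hn1 : 1 ≤ n) (h2 : ∑ k ∈ Finset.range n, cr (w k) (w (k + 1)) = 2) :
    ∀ k, 1 ≤ k → k < n → detZ (w 0) (w k) ≤ 0 → detZ (w 0) (w (k + 1)) ≤ 0 := by
  by_cases h0 : Up (w 0)
  · exact turn_signs n w hd hn h2 h0
  · have hne : w 0 ≠ 0 := (detZ_ne (hd 0 (by omega))).1
    have h1 := turn_signs n (fun k => -(w k)) (fun k hk => by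
      rw [detZ_neg_neg]; exact hd k hk) (by simp only [hn]) (by
      rw [← h2]
      refine Finset.sum_congr rfl fun k hk => ?_
      obtain ⟨h3, h4⟩ := detZ_ne (hd k (Finset.mem_range.1 hk))
      exact cr_neg_neg h3 h4) ((up_neg hne).2 h0)
    intro k hk1 hk2 hk3
    have h3 := h1 k hk1 hk2 (by rw [detZ_neg_neg]; exact hk3)
    rw [detZ_neg_neg] at h3
    exact h3

/-- The partial sums are strictly on the left of the first edge. -/
theorem turn_pos (n : ℕ) (w : ℕ → ℤ × ℤ) (l : ℕ → ℤ) (hl : ∀ k, 1 ≤ l k)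
    (hd : ∀ k, k < n → 0 < detZ (w k) (w (k + 1)))
    (hn : w n = w 0) (h2 : ∑ k ∈ Finset.range n, cr (w k) (w (k + 1)) = 2)
    (hs : ∑ k ∈ Finset.range n, l k • w k = 0) :
    ∀ k, 2 ≤ k → k < n → 0 < detZ (w 0) (∑ j ∈ Finset.range k, l j • w j) := by
  intro k hk2 hkn
  have hsg := turn_signs' n w hd hn (by omega) h2
  obtain ⟨d, hdd⟩ : ∃ d : ℕ → ℤ, d = fun j => l j * detZ (w 0) (w j) := ⟨_, rfl⟩
  have hsum : ∀ m, detZ (w 0) (∑ j ∈ Finset.range m, l j • w j) = ∑ j ∈ Finset.range m, d j := by
    intro m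
    induction m with
    | zero => simp [detZ]
    | succ m ih =>
      rw [Finset.sum_range_succ, Finset.sum_range_succ, detZ_add_right, ih, detZ_smul_right, hdd]
  have hstay : ∀ j, 1 ≤ j → j < n → d j ≤ 0 → d (j + 1) ≤ 0 := by
    intro j hj1 hj2 hj3
    rw [hdd] at hj3 ⊢
    simp only at hj3 ⊢
    have h3 : detZ (w 0) (w j) ≤ 0 := by
      by_contra h4
      rw [not_le] at h4
      have := hl j
      have : 0 < l j * detZ (w 0) (w j) := mul_pos (by linarith) h4
      linarith
    have h4 := hsg j hj1 hj2 h3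
    have := hl (j + 1)
    exact mul_nonpos_of_nonneg_of_nonpos (by linarith) h4
  have hstay' : ∀ j m, 1 ≤ j → j ≤ m → m ≤ n → d j ≤ 0 → d m ≤ 0 := by
    intro j m hj hjm
    induction m, hjm using Nat.le_induction with
    | base => intro _ h; exact h
    | succ m hm ih =>
      intro h1 h3
      exact hstay m (by omega) (by omega) (ih (by omega) h3)
  have d0 : d 0 = 0 := by rw [hdd]; simp only; rw [detZ_self, mul_zero]
  rw [hsum k]
  by_cases hlast : 0 < d (k - 1)
  · -- all terms are positive
    have hpos : ∀ j, 1 ≤ j → j < k → 0 < d j := by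
      intro j hj1 hj2
      by_contra h3
      have := hstay' j (k - 1) hj1 (by omega) (by omega) (by linarith)
      linarith
    refine Finset.sum_pos' (fun j hj => ?_) ⟨1, Finset.mem_range.2 (by omega), hpos 1 le_rfl (by omega)⟩
    rw [Finset.mem_range] at hj
    rcases Nat.eq_zero_or_pos j with h3 | h3
    · rw [h3, d0]
    · exact (hpos j h3 hj).le
  · -- the remaining terms are negative
    have htot : ∑ j ∈ Finset.range n, d j = 0 := by
      rw [← hsum n, hs]
      simp [detZ]
    have hsplit : ∑ j ∈ Finset.range k, d j + ∑ j ∈ Finset.Ico k n, d j = 0 := by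
      rw [Finset.sum_range_add_sum_Ico _ hkn.le, htot]
    have hneg : ∀ j, k ≤ j → j < n → d j ≤ 0 := by
      intro j hj1 hj2
      exact hstay' (k - 1) j (by omega) (by omega) (by omega) (by linarith)
    have hlst : d (n - 1) < 0 := by
      have h3 := hd (n - 1) (by omega)
      have h4 : n - 1 + 1 = n := by omega
      rw [h4, hn] at h3
      have h5 := detZ_anti (w 0) (w (n - 1))
      have h6 := hl (n - 1)
      rw [hdd]
      simp only
      have h7 : 0 < l (n - 1) * detZ (w (n - 1)) (w 0) := mul_pos (by linarith) h3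
      rw [detZ_anti]
      linarith
    have h8 : ∑ j ∈ Finset.Ico k n, d j < 0 := by
      refine Finset.sum_neg' (fun j hj => ?_) ⟨n - 1, Finset.mem_Ico.2 (by omega), hlst⟩
      rw [Finset.mem_Ico] at hj
      exact hneg j hj.1 hj.2
    linarith

end Pool.Agent.Lib.MP_2d08ba_nt.Word
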