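import Pool.Agent.Lib.MP_2d08ba_nt.Word.ListB

set_option autoImplicit false

/-! The list of the integer polygons, part C: polygons from closed sequences, and back. -/

namespace Pool.Agent.Lib.MP_2d08ba_nt.Word

open Pool.Agent.Lib.MP_2d08ba_nt

section

variable {n : ℕ} [NeZero n]

/-! ### Sums over `ZMod n` -/

theorem sum_zmod {M : Type} [AddCommMonoid M] (f : ZMod n → M) :
    ∑ i, f i = ∑ k ∈ Finset.range n, f (k : ZMod n) := by
  refine Finset.sum_bij (fun i _ => i.val) (fun i _ => Finset.mem_range.2 (ZMod.val_lt i))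
    (fun i _ j _ h => ZMod.val_injective n h) (fun k hk => ⟨(k : ZMod n), Finset.mem_univ _, ?_⟩)
    (fun i _ => ?_)
  · exact ZMod.val_cast_of_lt (Finset.mem_range.1 hk)
  · rw [ZMod.natCast_zmod_val]

theorem sum_shift {M : Type} [AddCommMonoid M] (f : ZMod n → M) (i : ZMod n) :
    ∑ k ∈ Finset.range n, f (i + (k : ZMod n)) = ∑ j, f j := by
  rw [← sum_zmod (fun j => f (i + j))]
  exact Equiv.sum_comp (Equiv.addLeft i) f

theorem sum_succ {M : Type} [AddCommMonoid M] (f : ZMod n → M) :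
    ∑ i, f (i + 1) = ∑ i, f i := Equiv.sum_comp (Equiv.addRight (1 : ZMod n)) f

theorem exists_shift (i j : ZMod n) : ∃ k : ℕ, k < n ∧ j = i + (k : ZMod n) :=
  ⟨(j - i).val, ZMod.val_lt _, by rw [ZMod.natCast_zmod_val]; ring⟩

/-! ### The sum of the numbers `3 - d` around the polygon -/

theorem det_all {u q : ZMod n → ℤ × ℤ} {c : ZMod n → ℤ} {B : ZMod n → List ℤ}
    (h0 : detZ (u 0) (q 0) = 1)
    (hrun : ∀ i, run (B i) (u i, q i) = (c (i + 1) • u (i + 1) - q (i + 1), u (i + 1))) :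
    ∀ i, detZ (u i) (q i) = 1 := by
  have key : ∀ k : ℕ, detZ (u (k : ZMod n)) (q (k : ZMod n)) = 1 := by
    intro k
    induction k with
    | zero => rw [Nat.cast_zero]; exact h0
    | succ k ih =>
      have h1 := det_run (B (k : ZMod n)) (u (k : ZMod n), q (k : ZMod n))
      rw [hrun, ih] at h1
      rw [Nat.cast_succ, ← h1]
      unfold detZ
      simp only [Prod.fst_sub, Prod.snd_sub, Prod.smul_fst, Prod.smul_snd, smul_eq_mul]
      ring
  intro i
  have := key i.val
  rwa [ZMod.natCast_zmod_val] at this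

/-- the whole sequence of coefficients -/
def LL (c : ZMod n → ℤ) (B : ZMod n → List ℤ) (m : ℕ) : List ℤ :=
  (List.range m).flatMap fun k : ℕ => B (k : ZMod n) ++ [c ((k : ZMod n) + 1)]

theorem LL_succ (c : ZMod n → ℤ) (B : ZMod n → List ℤ) (m : ℕ) :
    LL c B (m + 1) = LL c B m ++ (B (m : ZMod n) ++ [c ((m : ZMod n) + 1)]) := by
  unfold LL
  rw [List.range_succ, List.flatMap_append]
  simp

theorem run_LL {u q : ZMod n → ℤ × ℤ} {c : ZMod n → ℤ} {B : ZMod n → List ℤ}
    (hrun : ∀ i, run (B i) (u i, q i) = (c (i + 1) • u (i + 1) - q (i + 1), u (i + 1))) (m : ℕ) :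
    run (LL c B m) (u 0, q 0) = (u (m : ZMod n), q (m : ZMod n)) := by
  induction m with
  | zero =>
    rw [Nat.cast_zero]
    rfl
  | succ m ih =>
    rw [LL_succ, run_append, ih, run_append, hrun, Nat.cast_succ]
    show (u ((m : ZMod n) + 1), c ((m : ZMod n) + 1) • u ((m : ZMod n) + 1) -
      (c ((m : ZMod n) + 1) • u ((m : ZMod n) + 1) - q ((m : ZMod n) + 1))) = _
    rw [sub_sub_cancel]

theorem tc_LL (hpr : S_HJpr) {u q : ZMod n → ℤ × ℤ} {c : ZMod n → ℤ} {B : ZMod n → List ℤ}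
    (hB : ∀ i, ∀ b ∈ B i, 2 ≤ b) (hdet : ∀ i, detZ (u i) (q i) = 1)
    (hrun : ∀ i, run (B i) (u i, q i) = (c (i + 1) • u (i + 1) - q (i + 1), u (i + 1))) (m : ℕ) :
    tc (LL c B m) (u 0, q 0) = ∑ k ∈ Finset.range m, cr (u (k : ZMod n)) (u ((k : ZMod n) + 1)) +
      (cr (u (m : ZMod n)) (q (m : ZMod n)) - cr (u 0) (q 0)) := by
  induction m with
  | zero =>
    rw [Nat.cast_zero, Finset.sum_range_zero, sub_self, add_zero]
    rfl
  | succ m ih =>
    rw [LL_succ, tc_append, ih, run_LL hrun, tc_append, hrun, Finset.sum_range_succ,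
      Nat.cast_succ]
    have h1 := tc_corner (B (m : ZMod n)) (hB _) hpr (u (m : ZMod n)) (q (m : ZMod n)) (hdet _)
    rw [hrun] at h1
    have h2 : tc [c ((m : ZMod n) + 1)] (c ((m : ZMod n) + 1) • u ((m : ZMod n) + 1) -
        q ((m : ZMod n) + 1), u ((m : ZMod n) + 1)) =
        cr (u ((m : ZMod n) + 1)) (q ((m : ZMod n) + 1)) := by
      rw [tc_cons, tc_nil, add_zero, sub_sub_cancel]
    rw [h2]
    simp only at h1
    linarith

theorem sm_LL (c : ZMod n → ℤ) (B : ZMod n → List ℤ) (m : ℕ) :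
    sm (LL c B m) = ∑ k ∈ Finset.range m, (sm (B (k : ZMod n)) + (3 - c ((k : ZMod n) + 1))) := by
  induction m with
  | zero =>
    rw [Finset.sum_range_zero]
    rfl
  | succ m ih =>
    rw [LL_succ, sm_append, sm_append, ih, Finset.sum_range_succ, sm_cons, sm_nil, add_zero]

/-- the sum of the numbers `3 - d` is six times the number of half turns of the directions -/
theorem noether_sum (hpr : S_HJpr) {u q : ZMod n → ℤ × ℤ} {c : ZMod n → ℤ} {B : ZMod n → List ℤ}
    (hB : ∀ i, ∀ b ∈ B i, 2 ≤ b) (hdet : ∀ i, detZ (u i) (q i) = 1)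
    (hrun : ∀ i, run (B i) (u i, q i) = (c (i + 1) • u (i + 1) - q (i + 1), u (i + 1))) :
    ∑ i, ((3 - c i) + sm (B i)) = 6 * ∑ i, cr (u i) (u (i + 1)) := by
  have h1 := noether (LL c B n).length (LL c B n) le_rfl (u 0) (q 0) (hdet 0) (Or.inl (by
    rw [run_LL hrun, ZMod.natCast_self]))
  rw [sm_LL, tc_LL hpr hB hdet hrun, ZMod.natCast_self, sub_self, add_zero,
    ← sum_zmod (fun i => sm (B i) + (3 - c (i + 1))),
    ← sum_zmod (fun i => cr (u i) (u (i + 1)))] at h1
  rw [← h1, Finset.sum_add_distrib, Finset.sum_add_distrib, sum_succ (fun i => 3 - c i)]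
  ring

/-! ### The polygon of a closed sequence -/

/-- the partial sums -/
def vv (l : ZMod n → ℤ) (u : ZMod n → ℤ × ℤ) (i : ZMod n) : ℤ × ℤ :=
  ∑ k ∈ Finset.range i.val, l (k : ZMod n) • u (k : ZMod n)

theorem vv_succ (l : ZMod n → ℤ) (u : ZMod n → ℤ × ℤ) (hs : ∑ i, l i • u i = 0) (i : ZMod n) :
    vv l u (i + 1) - vv l u i = l i • u i := by
  have hi := ZMod.val_lt i
  have e : l i • u i + vv l u i = ∑ k ∈ Finset.range (i.val + 1), l (k : ZMod n) • u (k : ZMod n) := by
    rw [Finset.sum_range_succ, ZMod.natCast_zmod_val, add_comm]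
    rfl
  rcases Nat.lt_or_ge (i.val + 1) n with h | h
  · have h1 : (i + 1).val = i.val + 1 := by
      have h2 : i + 1 = ((i.val + 1 : ℕ) : ZMod n) := by
        rw [Nat.cast_succ, ZMod.natCast_zmod_val]
      rw [h2, ZMod.val_cast_of_lt h]
    have h3 : vv l u (i + 1) = l i • u i + vv l u i := by
      rw [e]
      unfold vv
      rw [h1]
    rw [h3, add_sub_cancel_right]
  · have h1 : i.val + 1 = n := by omega
    have h2 : i + 1 = 0 := by
      have h3 : i + 1 = ((i.val + 1 : ℕ) : ZMod n) := by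
        rw [Nat.cast_succ, ZMod.natCast_zmod_val]
      rw [h3, h1, ZMod.natCast_self]
    rw [h1, ← sum_zmod (fun i => l i • u i), hs] at e
    have h4 : vv l u (i + 1) = 0 := by
      rw [h2]
      unfold vv
      rw [ZMod.val_zero, Finset.sum_range_zero]
    rw [h4, ← e, add_sub_cancel_right]

theorem vv_add {v : ZMod n → ℤ × ℤ} {l : ZMod n → ℤ} {u : ZMod n → ℤ × ℤ}
    (hv : ∀ i, v (i + 1) - v i = l i • u i) (i : ZMod n) (k : ℕ) :
    v (i + (k : ZMod n)) - v i = ∑ j ∈ Finset.range k, l (i + (j : ZMod n)) • u (i + (j : ZMod n)) := by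
  induction k with
  | zero => rw [Nat.cast_zero, add_zero, sub_self, Finset.sum_range_zero]
  | succ k ih =>
    rw [Finset.sum_range_succ, ← ih, ← hv, Nat.cast_succ, ← add_assoc]
    abel

/-- strict convexity -/
theorem edge_pos {v : ZMod n → ℤ × ℤ} {l : ZMod n → ℤ} {u : ZMod n → ℤ × ℤ} (hl : ∀ i, 1 ≤ l i)
    (hd : ∀ i, 0 < detZ (u i) (u (i + 1))) (hs : ∑ i, l i • u i = 0)
    (h2 : ∑ i, cr (u i) (u (i + 1)) = 2) (hv : ∀ i, v (i + 1) - v i = l i • u i) (i j : ZMod n)
    (hj : j ≠ i) (hj1 : j ≠ i + 1) : 0 < detZ (u i) (v j - v i) := by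
  obtain ⟨k, hk, rfl⟩ := exists_shift i j
  have hk2 : 2 ≤ k := by
    rcases k with _ | _ | k
    · exact absurd (by rw [Nat.cast_zero, add_zero]) hj
    · exact absurd (by rw [zero_add, Nat.cast_one]) hj1
    · omega
  rw [vv_add hv]
  have h3 := turn_pos n (fun k => u (i + (k : ZMod n))) (fun k => l (i + (k : ZMod n)))
    (fun k => hl _) (fun k _ => by
      have := hd (i + (k : ZMod n))
      rw [add_assoc, ← Nat.cast_succ] at this
      exact this) (by
      simp only [ZMod.natCast_self, Nat.cast_zero]) (by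
      have e : ∀ k : ℕ, cr (u (i + (k : ZMod n))) (u (i + ((k + 1 : ℕ) : ZMod n))) =
          (fun j => cr (u j) (u (j + 1))) (i + (k : ZMod n)) := by
        intro k
        simp only
        rw [Nat.cast_succ, add_assoc]
      simp only [e]
      rw [sum_shift (fun j => cr (u j) (u (j + 1)))]
      exact h2) (by
      rw [sum_shift (fun j => l j • u j)]
      exact hs) k hk2 hk
  simp only [Nat.cast_zero, add_zero] at h3
  exact h3

/-- a set with separating functionals is in convex position -/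
theorem convexPos_of_sep (V : Finset (ℤ × ℤ))
    (h : ∀ a ∈ V, ∃ g : ℤ × ℤ, ∀ b ∈ V, b ≠ a → 0 < detZ g (b - a)) : ConvexPos (vertexSet V) := by
  intro x hx hmem
  obtain ⟨a, ha, rfl⟩ := mem_vertexSet.1 hx
  obtain ⟨g, hg⟩ := h a ha
  have hconv : Convex ℝ {y : ℝ × ℝ | (g.1 : ℝ) * a.2 - g.2 * a.1 < (g.1 : ℝ) * y.2 - g.2 * y.1} := by
    have hlin : IsLinearMap ℝ (fun y : ℝ × ℝ => (g.1 : ℝ) * y.2 - g.2 * y.1) :=
      ⟨fun y z => by simp only [Prod.fst_add, Prod.snd_add]; ring,
        fun r y => by simp only [Prod.smul_fst, Prod.smul_snd, smul_eq_mul]; ring⟩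
    exact convex_halfSpace_gt hlin _
  have hsub : ((vertexSet V : Set (ℝ × ℝ)) \ {toR a}) ⊆
      {y : ℝ × ℝ | (g.1 : ℝ) * a.2 - g.2 * a.1 < (g.1 : ℝ) * y.2 - g.2 * y.1} := by
    rintro y ⟨hy, hya⟩
    obtain ⟨b, hb, rfl⟩ := mem_vertexSet.1 hy
    have hba : b ≠ a := fun h => hya (by rw [h]; rfl)
    have h1 := hg b hb hba
    unfold detZ at h1
    simp only [Prod.fst_sub, Prod.snd_sub] at h1
    have h2 : g.1 * a.2 - g.2 * a.1 < g.1 * b.2 - g.2 * b.1 := by linarith
    show (g.1 : ℝ) * (a.2 : ℝ) - (g.2 : ℝ) * (a.1 : ℝ) < (g.1 : ℝ) * (b.2 : ℝ) - (g.2 : ℝ) * (b.1 : ℝ)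
    exact_mod_cast h2
  have h3 := convexHull_min hsub hconv hmem
  have h4 : (g.1 : ℝ) * a.2 - g.2 * a.1 < (g.1 : ℝ) * (toR a).2 - g.2 * (toR a).1 := h3
  unfold toR at h4
  exact lt_irrefl _ h4

theorem polygon_of (hn : 3 ≤ n) {l : ZMod n → ℤ} {u : ZMod n → ℤ × ℤ} (hl : ∀ i, 1 ≤ l i)
    (hd : ∀ i, 0 < detZ (u i) (u (i + 1))) (hs : ∑ i, l i • u i = 0)
    (h2 : ∑ i, cr (u i) (u (i + 1)) = 2) :
    ∃ (V : Finset (ℤ × ℤ)) (v : ZMod n → ℤ × ℤ), V.card = n ∧ ConvexPos (vertexSet V) ∧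
      Ccw V v ∧ ∀ i, v (i + 1) - v i = l i • u i := by
  classical
  obtain ⟨v, hvd⟩ : ∃ v, v = vv l u := ⟨_, rfl⟩
  have hv : ∀ i, v (i + 1) - v i = l i • u i := by rw [hvd]; exact vv_succ l u hs
  have hpos := edge_pos hl hd hs h2 hv
  have hne : ∀ i, u i ≠ 0 := fun i => (detZ_ne (hd i)).1
  have hstep : ∀ i, v (i + 1) ≠ v i := by
    intro i h
    have h3 := hv i
    rw [h, sub_self] at h3
    rcases smul_eq_zero.1 h3.symm with h4 | h4
    · have := hl i
      omega
    · exact hne i h4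
  have hinj : Function.Injective v := by
    intro i j hij
    by_contra hne'
    by_cases h3 : j = i + 1
    · rw [h3] at hij
      exact hstep i hij.symm
    · have h4 := hpos i j (fun h => hne' h.symm) h3
      rw [hij, sub_self] at h4
      simp [detZ] at h4
  refine ⟨Finset.univ.image v, v, ?_, ?_, ⟨hinj, ?_, ?_⟩, hv⟩
  · rw [Finset.card_image_of_injective _ hinj, Finset.card_univ, ZMod.card]
  · refine convexPos_of_sep _ fun a ha => ?_
    obtain ⟨j, -, rfl⟩ := Finset.mem_image.1 ha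
    refine ⟨u (j - 1) + u j, fun b hb hba => ?_⟩
    obtain ⟨k, -, rfl⟩ := Finset.mem_image.1 hb
    have hkj : k ≠ j := fun h => hba (by rw [h])
    have hadd : detZ (u (j - 1) + u j) (v k - v j) =
        detZ (u (j - 1)) (v k - v j) + detZ (u j) (v k - v j) := by
      unfold detZ
      simp only [Prod.fst_add, Prod.snd_add]
      ring
    have hprev := hv (j - 1)
    rw [sub_add_cancel] at hprev
    have hdj := hd (j - 1)
    rw [sub_add_cancel] at hdj
    have e1 : detZ (u (j - 1)) (v k - v j) = detZ (u (j - 1)) (v k - v (j - 1)) := by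
      have h3 : v k - v (j - 1) = (v k - v j) + l (j - 1) • u (j - 1) := by
        rw [← hprev]
        abel
      rw [h3, detZ_add_right, detZ_smul_right, detZ_self, mul_zero, add_zero]
    rw [hadd]
    have n1 : (j - 1 : ZMod n) ≠ j := by
      intro h
      have h3 : (1 : ZMod n) = 0 := by
        have h4 : j - (j - 1) = j - j := by rw [h]
        rw [sub_sub_cancel, sub_self] at h4
        exact h4
      have h5 : ((1 : ℕ) : ZMod n) = 0 := by rw [Nat.cast_one]; exact h3
      rw [ZMod.natCast_eq_zero_iff] at h5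
      have := Nat.le_of_dvd one_pos h5
      omega
    have n2 : (j + 1 : ZMod n) ≠ j - 1 := by
      intro h
      have h3 : (2 : ZMod n) = 0 := by
        have h4 : j + 1 - (j - 1) = 0 := by rw [h, sub_self]
        rw [← h4]
        ring
      have h5 : ((2 : ℕ) : ZMod n) = 0 := by
        rw [Nat.cast_ofNat]
        exact h3
      rw [ZMod.natCast_eq_zero_iff] at h5
      have := Nat.le_of_dvd two_pos h5
      omega
    by_cases hk1 : k = j + 1
    · subst hk1
      have h4 : 0 < detZ (u (j - 1)) (v (j + 1) - v j) := by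
        rw [hv j, detZ_smul_right]
        exact mul_pos (by have := hl j; omega) hdj
      have h5 : detZ (u j) (v (j + 1) - v j) = 0 := by
        rw [hv j, detZ_smul_right, detZ_self, mul_zero]
      linarith
    · have h4 := hpos j k hkj hk1
      have h5 : 0 ≤ detZ (u (j - 1)) (v k - v j) := by
        rw [e1]
        by_cases hk2 : k = j - 1
        · rw [hk2, sub_self]
          simp [detZ]
        · exact (hpos (j - 1) k hk2 (by rw [sub_add_cancel]; exact hkj)).le
      linarith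
  · intro x
    constructor
    · intro hx
      obtain ⟨i, -, hi⟩ := Finset.mem_image.1 hx
      exact ⟨i, hi⟩
    · rintro ⟨i, hi⟩
      exact Finset.mem_image.2 ⟨i, Finset.mem_univ _, hi⟩
  · intro i
    refine ⟨Finset.mem_image_of_mem _ (Finset.mem_univ _), Finset.mem_image_of_mem _
      (Finset.mem_univ _), (hstep i).symm, ?_⟩
    intro x hx hx1 hx2
    obtain ⟨j, -, rfl⟩ := Finset.mem_image.1 hx
    rw [hv i, detZ_smul_left]
    exact mul_pos (by have := hl i; omega)
      (hpos i j (fun h => hx1 (by rw [h])) (fun h => hx2 (by rw [h])))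

/-! ### A polygon turns once -/

theorem up_smul {k : ℤ} (hk : 0 < k) (x : ℤ × ℤ) : Up (k • x) ↔ Up x := by
  unfold Up
  simp only [Prod.smul_fst, Prod.smul_snd, smul_eq_mul]
  rw [mul_pos_iff_of_pos_left hk, mul_pos_iff_of_pos_left hk, mul_eq_zero]
  constructor
  · rintro (h | ⟨h | h, h'⟩)
    · exact Or.inl h
    · exact absurd h hk.ne'
    · exact Or.inr ⟨h, h'⟩
  · rintro (h | ⟨h, h'⟩)
    · exact Or.inl h
    · exact Or.inr ⟨Or.inr h, h'⟩

theorem not_up_zero : ¬ Up (0 : ℤ × ℤ) := by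
  unfold Up
  simp

theorem up_ne {x : ℤ × ℤ} (h : Up x) : x ≠ 0 := by
  rintro rfl
  exact not_up_zero h

/-- at a change from up to down there is the unique highest vertex -/
theorem top_vertex {v : ZMod n → ℤ × ℤ} {l : ZMod n → ℤ} {u : ZMod n → ℤ × ℤ} (hl : ∀ i, 1 ≤ l i)
    (hd : ∀ i, 0 < detZ (u i) (u (i + 1))) (hv : ∀ i, v (i + 1) - v i = l i • u i)
    (hpos : ∀ i j, j ≠ i → j ≠ i + 1 → 0 < detZ (u i) (v j - v i)) (j : ZMod n)
    (h1 : Up (u j)) (h2 : ¬ Up (u (j + 1))) (k : ZMod n) (hk : k ≠ j + 1) :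
    Up (v (j + 1) - v k) := by
  obtain ⟨z, hz⟩ : ∃ z, z = v k - v (j + 1) := ⟨_, rfl⟩
  have hD := hd j
  have hne : u (j + 1) ≠ 0 := (detZ_ne hD).2
  have hdn : Up (-(u (j + 1))) := (up_neg hne).2 h2
  have hzj : v k - v j = z + l j • u j := by
    rw [hz, ← hv j]
    abel
  have ha : 0 ≤ detZ (u j) z ∧ (k ≠ j → 0 < detZ (u j) z) := by
    by_cases hkj : k = j
    · have h3 : z = -(l j • u j) := by
        rw [hz, hkj, ← hv j]
        abel
      refine ⟨?_, fun h => absurd hkj h⟩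
      rw [h3, detZ_neg_right, detZ_smul_right, detZ_self, mul_zero, neg_zero]
    · have h3 := hpos j k hkj hk
      rw [hzj, detZ_add_right, detZ_smul_right, detZ_self, mul_zero, add_zero] at h3
      exact ⟨h3.le, fun _ => h3⟩
  have hb : 0 ≤ detZ (u (j + 1)) z ∧ (k = j → 0 < detZ (u (j + 1)) z) := by
    by_cases hkj : k = j + 1 + 1
    · have h3 : z = l (j + 1) • u (j + 1) := by
        rw [hz, hkj, ← hv (j + 1)]
      have h5 : detZ (u (j + 1)) z = 0 := by
        rw [h3, detZ_smul_right, detZ_self, mul_zero]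
      refine ⟨h5.ge, fun h => ?_⟩
      -- then `j + 2 = j`, and `z` is a multiple of two independent vectors
      have h6 : z = -(l j • u j) := by
        rw [hz, h, ← hv j]
        abel
      rw [h6, detZ_neg_right, detZ_smul_right, detZ_anti] at h5 ⊢
      have : 0 < l j * detZ (u j) (u (j + 1)) := mul_pos (by have := hl j; omega) hD
      linarith
    · have h3 := hpos (j + 1) k hk hkj
      rw [← hz] at h3
      exact ⟨h3.le, fun _ => h3⟩
  have e : detZ (u j) (u (j + 1)) • -z =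
      detZ (u (j + 1)) z • u j + detZ (u j) z • -(u (j + 1)) := by
    unfold detZ
    apply Prod.ext
    · simp only [Prod.smul_fst, Prod.fst_add, Prod.fst_neg, smul_eq_mul]
      ring
    · simp only [Prod.smul_snd, Prod.snd_add, Prod.snd_neg, smul_eq_mul]
      ring
  have h5 : Up (detZ (u j) (u (j + 1)) • -z) := by
    rw [e]
    rcases eq_or_lt_of_le ha.1 with h6 | h6
    · rw [← h6, zero_smul, add_zero, up_smul]
      · exact h1
      · refine hb.2 ?_
        by_contra h7
        have := ha.2 h7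
        omega
    · rcases eq_or_lt_of_le hb.1 with h7 | h7
      · rw [← h7, zero_smul, zero_add]
        exact (up_smul h6 _).2 hdn
      · exact up_add ((up_smul h7 _).2 h1) ((up_smul h6 _).2 hdn)
  rw [up_smul hD, hz, neg_sub] at h5
  exact h5

theorem sum_cr_two {v : ZMod n → ℤ × ℤ} {l : ZMod n → ℤ} {u : ZMod n → ℤ × ℤ}
    (hl : ∀ i, 1 ≤ l i)
    (hd : ∀ i, 0 < detZ (u i) (u (i + 1))) (hv : ∀ i, v (i + 1) - v i = l i • u i)
    (hpos : ∀ i j, j ≠ i → j ≠ i + 1 → 0 < detZ (u i) (v j - v i)) :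
    ∑ i, cr (u i) (u (i + 1)) = 2 := by
  classical
  have hs : ∑ i, l i • u i = 0 := by
    simp only [← hv]
    rw [Finset.sum_sub_distrib, sum_succ v, sub_self]
  have hne : ∀ i, u i ≠ 0 := fun i => (detZ_ne (hd i)).1
  have hex1 : ∃ a, Up (u a) := by
    by_contra h
    push Not at h
    have h3 : Up (∑ i, l i • -(u i)) :=
      Finset.sum_induction_nonempty _ Up (fun _ _ => up_add) Finset.univ_nonempty
        (fun i _ => (up_smul (by have := hl i; omega) _).2 ((up_neg (hne i)).2 (h i)))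
    have h4 : ∑ i, l i • -(u i) = 0 := by
      simp only [smul_neg]
      rw [Finset.sum_neg_distrib, hs, neg_zero]
    rw [h4] at h3
    exact not_up_zero h3
  have hex2 : ∃ b, ¬ Up (u b) := by
    by_contra h
    push Not at h
    have h3 : Up (∑ i, l i • u i) :=
      Finset.sum_induction_nonempty _ Up (fun _ _ => up_add) Finset.univ_nonempty
        (fun i _ => (up_smul (by have := hl i; omega) _).2 (h i))
    rw [hs] at h3
    exact not_up_zero h3
  obtain ⟨a, ha⟩ := hex1
  obtain ⟨b, hb⟩ := hex2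
  have hex : ∃ j, Up (u j) ∧ ¬ Up (u (j + 1)) := by
    by_contra h
    push Not at h
    have h3 : ∀ k : ℕ, Up (u (a + (k : ZMod n))) := by
      intro k
      induction k with
      | zero => rw [Nat.cast_zero, add_zero]; exact ha
      | succ k ih => rw [Nat.cast_succ, ← add_assoc]; exact h _ ih
    obtain ⟨k, -, rfl⟩ := exists_shift a b
    exact hb (h3 k)
  obtain ⟨j, hj1, hj2⟩ := hex
  have huniq : ∀ i, Up (u i) ∧ ¬ Up (u (i + 1)) → i = j := by
    rintro i ⟨hi1, hi2⟩
    by_contra hij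
    have hij' : i + 1 ≠ j + 1 := fun h => hij (add_right_cancel h)
    have h3 := top_vertex hl hd hv hpos j hj1 hj2 (i + 1) hij'
    have h4 := top_vertex hl hd hv hpos i hi1 hi2 (j + 1) (fun h => hij' h.symm)
    have h5 := (up_neg (up_ne h3)).1 (by rw [neg_sub]; exact h4)
    exact h5 h3
  have hcr : ∀ i, cr (u i) (u (i + 1)) = 2 * (if i = j then 1 else 0) -
      ((if Up (u i) then 1 else 0) - (if Up (u (i + 1)) then 1 else 0)) := by
    intro i
    by_cases h3 : Up (u i) <;> by_cases h4 : Up (u (i + 1))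
    · have h5 : i ≠ j := fun h => hj2 (by rw [← h]; exact h4)
      rw [cr_of (iff_of_true h3 h4), if_neg h5, if_pos h3, if_pos h4]
      norm_num
    · rw [cr_of_not (fun h => h4 (h.1 h3)), if_pos (huniq i ⟨h3, h4⟩), if_pos h3, if_neg h4]
      norm_num
    · have h5 : i ≠ j := fun h => h3 (by rw [h]; exact hj1)
      rw [cr_of_not (fun h => h3 (h.2 h4)), if_neg h5, if_neg h3, if_pos h4]
      norm_num
    · have h5 : i ≠ j := fun h => h3 (by rw [h]; exact hj1)
      rw [cr_of (iff_of_false h3 h4), if_neg h5, if_neg h3, if_neg h4]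
      norm_num
  simp only [hcr]
  rw [Finset.sum_sub_distrib, Finset.sum_sub_distrib, ← Finset.mul_sum, Finset.sum_ite_eq',
    if_pos (Finset.mem_univ _), sum_succ (fun i => if Up (u i) then (1 : ℤ) else 0)]
  norm_num

end

end Pool.Agent.Lib.MP_2d08ba_nt.Word
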