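import Pool.Agent.Lib.MP_2d08ba_nt.Word.ListC

set_option autoImplicit false

/-! The list of the integer polygons, part D: the invariants of the integer polygons with `n`
vertices. -/

namespace Pool.Agent.Lib.MP_2d08ba_nt.Word

open Pool.Agent.Lib.MP_2d08ba_nt

theorem run_hom (f : ℤ × ℤ →+ ℤ × ℤ) (B : List ℤ) (x y : ℤ × ℤ) :
    run B (f x, f y) = (f (run B (x, y)).1, f (run B (x, y)).2) := by
  induction B generalizing x y with
  | nil => rfl
  | cons b B ih =>
    rw [run_cons, run_cons, ← ih, map_sub, map_zsmul]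

theorem glen_smul_prim {l : ℤ} (hl : 0 < l) {u q : ℤ × ℤ} (h : detZ u q = 1) :
    glen (l • u) = l := by
  unfold glen
  simp only [Prod.smul_fst, Prod.smul_snd, smul_eq_mul]
  have h1 : Int.gcd u.1 u.2 = 1 := by
    rw [← Int.isCoprime_iff_gcd_eq_one]
    refine ⟨q.2, -q.1, ?_⟩
    unfold detZ at h
    linear_combination h
  rw [Int.gcd_mul_left, h1, mul_one]
  exact Int.natAbs_of_nonneg hl.le

/-- **The list of the integer polygons.** -/
theorem list_iff (hbas : S_Bas) (hpr : S_HJpr) (n : ℕ) [NeZero n] (hn : 3 ≤ n) (l c : ZMod n → ℤ)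
    (B : ZMod n → List ℤ) :
    (∃ (V : Finset (ℤ × ℤ)) (v : ZMod n → ℤ × ℤ), V.card = n ∧ ConvexPos (vertexSet V) ∧
      Ccw V v ∧ Inv v l c B) ↔
    (∀ i, 1 ≤ l i ∧ ∀ b ∈ B i, 2 ≤ b) ∧
    (∃ u q : ZMod n → ℤ × ℤ, u 0 = (1, 0) ∧ q 0 = (0, 1) ∧
      (∀ i, run (B i) (u i, q i) = (c (i + 1) • u (i + 1) - q (i + 1), u (i + 1))) ∧
      ∑ i, l i • u i = 0) ∧
    ∑ i, (3 - c i + ((B i).map fun b => 3 - b).sum) = 12 := by
  constructor
  · rintro ⟨V, v, hVn, hV, hv, hl, q, hq⟩
    obtain ⟨-, hb⟩ := hbas n V v hn hv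
    have hl1 : ∀ i, 1 ≤ l i := fun i => by rw [hl i]; exact (hb i).1
    have hstep : ∀ i, v (i + 1) - v i = l i • dir v i := fun i => by
      rw [hl i]
      exact (hb i).2.1
    have hd : ∀ i, 0 < detZ (dir v i) (dir v (i + 1)) := fun i => (hb i).2.2.2
    have hpos : ∀ i j, j ≠ i → j ≠ i + 1 → 0 < detZ (dir v i) (v j - v i) := by
      intro i j hj hj1
      have h1 := (hv.2.2 i).2.2.2 (v j) ((hv.2.1 _).2 ⟨j, rfl⟩) (fun h => hj (hv.1 h))
        (fun h => hj1 (hv.1 h))
      rw [hstep i, detZ_smul_left] at h1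
      have h2 := hl1 i
      exact (mul_pos_iff_of_pos_left (by omega)).1 h1
    have hs : ∑ i, l i • dir v i = 0 := by
      simp only [← hstep]
      rw [Finset.sum_sub_distrib, sum_succ v, sub_self]
    refine ⟨fun i => ⟨hl1 i, (hq i).2.1⟩, ?_, ?_⟩
    · let f : ℤ × ℤ →+ ℤ × ℤ :=
        { toFun := fun x => (detZ x (q 0), detZ (dir v 0) x)
          map_zero' := by simp [detZ]
          map_add' := fun x y => by
            apply Prod.ext
            · simp only [detZ, Prod.fst_add, Prod.snd_add]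
              ring
            · simp only [detZ, Prod.fst_add, Prod.snd_add]
              ring }
      have hf : ∀ x, f x = (detZ x (q 0), detZ (dir v 0) x) := fun _ => rfl
      refine ⟨fun i => f (dir v i), fun i => f (q i), ?_, ?_, ?_, ?_⟩
      · show f (dir v 0) = _
        rw [hf, (hq 0).1, detZ_self]
      · show f (q 0) = _
        rw [hf, (hq 0).1, detZ_self]
      · intro i
        rw [run_hom, (hq i).2.2, map_sub, map_zsmul]
      · have h1 : ∑ i, l i • f (dir v i) = f (∑ i, l i • dir v i) := by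
          rw [map_sum]
          exact Finset.sum_congr rfl fun i _ => (map_zsmul f _ _).symm
        rw [h1, hs, map_zero]
    · have h1 := noether_sum hpr (fun i => (hq i).2.1) (fun i => (hq i).1) (fun i => (hq i).2.2)
      rw [sum_cr_two hl1 hd hstep hpos] at h1
      exact h1
  · rintro ⟨hlB, ⟨u, q, hu0, hq0, hrun, hs⟩, h12⟩
    have hdet : ∀ i, detZ (u i) (q i) = 1 := det_all (by rw [hu0, hq0]; simp [detZ]) hrun
    have hd : ∀ i, 0 < detZ (u i) (u (i + 1)) := by
      intro i
      obtain ⟨-, h1, -⟩ := hpr _ _ _ _ _ (hdet i) (hlB i).2 (hrun i)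
      exact lt_of_le_of_lt h1.1 h1.2
    have h2 : ∑ i, cr (u i) (u (i + 1)) = 2 := by
      have h3 := noether_sum hpr (fun i => (hlB i).2) hdet hrun
      have h4 : ∑ i, ((3 - c i) + sm (B i)) = 12 := h12
      rw [h4] at h3
      linarith
    obtain ⟨V, v, hVn, hV, hv, hstep⟩ := polygon_of hn (fun i => (hlB i).1) hd hs h2
    have hg : ∀ i, glen (v (i + 1) - v i) = l i := fun i => by
      rw [hstep i]
      exact glen_smul_prim (by have := (hlB i).1; omega) (hdet i)
    have hdir : ∀ i, dir v i = u i := by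
      intro i
      unfold dir
      rw [hg i, hstep i]
      have h3 : l i ≠ 0 := by have := (hlB i).1; omega
      apply Prod.ext
      · simp only [Prod.smul_fst, smul_eq_mul]
        exact Int.mul_ediv_cancel_left _ h3
      · simp only [Prod.smul_snd, smul_eq_mul]
        exact Int.mul_ediv_cancel_left _ h3
    refine ⟨V, v, hVn, hV, hv, fun i => (hg i).symm, q, fun i => ?_⟩
    rw [hdir, hdir]
    exact ⟨hdet i, (hlB i).2, hrun i⟩

end Pool.Agent.Lib.MP_2d08ba_nt.Word

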