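import Pool.Agent.Lib.MP_2d08ba_nt.Word.Spec

set_option autoImplicit false

/-! The word criterion, from the statements of the pieces. -/

namespace Pool.Agent.Lib.MP_2d08ba_nt.Word

open Pool.Agent.Lib.MP_2d08ba_nt

/-- the set of tilted edges whose half-plane contains `x` -/
def T {n : ℕ} (v : ZMod n → ℤ × ℤ) (x : ℤ × ℤ) : Set (ZMod n × Bool) :=
  {p | Tilt (v p.1) (v (p.1 + 1)) p.2 x}

theorem rem_facts {r D : ℤ} (h0 : 0 ≤ r) (h1 : r < D) (e : ℤ) :
    (0 ≤ r + e * D ↔ 0 ≤ e) ∧ (r + e * D = 0 ↔ e = 0 ∧ r = 0) ∧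
    (r + e * D = -1 ↔ e = -1 ∧ r = D - 1) := by
  have hD : 0 < D := lt_of_le_of_lt h0 h1
  rcases lt_trichotomy e 0 with he | he | he
  · have h2 : e * D ≤ -D := by nlinarith
    refine ⟨⟨fun h => by omega, fun h => by omega⟩, ⟨fun h => by omega, fun h => by omega⟩, ?_⟩
    constructor
    · intro h
      rcases eq_or_lt_of_le (show e ≤ -1 by omega) with h3 | h3
      · refine ⟨h3, ?_⟩
        rw [h3] at h; linarith
      · exfalso
        have : e * D ≤ -2 * D := by nlinarith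
        linarith
    · rintro ⟨h3, h4⟩
      rw [h3, h4]; ring
  · subst he
    simp only [zero_mul, add_zero]
    refine ⟨⟨fun _ => le_refl _, fun _ => h0⟩, by tauto, ?_⟩
    constructor
    · intro h; omega
    · rintro ⟨h3, _⟩; omega
  · have h2 : D ≤ e * D := by nlinarith
    refine ⟨⟨fun _ => he.le, fun _ => by omega⟩, ⟨fun h => by omega, fun h => by omega⟩, ?_⟩
    constructor
    · intro h; omega
    · rintro ⟨h3, _⟩; omega

section

variable {n : ℕ} [NeZero n] {V : Finset (ℤ × ℤ)} {v : ZMod n → ℤ × ℤ}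

theorem loc_facts (h1 : S_Bas) (h2 : S_Pt) (h3 : S_Cor) (hn : 3 ≤ n) (hv : Ccw V v) (i : ZMod n)
    (c : ℤ) :
    (0 ≤ H v (i + 1) (Pt v i c) ↔ c ≤ tn v i) ∧
    (H v (i + 1) (Pt v i c) = 0 ↔ c = tn v i ∧ sn v i = 1) ∧
    (H v (i + 1) (Pt v i c) = -1 ↔ c = tn v i + 1 ∧ Flat v i) ∧
    (0 ≤ H v (i - 1) (Pt v i c) ↔ 0 ≤ c) ∧
    (H v (i - 1) (Pt v i c) = 0 ↔ c = 0 ∧ sn v (i - 1) = 1) ∧
    (H v (i - 1) (Pt v i c) = -1 ↔ c = -1 ∧ Flat v (i - 1)) := by
  obtain ⟨-, -, hL, hR⟩ := h2 n V v hn hv i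
  obtain ⟨c1, c2, c3, c4⟩ := h3 n V v hn hv i
  have hs := ((h1 n V v hn hv).2 i).2.2.2
  have hs' := ((h1 n V v hn hv).2 (i - 1)).2.2.2
  obtain ⟨a1, a2, a3⟩ := rem_facts (Int.emod_nonneg (detZ (dir v (i + 1)) (bez v i)) hs.ne')
    (Int.emod_lt_of_pos _ hs) (tn v i - c)
  obtain ⟨b1, b2, b3⟩ := rem_facts (Int.emod_nonneg (detZ (dir v (i - 1)) (bez v i)) hs'.ne')
    (Int.emod_lt_of_pos _ hs') c
  rw [hL, hR]
  refine ⟨a1.trans (by omega), a2.trans ?_, a3.trans ?_, b1, b2.trans ?_, b3.trans ?_⟩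
  · rw [c1]
    exact and_congr_left (fun _ => by omega)
  · rw [c2]
    exact and_congr_left (fun _ => by omega)
  · rw [c3]
  · rw [c4]

theorem detZ_H (h1 : S_Bas) (hn : 3 ≤ n) (hv : Ccw V v) (i : ZMod n) (x : ℤ × ℤ) :
    detZ (v (i + 1) - v i) (x - v i) = glen (v (i + 1) - v i) * H v i x := by
  have h := ((h1 n V v hn hv).2 i).2.1
  conv_lhs => rw [h]
  rw [detZ_smul_left]
  rfl

/-- all edges come from the numbering -/
theorem edge_index (hv : Ccw V v) {a b : ℤ × ℤ} (h : IsEdgeZ V a b) :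
    ∃ i, v i = a ∧ v (i + 1) = b := by
  obtain ⟨i, hi⟩ := (hv.2.1 a).mp h.1
  refine ⟨i, hi, ?_⟩
  have h2 := hv.2.2 i
  rw [hi] at h2
  exact toR_injective (next_unique (edge_iff.mpr h2) (edge_iff.mpr h))

theorem mem_shell_iff (h1 : S_Bas) (hn : 3 ≤ n) (hv : Ccw V v) (x : ℤ × ℤ) :
    x ∈ shell V ↔ toR x ∉ poly V ∧ ∀ i, -1 ≤ H v i x := by
  constructor
  · rintro ⟨hx, hall⟩
    refine ⟨hx, fun i => ?_⟩
    have h2 := hall (v i) (v (i + 1)) (hv.2.2 i)
    rw [detZ_H h1 hn hv] at h2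
    have h3 := ((h1 n V v hn hv).2 i).1
    by_contra hcon
    push Not at hcon
    nlinarith
  · rintro ⟨hx, hall⟩
    refine ⟨hx, ?_⟩
    intro a b hab
    obtain ⟨i, rfl, rfl⟩ := edge_index hv hab
    rw [detZ_H h1 hn hv]
    have h3 := ((h1 n V v hn hv).2 i).1
    have h4 := hall i
    nlinarith

theorem not_mem_poly (h1 : S_Bas) (hn : 3 ≤ n) (hv : Ccw V v) {x : ℤ × ℤ} {i : ZMod n}
    (hx : H v i x < 0) : toR x ∉ poly V := by
  intro hmem
  have h2 := hull_nonneg (edge_iff.mpr (hv.2.2 i)) hmem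
  rw [det_toR'] at h2
  have h3 : 0 ≤ detZ (v (i + 1) - v i) (x - v i) := by exact_mod_cast h2
  rw [detZ_H h1 hn hv] at h3
  have h4 := ((h1 n V v hn hv).2 i).1
  nlinarith

/-- a point seen by a run with distances one is a shell point -/
theorem shell_of_vis (h1 : S_Bas) (h4 : S_VisP) (hn : 3 ≤ n) (hV : ConvexPos (vertexSet V))
    (hv : Ccw V v) {x : ℤ × ℤ} {i : ZMod n} {K : ℕ} (hK : K + 2 ≤ n)
    (hx : ∀ k : ℕ, k ≤ K → H v (i + k) x = -1) (hl : 0 ≤ H v (i - 1) x)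
    (hr : 0 ≤ H v (i + K + 1) x) : x ∈ shell V ∧ Vis v i K x := by
  have hvis : Vis v i K x := ⟨hK, fun k hk => by rw [hx k hk]; norm_num, hl, hr⟩
  refine ⟨(mem_shell_iff h1 hn hv x).mpr ⟨?_, ?_⟩, hvis⟩
  · exact not_mem_poly h1 hn hv (i := i + (0 : ℕ)) (by rw [hx 0 (Nat.zero_le _)]; norm_num)
  · intro k
    by_cases hk1 : ∃ a : ℕ, a ≤ K ∧ k = i + a
    · obtain ⟨a, ha, rfl⟩ := hk1
      rw [hx a ha]
    push Not at hk1
    by_cases hk2 : k = i - 1
    · rw [hk2]; linarith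
    by_cases hk3 : k = i + K + 1
    · rw [hk3]; linarith
    have := h4 n V v hn hV hv x i K hvis k hk1 hk2 hk3
    linarith

theorem T_eq (h5 : S_Til) (hn : 3 ≤ n) (hV : ConvexPos (vertexSet V)) (hv : Ccw V v)
    {x : ℤ × ℤ} {i : ZMod n} {K : ℕ} (hvis : Vis v i K x) :
    T v x = {p | (∃ k : ℕ, k ≤ K ∧ p.1 = i + k) ∨ (p = (i - 1, true) ∧ H v (i - 1) x = 0) ∨
      (p = (i + K + 1, false) ∧ H v (i + K + 1) x = 0)} := by
  ext p
  exact h5 n V v hn hV hv x i K hvis p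

/-- shell points give blocks -/
theorem block_of_shell (h1 : S_Bas) (h2 : S_Pt) (h3 : S_Cor) (h4 : S_VisE) (h5 : S_Til)
    (hn : 3 ≤ n) (hV : ConvexPos (vertexSet V)) (hv : Ccw V v) {x : ℤ × ℤ} (hx : x ∈ shell V) :
    IsBlock v (T v x) := by
  have hx' := (mem_shell_iff h1 hn hv x).mp hx
  obtain ⟨i, K, hvis⟩ := h4 n V v hn hV hv x hx'.1
  have hone : ∀ k : ℕ, k ≤ K → H v (i + k) x = -1 := fun k hk =>
    le_antisymm (by have := hvis.2.1 k hk; omega) (hx'.2 _)
  rw [T_eq h5 hn hV hv hvis]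
  have hpt : ∀ j : ZMod n, H v j x = -1 → ∃ c, x = Pt v j c := (h2 n V v hn hv · |>.2.1 x)
  rcases Nat.eq_zero_or_pos K with hK | hK
  · subst hK
    left
    have h0 := hone 0 (le_refl _)
    rw [Nat.cast_zero, add_zero] at h0
    obtain ⟨c, hc⟩ := hpt i h0
    obtain ⟨f1, f2, f3, f4, f5, f6⟩ := loc_facts h1 h2 h3 hn hv i c
    have hl := hvis.2.2.1
    have hr := hvis.2.2.2
    rw [Nat.cast_zero, add_zero] at hr
    rw [hc] at hl hr
    refine ⟨i, c, f4.mp hl, f1.mp hr, ?_⟩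
    ext p
    simp only [stripBlock, Set.mem_ofPred_eq, Nat.cast_zero, add_zero]
    rw [hc, f2, f5]
    constructor
    · rintro (⟨k, hk, hp⟩ | h | h)
      · left
        have : k = 0 := by omega
        subst this
        rw [hp, Nat.cast_zero, add_zero]
      · exact Or.inr (Or.inl h)
      · exact Or.inr (Or.inr h)
    · rintro (h | h | h)
      · exact Or.inl ⟨0, le_refl _, by rw [h, Nat.cast_zero, add_zero]⟩
      · exact Or.inr (Or.inl h)
      · exact Or.inr (Or.inr h)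
  · right
    -- the edge `i`
    have h0 := hone 0 (Nat.zero_le _)
    rw [Nat.cast_zero, add_zero] at h0
    obtain ⟨c, hc⟩ := hpt i h0
    obtain ⟨f1, f2, f3, f4, f5, f6⟩ := loc_facts h1 h2 h3 hn hv i c
    have hi1 := hone 1 hK
    rw [Nat.cast_one, hc] at hi1
    have hi2 := f3.mp hi1
    have hl := hvis.2.2.1
    rw [hc] at hl
    have hc0 := f4.mp hl
    -- flat corners
    have hflat : ∀ k : ℕ, k < K → Flat v (i + k) := by
      intro k hk
      obtain ⟨c', hc'⟩ := hpt (i + k) (hone k hk.le)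
      have h6 := hone (k + 1) hk
      have e : i + ((k + 1 : ℕ) : ZMod n) = i + k + 1 := by push_cast; ring
      rw [e, hc'] at h6
      exact ((loc_facts h1 h2 h3 hn hv (i + k) c').2.2.1.mp h6).2
    have hleft : ∀ k : ℕ, 0 < k → k ≤ K → x = Pt v (i + k) (-1) := by
      intro k hk0 hk
      obtain ⟨c', hc'⟩ := hpt (i + k) (hone k hk)
      have h6 := hone (k - 1) (by omega)
      have e : i + ((k - 1 : ℕ) : ZMod n) = i + k - 1 := by
        rw [Nat.cast_sub (by omega)]; push_cast; ring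
      rw [e, hc'] at h6
      have h7 := ((loc_facts h1 h2 h3 hn hv (i + k) c').2.2.2.2.2.mp h6).1
      rw [h7] at hc'
      exact hc'
    refine ⟨i, K, hK, hvis.1, hflat, ?_, by omega, ?_, ?_⟩
    · intro k hk0 hk
      have h6 := hone (k + 1) hk
      have e : i + ((k + 1 : ℕ) : ZMod n) = i + k + 1 := by push_cast; ring
      rw [e, hleft k hk0 hk.le] at h6
      have := ((loc_facts h1 h2 h3 hn hv (i + k) (-1)).2.2.1.mp h6).1
      omega
    · have hr := hvis.2.2.2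
      rw [hleft K hK (le_refl _)] at hr
      exact (loc_facts h1 h2 h3 hn hv (i + K) (-1)).1.mp hr
    · have g2 := (loc_facts h1 h2 h3 hn hv (i + K) (-1)).2.1
      rw [← hleft K hK (le_refl _)] at g2
      rw [← hc] at f5
      ext p
      simp only [cornerBlock, Set.mem_ofPred_eq]
      rw [g2, f5]
      constructor
      · rintro (h | h | h)
        · exact Or.inl h
        · exact Or.inr (Or.inl ⟨h.1, by omega, h.2.2⟩)
        · exact Or.inr (Or.inr ⟨h.1, h.2.1.symm, h.2.2⟩)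
      · rintro (h | h | h)
        · exact Or.inl h
        · exact Or.inr (Or.inl ⟨h.1, by omega, h.2.2⟩)
        · exact Or.inr (Or.inr ⟨h.1, h.2.1.symm, h.2.2⟩)

/-- blocks come from shell points -/
theorem shell_of_block (h1 : S_Bas) (h2 : S_Pt) (h3 : S_Cor) (h4 : S_VisP) (h5 : S_Til)
    (hn : 3 ≤ n) (hV : ConvexPos (vertexSet V)) (hv : Ccw V v) {B : Set (ZMod n × Bool)}
    (hB : IsBlock v B) : ∃ x ∈ shell V, T v x = B := by
  rcases hB with ⟨i, c, hc0, hc1, rfl⟩ | ⟨i, K, hK1, hK2, hflat, htwo, hti, htj, rfl⟩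
  · obtain ⟨f1, f2, f3, f4, f5, f6⟩ := loc_facts h1 h2 h3 hn hv i c
    have hH := (h2 n V v hn hv i).1 c
    obtain ⟨hs, hvis⟩ := shell_of_vis h1 h4 hn hV hv (x := Pt v i c) (i := i) (K := 0) (by omega)
      (by
        intro k hk
        have : k = 0 := by omega
        subst this
        rw [Nat.cast_zero, add_zero]; exact hH) (f4.mpr hc0)
      (by rw [Nat.cast_zero, add_zero]; exact f1.mpr hc1)
    refine ⟨Pt v i c, hs, ?_⟩
    rw [T_eq h5 hn hV hv hvis]
    ext p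
    simp only [stripBlock, Set.mem_ofPred_eq, Nat.cast_zero, add_zero]
    rw [f2, f5]
    constructor
    · rintro (⟨k, hk, hp⟩ | h | h)
      · left
        have : k = 0 := by omega
        subst this
        rw [hp, Nat.cast_zero, add_zero]
      · exact Or.inr (Or.inl h)
      · exact Or.inr (Or.inr h)
    · rintro (h | h | h)
      · exact Or.inl ⟨0, le_refl _, by rw [h, Nat.cast_zero, add_zero]⟩
      · exact Or.inr (Or.inl h)
      · exact Or.inr (Or.inr h)
  · set x := Pt v i (tn v i + 1) with hxdef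
    obtain ⟨f1, f2, f3, f4, f5, f6⟩ := loc_facts h1 h2 h3 hn hv i (tn v i + 1)
    have hpt : ∀ j : ZMod n, H v j x = -1 → ∃ c, x = Pt v j c := (h2 n V v hn hv · |>.2.1 x)
    have hone : ∀ k : ℕ, k ≤ K → H v (i + k) x = -1 ∧ (0 < k → x = Pt v (i + k) (-1)) := by
      intro k
      induction k with
      | zero =>
        intro _
        rw [Nat.cast_zero, add_zero]
        exact ⟨(h2 n V v hn hv i).1 _, fun h => absurd h (lt_irrefl _)⟩
      | succ k ih =>
        intro hk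
        obtain ⟨ih1, ih2⟩ := ih (by omega)
        have e : i + ((k + 1 : ℕ) : ZMod n) = i + k + 1 := by push_cast; ring
        have hnext : H v (i + k + 1) x = -1 := by
          rcases Nat.eq_zero_or_pos k with hk0 | hk0
          · subst hk0
            rw [Nat.cast_zero, add_zero]
            have h6 := hflat 0 (by omega)
            rw [Nat.cast_zero, add_zero] at h6
            exact f3.mpr ⟨rfl, h6⟩
          · rw [ih2 hk0]
            refine (loc_facts h1 h2 h3 hn hv (i + k) (-1)).2.2.1.mpr ⟨?_, hflat k (by omega)⟩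
            rw [htwo k hk0 (by omega)]; norm_num
        rw [e]
        refine ⟨hnext, fun _ => ?_⟩
        obtain ⟨c', hc'⟩ := hpt (i + k + 1) hnext
        have e2 : i + (k : ZMod n) = i + k + 1 - 1 := by ring
        rw [e2, hc'] at ih1
        have h7 := ((loc_facts h1 h2 h3 hn hv (i + k + 1) c').2.2.2.2.2.mp ih1).1
        rw [h7] at hc'
        exact hc'
    have hK := (hone K (le_refl _)).2 (by omega)
    obtain ⟨g1, g2, _⟩ := loc_facts h1 h2 h3 hn hv (i + K) (-1)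
    rw [← hK] at g1 g2
    obtain ⟨hs, hvis⟩ := shell_of_vis h1 h4 hn hV hv (x := x) (i := i) (K := K) hK2
      (fun k hk => (hone k hk).1) (f4.mpr (by omega)) (g1.mpr htj)
    refine ⟨x, hs, ?_⟩
    rw [T_eq h5 hn hV hv hvis]
    ext p
    simp only [cornerBlock, Set.mem_ofPred_eq]
    rw [g2, f5]
    constructor
    · rintro (h | h | h)
      · exact Or.inl h
      · exact Or.inr (Or.inl ⟨h.1, by omega, h.2.2⟩)
      · exact Or.inr (Or.inr ⟨h.1, h.2.1.symm, h.2.2⟩)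
    · rintro (h | h | h)
      · exact Or.inl h
      · exact Or.inr (Or.inl ⟨h.1, by omega, h.2.2⟩)
      · exact Or.inr (Or.inr ⟨h.1, h.2.1.symm, h.2.2⟩)

end

end Pool.Agent.Lib.MP_2d08ba_nt.Word
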