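import Pool.Agent.Lib.MP_2d08ba_nt.Word.Spec

set_option autoImplicit false

/-! The integer points at lattice distance one beyond an edge. -/

namespace Pool.Agent.Lib.MP_2d08ba_nt.Word

open Pool.Agent.Lib.MP_2d08ba_nt

private theorem pt_mult {u p w : ℤ × ℤ} (hp : detZ p u = 1) (h0 : detZ u w = 0) :
    w = detZ p w • u := by
  unfold detZ at *
  apply Prod.ext
  · simp only [Prod.smul_fst, smul_eq_mul]
    linear_combination (-w.1) * hp - p.1 * h0
  · simp only [Prod.smul_snd, smul_eq_mul]
    linear_combination (-w.2) * hp - p.2 * h0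

theorem pt (h1 : S_Bas) : S_Pt := by
  intro n _ V v hn hv i
  have hb := (h1 n V v hn hv).2
  obtain ⟨hg, he, hp, hs⟩ := hb i
  obtain ⟨hg', he', hp', hs'⟩ := hb (i - 1)
  have hself := detZ_self (dir v i)
  have hup : detZ (dir v i) (bez v i) = -1 := by rw [detZ_anti, hp]
  have hone : ∀ c, H v i (Pt v i c) = -1 := by
    intro c
    unfold H Pt
    rw [add_assoc, add_sub_cancel_left, detZ_add_right, detZ_smul_right, hself, hup]
    ring
  refine ⟨hone, ?_, ?_, ?_⟩
  · intro x hx
    have h0 : detZ (dir v i) (x - v i - bez v i) = 0 := by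
      rw [detZ_sub_right, hup]
      have : detZ (dir v i) (x - v i) = -1 := hx
      rw [this]; ring
    have h2 := pt_mult hp h0
    refine ⟨detZ (bez v i) (x - v i - bez v i) +
      detZ (dir v (i - 1)) (bez v i) / sn v (i - 1), ?_⟩
    unfold Pt
    rw [add_sub_cancel_right, ← h2]
    abel
  · intro c
    have e1 : v i = v (i - 1) + glen (v (i - 1 + 1) - v (i - 1)) • dir v (i - 1) := by
      rw [← he', sub_add_cancel, add_sub_cancel]
    have hs1 : sn v (i - 1) = detZ (dir v (i - 1)) (dir v i) := by
      unfold sn; rw [sub_add_cancel]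
    unfold H Pt
    have e2 : v i + bez v i + (c - detZ (dir v (i - 1)) (bez v i) / sn v (i - 1)) • dir v i -
        v (i - 1) = glen (v (i - 1 + 1) - v (i - 1)) • dir v (i - 1) + (bez v i +
          (c - detZ (dir v (i - 1)) (bez v i) / sn v (i - 1)) • dir v i) := by
      conv_lhs => rw [e1]
      abel
    rw [e2, detZ_add_right, detZ_smul_right, detZ_self, detZ_add_right, detZ_smul_right, ← hs1]
    have h3 := Int.emod_add_mul_ediv (detZ (dir v (i - 1)) (bez v i)) (sn v (i - 1))
    linear_combination (-1) * h3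
  · intro c
    unfold H Pt
    have e2 : v i + bez v i + (c - detZ (dir v (i - 1)) (bez v i) / sn v (i - 1)) • dir v i -
        v (i + 1) = bez v i + (c - detZ (dir v (i - 1)) (bez v i) / sn v (i - 1) -
          glen (v (i + 1) - v i)) • dir v i := by
      have e1 : v (i + 1) = v i + glen (v (i + 1) - v i) • dir v i := by
        rw [← he, add_sub_cancel]
      rw [sub_smul _ (glen (v (i + 1) - v i)) (dir v i)]
      conv_lhs => rw [e1]
      abel
    rw [e2, detZ_add_right, detZ_smul_right]
    have hs1 : detZ (dir v (i + 1)) (dir v i) = -sn v i := by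
      unfold sn; rw [detZ_anti]
    rw [hs1]
    have h3 := Int.emod_add_mul_ediv (detZ (dir v (i + 1)) (bez v i)) (sn v i)
    unfold tn
    linear_combination (-1) * h3

end Pool.Agent.Lib.MP_2d08ba_nt.Word
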