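import Pool.Agent.Lib.MP_2d08ba_nt.Word.Defs

set_option autoImplicit false

/-! Pieces of the word criterion (MP_2d08ba_nt): statements with complete proofs in the docstrings.
Everything is about integer points; `H v i x` is the lattice distance of `x` to the line of the
edge `i` (positive on the side of the polygon). -/

namespace Pool.Agent.Lib.MP_2d08ba_nt.Word

open Pool.Agent.Lib.MP_2d08ba_nt

/-- Signed lattice distance of `x` from the line of the edge `i`. -/
def H {n : ℕ} (v : ZMod n → ℤ × ℤ) (i : ZMod n) (x : ℤ × ℤ) : ℤ := detZ (dir v i) (x - v i)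

/-- The integer points at lattice distance one beyond the edge `i`, numbered so that `c = 0` is the
first one weakly inside the line of the edge `i - 1`, and `c = tn v i` the last one weakly inside
the line of the edge `i + 1`. -/
def Pt {n : ℕ} (v : ZMod n → ℤ × ℤ) (i : ZMod n) (c : ℤ) : ℤ × ℤ :=
  v i + bez v i + (c - detZ (dir v (i - 1)) (bez v i) / sn v (i - 1)) • dir v i

/-- `x` lies strictly beyond exactly the consecutive edges `i, ..., i + K` near this run. -/
def Vis {n : ℕ} (v : ZMod n → ℤ × ℤ) (i : ZMod n) (K : ℕ) (x : ℤ × ℤ) : Prop :=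
  K + 2 ≤ n ∧ (∀ k : ℕ, k ≤ K → H v (i + k) x < 0) ∧ 0 ≤ H v (i - 1) x ∧ 0 ≤ H v (i + K + 1) x

/-- S_Ccw. Existence of a counterclockwise numbering. PROOF. Every vertex `a` has a unique next
vertex `b` (`exists_nextZ`, uniqueness: `next_unique` with `edge_iff`, `card_vertexSet`) and a unique
previous one (`exists_prevZ`, `prev_unique`), so `next` is a permutation `σ` of the finite type `V`.
Fix `a ∈ V` and let `C` be its orbit under `σ` (closed under next and previous). CLAIM `C = V`: let
`w ∈ V`, take a linear functional `f` with `f v < f w` for all other vertices `v` (`sep_vertex`) and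
`c ∈ C` with `f c` maximal on `C`; with `p`, `q` the previous and the next vertex of `c` (both in `C`)
`cone_local` gives `w - c = s (p - c) + t (q - c)` with `s, t ≥ 0`, so
`f w - f c = s (f p - f c) + t (f q - f c) ≤ 0`, hence `w = c ∈ C`. So `σ` is a single cycle:
`σ ^ k a`, `k < V.card`, are all the vertices, `σ ^ V.card a = a`; put
`v i = σ ^ (i.val) a` (`ZMod.val`, `ZMod.val_add`, `NeZero V.card`); it is surjective onto `V`, hence
injective because of the cardinalities (`Fintype.bijective_iff_surjective_and_card`). Mathlib: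
`Equiv.Perm.IsCycleOn` and `Equiv.Perm.IsCycleOn.pow_card_apply`, `Equiv.Perm.IsCycleOn.exists_pow_eq`
may help. -/
def S_Ccw : Prop := ∀ V : Finset (ℤ × ℤ), 3 ≤ V.card → ConvexPos (vertexSet V) →
  ∃ v : ZMod V.card → ℤ × ℤ, Ccw V v

/-- S_Bas. PROOF. `glen` of a nonzero vector is positive (`glen_pos`) and divides both coordinates;
the quotient vector has coprime coordinates (`Int.gcd_div_gcd_div_gcd` or by hand), so
`Int.gcd_eq_gcd_ab` gives the Bézout identity; `0 < sn` from `next_pos` (needs `3 ≤ V.card`, and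
`V.card = n` by the first two parts of `Ccw`) and `detZ (e_i) (e_(i+1)) = glen * glen * sn`. -/
def S_Bas : Prop := ∀ (n : ℕ) [NeZero n] (V : Finset (ℤ × ℤ)) (v : ZMod n → ℤ × ℤ), 3 ≤ n →
  Ccw V v → V.card = n ∧ ∀ i, 0 < glen (v (i + 1) - v i) ∧
    v (i + 1) - v i = glen (v (i + 1) - v i) • dir v i ∧ detZ (bez v i) (dir v i) = 1 ∧ 0 < sn v i

/-- S_VisE. A point outside the polygon sees a run of consecutive edges, bounded on both sides by
unseen edges. PROOF. Write `H k = H v k x`; by `S_Bas`,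
`detZ (v (k + 1) - v k) (x - v k) = glen * H k`, so the signs agree.
(1) Some `H k < 0`: otherwise `toR x` satisfies all edge inequalities, hence lies in `poly V`
(look for the lemma that the hull is the intersection of the edge half-planes in Criterion, Bridge,
Bridge2, Bridge3, Shell; otherwise: if `toR x ∉ poly V`, separate by a functional, take the vertex
`a` maximal for it and use `cone_local` at `a`: `x - a = s (c - a) + t (b - a)`, `s, t ≥ 0`,
contradiction).
(2) Some `H k ≥ 0`: otherwise `x` is beyond all edges. For a linear functional `f` let `a` be a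
vertex where `f` is maximal, `c` the previous, `b` the next vertex. From `det (a - c) (x - a) < 0` and
`det (b - a) (x - a) < 0`, `det (a - c) (b - a) > 0`: `x - a = α (a - c) + β (a - b)` with
`α, β > 0` (Cramer), so `f x ≥ f a`. For `f` and `-f`: `f x` is at least the maximum and at most the
minimum of `f` on `V`, so `f` is constant on `V`; take for `f` the two coordinates: `V` would be a
single point.
(3) Let `k0` with `H k0 ≥ 0` and `a` the least natural number with `H (k0 + a) < 0` (exists by (1),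
`1 ≤ a < n`), `i = k0 + a`, `K` the largest number with `H (i + k) < 0` for all `k ≤ K`; since
`k0 + n = k0`, `a + K < n`, so `K + 2 ≤ n`. -/
def S_VisE : Prop := ∀ (n : ℕ) [NeZero n] (V : Finset (ℤ × ℤ)) (v : ZMod n → ℤ × ℤ), 3 ≤ n →
  ConvexPos (vertexSet V) → Ccw V v → ∀ x : ℤ × ℤ, toR x ∉ poly V → ∃ i K, Vis v i K x

/-- S_VisP. All other edges have the point strictly inside. PROOF. Signs as in `S_VisE`
(`detZ (v (k + 1) - v k) w = glen * detZ (dir v k) w`).
(A) If `H v (i - 1) x ≥ 0` and `H v i x < 0` then, with `a = v i`, `detZ (x - a) (w - a) ≥ 0` for all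
`w ∈ V`: by `cone_local` (transfer to the reals) `w - a = s (v (i - 1) - a) + t (v (i + 1) - a)` with
`s, t ≥ 0`; `detZ (x - a) (v (i - 1) - a) ≥ 0` and `detZ (x - a) (v (i + 1) - a) > 0`.
(B) There is only one index `i` with `H v (i - 1) x ≥ 0` and `H v i x < 0`: let `i'` be another one,
`a = v i`, `a' = v i'`, `a ≠ a'`. By (A) twice, `detZ (x - a) (a' - a) ≥ 0` and
`detZ (x - a') (a - a') ≥ 0`, and these two numbers are opposite
(`detZ (x - a') (a - a') = - detZ (x - a) (a' - a)`), so both vanish. In (A) for `w = a'`: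
`0 = s * detZ (x - a) (v (i - 1) - a) + t * detZ (x - a) (v (i + 1) - a)`, so `t = 0`, and
`a' - a = s (v (i - 1) - a)`, `s > 0`; by convex position `a' = v (i - 1)` (a vertex `w` different
from `v (i - 1)`, `a` has `detZ (a - v (i - 1)) (w - v (i - 1)) > 0`), so `i' = i - 1`,
but `H v i' x < 0` and `H v (i - 1) x ≥ 0`.
(C) Now let `k` be as in the statement. If `H v k x < 0`, go back from `k` to the first index `i'`
with `H v (i' - 1) x ≥ 0` (exists: `i - 1` is such an index), `i' = i` by (B), so `k` is in the run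
starting at `i`, which ends at `i + K` because `H v (i + K + 1) x ≥ 0`: contradiction. So
`H v k x ≥ 0`, for all `k` outside the run. If `H v k x = 0`, then `k - 1`, `k + 1` are outside the
run too (`k ≠ i - 1`, `k ≠ i + K + 1` and `k` is not in the run), so `H v (k - 1) x ≥ 0` and
`H v (k + 1) x ≥ 0`; `x = v k + λ (v (k + 1) - v k)` with `λ ≥ 0` from the first one and `λ ≤ 1` from
the second one, so `toR x ∈ poly V` and `H v i x ≥ 0` (`hull_nonneg`), contradiction. -/
def S_VisP : Prop := ∀ (n : ℕ) [NeZero n] (V : Finset (ℤ × ℤ)) (v : ZMod n → ℤ × ℤ), 3 ≤ n →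
  ConvexPos (vertexSet V) → Ccw V v → ∀ (x : ℤ × ℤ) (i : ZMod n) (K : ℕ), Vis v i K x →
  ∀ k : ZMod n, (∀ a : ℕ, a ≤ K → k ≠ i + a) → k ≠ i - 1 → k ≠ i + K + 1 → 0 < H v k x

/-- S_Til. The tilted edge half-planes containing `x`. PROOF. Let `p = (k, s)`. If `k = i + a` with
`a ≤ K`: `H v k x < 0`, so `Tilt` holds. If `k` is none of `i - 1, ..., i + K + 1`: `H v k x > 0`
(`S_VisP`), no `Tilt`, and the right side is false. If `k = i - 1` and `H v k x > 0`: no `Tilt`, right
side false (if also `k = i + K + 1`, then `H v (i + K + 1) x > 0`). If `k = i - 1` and `H v k x = 0`: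
`x - v (i - 1) = λ (v i - v (i - 1))` and `H v i x < 0` gives `λ > 1`
(`det (e_i) (x - v i) = (λ - 1) det (e_i) (e_(i - 1))`, the last determinant is negative), so
`dotZ (v i - v (i - 1)) (x - v i) > 0`: `Tilt` with `s = true`, and not with `s = false`. Similarly
for `k = i + K + 1`: `x - v k = λ (v (k + 1) - v k)` and `H v (k - 1) x < 0` gives `λ < 0`: `Tilt` with
`s = false` only. If `i - 1 = i + K + 1` and `H v (i - 1) x = 0` then `λ > 1` and `λ < 0`,
a contradiction. -/
def S_Til : Prop := ∀ (n : ℕ) [NeZero n] (V : Finset (ℤ × ℤ)) (v : ZMod n → ℤ × ℤ), 3 ≤ n →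
  ConvexPos (vertexSet V) → Ccw V v → ∀ (x : ℤ × ℤ) (i : ZMod n) (K : ℕ), Vis v i K x →
  ∀ p : ZMod n × Bool, Tilt (v p.1) (v (p.1 + 1)) p.2 x ↔
    (∃ k : ℕ, k ≤ K ∧ p.1 = i + k) ∨ (p = (i - 1, true) ∧ H v (i - 1) x = 0) ∨
    (p = (i + K + 1, false) ∧ H v (i + K + 1) x = 0)

/-- S_Pt. PROOF. Put `u = dir v i`, `p = bez v i`, `D' = sn v (i - 1) = detZ (dir v (i - 1)) u`,
`D = sn v i = detZ u (dir v (i + 1))`, `g = glen (v (i + 1) - v i)`. `H v i (Pt v i c) = detZ u p = -1`.
Conversely `H v i x = -1` means `detZ u (x - v i - p) = 0`, so `x - v i - p` is a multiple of `u`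
(`u` is primitive). `H v (i - 1)` may be based at `v i` (`v i - v (i - 1)` is a multiple of
`dir v (i - 1)`), so `H v (i - 1) (Pt v i c) = detZ (dir v (i - 1)) p + (c - detZ (dir v (i - 1)) p / D') * D'
= detZ (dir v (i - 1)) p % D' + c * D'`. `H v (i + 1)` is based at `v (i + 1) = v i + g u`:
`H v (i + 1) (Pt v i c) = detZ (dir v (i + 1)) p - (c - detZ (dir v (i - 1)) p / D' - g) * D`
and `tn v i = g + detZ (dir v (i - 1)) p / D' + detZ (dir v (i + 1)) p / D`. -/
def S_Pt : Prop := ∀ (n : ℕ) [NeZero n] (V : Finset (ℤ × ℤ)) (v : ZMod n → ℤ × ℤ), 3 ≤ n →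
  Ccw V v → ∀ i, (∀ c, H v i (Pt v i c) = -1) ∧ (∀ x, H v i x = -1 → ∃ c, x = Pt v i c) ∧
    (∀ c, H v (i - 1) (Pt v i c) =
      detZ (dir v (i - 1)) (bez v i) % sn v (i - 1) + c * sn v (i - 1)) ∧
    ∀ c, H v (i + 1) (Pt v i c) =
      detZ (dir v (i + 1)) (bez v i) % sn v i + (tn v i - c) * sn v i

/-- S_Cor. The remainders at the two corners. PROOF. `D = sn v i`, `u = dir v i`,
`w = dir v (i + 1)`, `D = detZ u w`, `p = bez v i`, `r = detZ w p % D`. If `D = 1` then `r = 0`. If
`r = 0` then `D ∣ detZ w p`; `z = p + (detZ w p / D) • u` has `detZ w z = 0` and `detZ u z = -1`; `w`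
is primitive, so `z = κ • w` and `-1 = κ * D`, so `D = 1`. If `r = D - 1` then
`z = p + ((detZ w p + 1) / D) • u` has `detZ w z = -1` (as `detZ w u = -D`), `detZ u z = -1`, and Cramer
`D • z = -(detZ w z) • u + (detZ u z) • w = u - w`. Conversely if `u - w = D • z` then
`detZ u z = -1` (from `detZ u (u - w) = -D`), `detZ w z = -1`, so `z = p + κ • u` (primitive) and
`detZ w p - κ D = -1`, so `detZ w p % D = D - 1`. The same at the corner `i - 1` for the edge `i`:
`D' = sn v (i - 1)`, `w' = dir v (i - 1)`, `D' = detZ w' u`. -/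
def S_Cor : Prop := ∀ (n : ℕ) [NeZero n] (V : Finset (ℤ × ℤ)) (v : ZMod n → ℤ × ℤ), 3 ≤ n →
  Ccw V v → ∀ i, (detZ (dir v (i + 1)) (bez v i) % sn v i = 0 ↔ sn v i = 1) ∧
    (detZ (dir v (i + 1)) (bez v i) % sn v i = sn v i - 1 ↔ Flat v i) ∧
    (detZ (dir v (i - 1)) (bez v i) % sn v (i - 1) = 0 ↔ sn v (i - 1) = 1) ∧
    (detZ (dir v (i - 1)) (bez v i) % sn v (i - 1) = sn v (i - 1) - 1 ↔ Flat v (i - 1))

/-- S_Cert. A sparse set of shell points gives a sparse family of tilted half-planes. PROOF. Let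
`X' = X.filter (Tilt (v i) (v (i + 1)) s)`, assumed nonempty. By `exists_LE` there is `ν` with
`LE V (v i) (v (i + 1)) ν`. By `eventually_sep` (`s = true`) or `eventually_sep'` (`s = false`) and
finiteness there is `θ` near `ν` with `0 < dirf θ (toR x - toR w)` for all `x ∈ X'`, `w ∈ V`. With
`α = cos θ`, `β = sin θ`, `γ` the minimum of `dirf θ (toR x)` over `X'`: `Misses V α β γ`, and all
`x ∈ X'` are in this half-plane, so `Sparse` gives `X'.card ≤ w`. -/
def S_Cert : Prop := ∀ (V : Finset (ℤ × ℤ)), 3 ≤ V.card → ConvexPos (vertexSet V) →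
  ∀ (w : ℕ) (X : Finset (ℤ × ℤ)), Sparse V w X → ∀ (a b : ℤ × ℤ) (s : Bool), IsEdgeZ V a b →
  ∀ S ⊆ X, (∀ x ∈ S, Tilt a b s x) → S.card ≤ w

end Pool.Agent.Lib.MP_2d08ba_nt.Word
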