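import Pool.Agent.Lib.MP_2d08ba_nt.Word.Main

set_option autoImplicit false

/-! Second part of the word criterion: the complete invariants of a numbered integer polygon
(edge lengths and Hirzebruch-Jung continued fractions of the angles), and the blocks in terms of
them. Statements with complete proofs in the docstrings. -/

namespace Pool.Agent.Lib.MP_2d08ba_nt.Word

open Pool.Agent.Lib.MP_2d08ba_nt

/-- The recursion `(e, f) ↦ (f, b f - e)`, through the coefficients of the list. -/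
def run : List ℤ → (ℤ × ℤ) × (ℤ × ℤ) → (ℤ × ℤ) × (ℤ × ℤ)
  | [], x => x
  | b :: B, x => run B (x.2, b • x.2 - x.1)

/-- `l`, `c`, `B` are the invariants of the numbered polygon `v`: `l i` is the lattice length of the
edge `i`; for every `i` there is a vector `q i` with `det (dir i, q i) = 1` from which the recursion
with the coefficients `B i ≥ 2` leads from `(dir i, q i)` to `(p (i + 1), dir (i + 1))`, where
`p (i + 1) + q (i + 1) = c (i + 1) • dir (i + 1)`. -/
def Inv {n : ℕ} (v : ZMod n → ℤ × ℤ) (l c : ZMod n → ℤ) (B : ZMod n → List ℤ) : Prop :=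
  (∀ i, l i = glen (v (i + 1) - v i)) ∧ ∃ q : ZMod n → ℤ × ℤ, ∀ i, detZ (dir v i) (q i) = 1 ∧
    (∀ b ∈ B i, 2 ≤ b) ∧
    run (B i) (dir v i, q i) = (c (i + 1) • dir v (i + 1) - q (i + 1), dir v (i + 1))

/-- The strip block, in terms of the invariants. -/
def stripBl {n : ℕ} (t : ZMod n → ℤ) (B : ZMod n → List ℤ) (i : ZMod n) (c : ℤ) :
    Set (ZMod n × Bool) :=
  {p | p.1 = i ∨ (p = (i - 1, true) ∧ c = 0 ∧ B (i - 1) = []) ∨
    (p = (i + 1, false) ∧ c = t i ∧ B i = [])}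

/-- The corner block, in terms of the invariants. -/
def cornerBl {n : ℕ} (t : ZMod n → ℤ) (B : ZMod n → List ℤ) (i : ZMod n) (K : ℕ) :
    Set (ZMod n × Bool) :=
  {p | (∃ k : ℕ, k ≤ K ∧ p.1 = i + k) ∨ (p = (i - 1, true) ∧ t i = -1 ∧ B (i - 1) = []) ∨
    (p = (i + K + 1, false) ∧ t (i + K) = -1 ∧ B (i + K) = [])}

/-- The blocks, in terms of the numbers `t i = l i - c i` and the lists `B i`. -/
def IsBl {n : ℕ} (t : ZMod n → ℤ) (B : ZMod n → List ℤ) (S : Set (ZMod n × Bool)) : Prop :=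
  (∃ (i : ZMod n) (c : ℤ), 0 ≤ c ∧ c ≤ t i ∧ S = stripBl t B i c) ∨
  (∃ (i : ZMod n) (K : ℕ), 1 ≤ K ∧ K + 2 ≤ n ∧ (∀ k : ℕ, k < K → ∀ b ∈ B (i + k), b = 2) ∧
    (∀ k : ℕ, 0 < k → k < K → t (i + k) = -2) ∧ -1 ≤ t i ∧ -1 ≤ t (i + K) ∧
    S = cornerBl t B i K)

/-- S_HJex. Existence of the continued fraction. PROOF. Strong induction on `D = detZ u w` (as a
natural number), for all `u`, `w`. Let `q0` be an integer vector with `detZ u q0 = 1` (from the Bézout
relation of `u`) and `q = q0 + k • u` with `0 ≤ detZ q w < D` (`detZ q w = detZ q0 w + k D`, take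
`k = -(detZ q0 w / D)`), `D' = detZ q w`. If `D' = 0`: `q` and `w` are primitive and parallel
(`w = m • q`, `D = m`, and `w` primitive, so `m = 1`), so `w = q` and `B = []`. If `D' > 0`: the
induction hypothesis for `(q, w)` (`q` is primitive because `detZ u q = 1`) gives `q'`, `B'` with
`detZ q q' = 1`, `(run B' (q, q')).2 = w`. `detZ q (q' + u) = 0`, so `q' + u = b • q`; with `S_HJpr` for
`(q, q')`: `0 ≤ detZ q' w < D'` and `D = detZ u w = b D' - detZ q' w`, `D > D'`, so `b D' > D'`,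
`b ≥ 2`. `B = b :: B'`. -/
def S_HJex : Prop := ∀ u w : ℤ × ℤ, 0 < detZ u w → (∃ s t : ℤ, u.1 * s + u.2 * t = 1) →
  (∃ s t : ℤ, w.1 * s + w.2 * t = 1) →
  ∃ (q : ℤ × ℤ) (B : List ℤ), detZ u q = 1 ∧ (∀ b ∈ B, 2 ≤ b) ∧ (run B (u, q)).2 = w

/-- S_HJpr. Properties. PROOF. (1) `detZ x.1 x.2` is invariant under the recursion, so
`detZ p w = 1`. (2) If `f` is additive and `0 ≤ f x.1 < f x.2`, then the same holds for
`run B x` (`b ≥ 2`: `f (b x.2 - x.1) = b f x.2 - f x.1 > f x.2`). With `f = detZ u`, `x = (u, q)`: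
`0 ≤ detZ u p < detZ u w`. (3) `0 ≤ detZ q w < detZ u w` by induction on `B` for all `u`, `q`: for
`B = []`, `w = q`. For `b :: B` put `q' = b q - u`; by induction `0 ≤ detZ q' w < detZ q w`, and
`detZ u w = b detZ q w - detZ q' w > (b - 1) detZ q w ≥ detZ q w`. So also: `detZ u w = 1` only if
`B = []`, because for `b :: B`: `detZ u w > detZ q w > 0`. (4) If all entries are `2` then
`run B (u, q) = (u + k (q - u), u + (k + 1) (q - u))`, `k` the length, so `D = detZ u w = k + 1` and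
`u - w = D • (u - q)`. Conversely let `u - w = D • z`, `D = detZ u w`. Induction on `B`, for `b :: B`:
`D > 1`, `detZ u z = -1`, `detZ z w = 1`, `q = κ u - z`, `detZ q w = κ D - 1` in `[0, D)`, so `κ = 1`,
`detZ q w = D - 1`; `0 ≤ b (D - 1) - D < D - 1` gives `b = 2`; `q' = 2 q - u` and
`q - w = (D - 1) • z = detZ q w • z`: induction. -/
def S_HJpr : Prop := ∀ (u q p w : ℤ × ℤ) (B : List ℤ), detZ u q = 1 → (∀ b ∈ B, 2 ≤ b) →
  run B (u, q) = (p, w) → detZ p w = 1 ∧ (0 ≤ detZ u p ∧ detZ u p < detZ u w) ∧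
    (0 ≤ detZ q w ∧ detZ q w < detZ u w) ∧ (B = [] ↔ detZ u w = 1) ∧
    ((∀ b ∈ B, b = 2) ↔ ∃ z : ℤ × ℤ, u - w = detZ u w • z)

/-- S_HJun. Uniqueness. PROOF. Induction on `B` for all `u`, `q`, `q'`, `B'`. `q' - q = k • u`
(as `detZ u (q' - q) = 0` and `u` is primitive), and `detZ q w`, `detZ q' w` are both in
`[0, detZ u w)` (`S_HJpr`) and differ by `k * detZ u w`, so `k = 0`, `q = q'`. If one of the lists is
empty, then `detZ u w = 1` and so is the other one (`S_HJpr`). If `B = b :: B1`, `B' = b' :: B1'`: the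
pairs `(q, b q - u)` and `(q, b' q - u)` have the same end `w`, so by induction `b q - u = b' q - u`
and `B1 = B1'`; `q ≠ 0`, so `b = b'`. -/
def S_HJun : Prop := ∀ (u q q' w : ℤ × ℤ) (B B' : List ℤ), detZ u q = 1 → detZ u q' = 1 →
  (∀ b ∈ B, 2 ≤ b) → (∀ b ∈ B', 2 ≤ b) → (run B (u, q)).2 = w → (run B' (u, q')).2 = w →
  q = q' ∧ B = B'

/-- S_Tn. The number `tn` from the invariants. PROOF. Let `u = dir v i`, `P = bez v i`,
`D' = sn v (i - 1)`, `D = sn v i`, `p + q = c • u`. `detZ (p - P) u = 0` gives `p = P + κ₁ • u`, and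
`detZ (dir v (i - 1)) p = detZ (dir v (i - 1)) P + κ₁ D'` lies in `[0, D')`, so
`detZ (dir v (i - 1)) P / D' = -κ₁`. `detZ u (q + P) = 0` gives `q = -P + κ₂ • u`, and
`detZ q (dir v (i + 1)) = detZ (dir v (i + 1)) P + κ₂ D` lies in `[0, D)`, so
`detZ (dir v (i + 1)) P / D = -κ₂`. `c = κ₁ + κ₂`. -/
def S_Tn : Prop := ∀ (n : ℕ) [NeZero n] (V : Finset (ℤ × ℤ)) (v : ZMod n → ℤ × ℤ), 3 ≤ n →
  Ccw V v → ∀ (i : ZMod n) (p q : ℤ × ℤ) (c : ℤ), detZ p (dir v i) = 1 → detZ (dir v i) q = 1 →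
    p + q = c • dir v i →
    0 ≤ detZ (dir v (i - 1)) p → detZ (dir v (i - 1)) p < sn v (i - 1) →
    0 ≤ detZ q (dir v (i + 1)) → detZ q (dir v (i + 1)) < sn v i →
    tn v i = glen (v (i + 1) - v i) - c

/-- S_Aff. The invariants determine the numbered polygon up to `SL₂(ℤ)` and translations. PROOF.
(1) Let `Inv v l c B` and `Inv v' l c B` with `q`, `q'`. Put
`M x = detZ x (q 0) • dir v' 0 + detZ (dir v 0) x • q' 0`: a linear map with integer matrix of
determinant `detZ (dir v' 0) (q' 0) = 1` (as `detZ (dir v 0) (q 0) = 1`), and `M (dir v 0) = dir v' 0`,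
`M (q 0) = q' 0`. `run` commutes with `M` (applied to both components), so by induction on `k : ℕ`:
`M (dir v k) = dir v' k`, `M (q k) = q' k` (`q (k + 1) = c (k + 1) • dir v (k + 1) - p (k + 1)`). As
`v (i + 1) - v i = l i • dir v i`, `v' (k + 1) - v' k = M (v (k + 1) - v k)`, so
`v' i = M (v i) + (v' 0 - M (v 0))`. (2) Let `v' i = M (v i) + t`, `det M = 1`. `glen` is invariant
under `M` (the gcd of `M x` divides the gcd of `x` and conversely with the inverse matrix), so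
`dir v' i = M (dir v i)` (from `glen • dir`), and `q' i = M (q i)` works (`run` commutes with `M`,
`detZ (M x) (M y) = detZ x y`). -/
def S_Aff : Prop := ∀ (n : ℕ) [NeZero n] (V V' : Finset (ℤ × ℤ)) (v v' : ZMod n → ℤ × ℤ), 3 ≤ n →
  Ccw V v → Ccw V' v' → ∀ (l c : ZMod n → ℤ) (B : ZMod n → List ℤ), Inv v l c B →
    (Inv v' l c B ↔ ∃ a b d e : ℤ, a * e - b * d = 1 ∧ ∃ t : ℤ × ℤ, ∀ i,
      v' i = (a * (v i).1 + b * (v i).2 + t.1, d * (v i).1 + e * (v i).2 + t.2))

end Pool.Agent.Lib.MP_2d08ba_nt.Word
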