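import Pool.Agent.Lib.MP_2d08ba_nt.Word.Spec

/-!
# Word criterion: module Til (the tilted edge half-planes which contain a point)
-/

set_option autoImplicit false

namespace Pool.Agent.Lib.MP_2d08ba_nt.Word

open Pool.Agent.Lib.MP_2d08ba_nt

private theorem til_mul {p d w : ℤ × ℤ} (h1 : detZ p d = 1) (h2 : detZ d w = 0) :
    w = detZ p w • d := by
  unfold detZ at h1 h2 ⊢
  ext
  · simp only [Prod.smul_fst, smul_eq_mul]
    linear_combination (-w.1) * h1 - p.1 * h2
  · simp only [Prod.smul_snd, smul_eq_mul]
    linear_combination (-w.2) * h1 - p.2 * h2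

private theorem til_det_smul (g : ℤ) (x y : ℤ × ℤ) : detZ (g • x) y = g * detZ x y := by
  unfold detZ
  simp only [Prod.smul_fst, Prod.smul_snd, smul_eq_mul]
  ring

private theorem til_det_smul' (g : ℤ) (x y : ℤ × ℤ) : detZ x (g • y) = g * detZ x y := by
  unfold detZ
  simp only [Prod.smul_fst, Prod.smul_snd, smul_eq_mul]
  ring

private theorem til_dot (g m : ℤ) (d : ℤ × ℤ) : dotZ (g • d) (m • d) = g * m * dotZ d d := by
  unfold dotZ
  simp only [Prod.smul_fst, Prod.smul_snd, smul_eq_mul]
  ring

private theorem til_dot_pos {p d : ℤ × ℤ} (h : detZ p d = 1) : 0 < dotZ d d := by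
  unfold detZ at h
  unfold dotZ
  have h1 : d.1 ≠ 0 ∨ d.2 ≠ 0 := by
    by_contra hc
    push Not at hc
    rw [hc.1, hc.2] at h
    omega
  have e1 := mul_self_nonneg d.1
  have e2 := mul_self_nonneg d.2
  rcases h1 with h1 | h1
  · have := mul_self_pos.mpr h1
    omega
  · have := mul_self_pos.mpr h1
    omega

theorem til (h1 : S_Bas) (h2 : S_VisP) : S_Til := by
  intro n _ V v hn hV hC x i K hvis
  rintro ⟨k, s⟩
  obtain ⟨-, hB⟩ := h1 n V v hn hC
  have hP := h2 n V v hn hV hC x i K hvis
  obtain ⟨-, hrun, hl, hr⟩ := hvis
  obtain ⟨hg, he, hbz, -⟩ := hB k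
  -- the determinant of the edge
  have hdet : detZ (v (k + 1) - v k) (x - v k) = glen (v (k + 1) - v k) * H v k x := by
    conv_lhs => rw [he]
    rw [til_det_smul]
    rfl
  by_cases hk : ∃ a : ℕ, a ≤ K ∧ k = i + a
  · obtain ⟨a, ha, rfl⟩ := hk
    refine ⟨fun _ => Or.inl ⟨a, ha, rfl⟩, fun _ => Or.inl ?_⟩
    change detZ (v (i + a + 1) - v (i + a)) (x - v (i + a)) < 0
    rw [hdet]
    exact mul_neg_of_pos_of_neg hg (hrun a ha)
  · have hk' : ∀ a : ℕ, a ≤ K → k ≠ i + a := fun a ha h => hk ⟨a, ha, h⟩
    have h0 : 0 ≤ H v k x := by
      by_cases e1 : k = i - 1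
      · rw [e1]
        exact hl
      by_cases e2 : k = i + K + 1
      · rw [e2]
        exact hr
      exact (hP k hk' e1 e2).le
    change (detZ (v (k + 1) - v k) (x - v k) < 0 ∨ (detZ (v (k + 1) - v k) (x - v k) = 0 ∧
      if s then 0 < dotZ (v (k + 1) - v k) (x - v (k + 1)) else
        dotZ (v (k + 1) - v k) (x - v k) < 0)) ↔ _
    rcases h0.lt_or_eq with h3 | h3
    · have h4 : 0 < detZ (v (k + 1) - v k) (x - v k) := by
        rw [hdet]
        exact mul_pos hg h3
      constructor
      · rintro (h | ⟨h, -⟩)
        · omega
        · omega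
      · rintro (⟨a, ha, h⟩ | ⟨h, h5⟩ | ⟨h, h5⟩)
        · exact absurd h (hk' a ha)
        · have h6 : k = i - 1 := congrArg Prod.fst h
          rw [← h6] at h5
          omega
        · have h6 : k = i + K + 1 := congrArg Prod.fst h
          rw [← h6] at h5
          omega
    · have h3 : H v k x = 0 := h3.symm
      obtain ⟨g, hgd⟩ : ∃ g, g = glen (v (k + 1) - v k) := ⟨_, rfl⟩
      obtain ⟨m, hmd⟩ : ∃ m, m = detZ (bez v k) (x - v k) := ⟨_, rfl⟩
      rw [← hgd] at hg he
      have hx : x - v k = m • dir v k := by
        rw [hmd]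
        exact til_mul hbz h3
      have hx' : x - v (k + 1) = (m - g) • dir v k := by
        have : x - v (k + 1) = (x - v k) - (v (k + 1) - v k) := by abel
        rw [this, hx, he, sub_smul]
      have hdd := til_dot_pos hbz
      have h5 : detZ (v (k + 1) - v k) (x - v k) = 0 := by
        rw [hdet, h3, mul_zero]
      have t1 : 0 < dotZ (v (k + 1) - v k) (x - v (k + 1)) ↔ g < m := by
        rw [he, hx', til_dot]
        constructor
        · intro h
          have h6 := (mul_pos_iff_of_pos_right hdd).mp h
          have h7 := (mul_pos_iff_of_pos_left hg).mp h6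
          omega
        · intro h
          exact mul_pos (mul_pos hg (by omega)) hdd
      have t2 : dotZ (v (k + 1) - v k) (x - v k) < 0 ↔ m < 0 := by
        rw [he, hx, til_dot]
        constructor
        · intro h
          by_contra hc
          have : 0 ≤ g * m * dotZ (dir v k) (dir v k) :=
            mul_nonneg (mul_nonneg hg.le (by omega)) hdd.le
          omega
        · intro h
          exact mul_neg_of_neg_of_pos (mul_neg_of_pos_of_neg hg h) hdd
      -- the two ends of the run
      have r1 : k = i - 1 → g < m := by
        intro hki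
        have hik : i = k + 1 := by rw [hki]; ring
        have h6 := hrun 0 (Nat.zero_le _)
        rw [Nat.cast_zero, add_zero] at h6
        have h7 : H v i x = -((m - g) * sn v k) := by
          change detZ (dir v i) (x - v i) = _
          rw [hik, hx', til_det_smul']
          unfold sn detZ
          ring
        rw [h7] at h6
        have h8 : 0 < (m - g) * sn v k := by omega
        have h9 := (mul_pos_iff_of_pos_right (hB k).2.2.2).mp h8
        omega
      have r2 : k = i + K + 1 → m < 0 := by
        intro hki
        have h6 := hrun K le_rfl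
        obtain ⟨j, hj⟩ : ∃ j, j = i + (K : ZMod n) := ⟨_, rfl⟩
        rw [← hj] at hki h6
        have h7 : H v j x = m * sn v j := by
          change detZ (dir v j) (x - v j) = _
          have e1 : x - v j = (x - v k) + (v (j + 1) - v j) := by
            rw [hki]
            abel
          rw [e1, hx, (hB j).2.1, hki]
          unfold sn detZ
          simp only [Prod.fst_add, Prod.snd_add, Prod.smul_fst, Prod.smul_snd, smul_eq_mul]
          ring
        rw [h7] at h6
        by_contra hc
        have := mul_nonneg (by omega : 0 ≤ m) (hB j).2.2.2.le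
        omega
      have hends : k = i - 1 ∨ k = i + K + 1 := by
        by_contra hc
        push Not at hc
        have := hP k hk' hc.1 hc.2
        omega
      rw [h5]
      cases s with
      | true =>
        simp only [if_true]
        rw [t1]
        constructor
        · rintro (h | ⟨-, h⟩)
          · omega
          · rcases hends with e | e
            · exact Or.inr (Or.inl ⟨by rw [e], by rw [← e]; exact h3⟩)
            · have := r2 e
              omega
        · rintro (⟨a, ha, h⟩ | ⟨h, -⟩ | ⟨h, -⟩)
          · exact absurd h (hk' a ha)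
          · exact Or.inr ⟨trivial, r1 (congrArg Prod.fst h)⟩
          · exact absurd (congrArg Prod.snd h) (by simp)
      | false =>
        simp only [Bool.false_eq_true, if_false]
        rw [t2]
        constructor
        · rintro (h | ⟨-, h⟩)
          · omega
          · rcases hends with e | e
            · have := r1 e
              omega
            · exact Or.inr (Or.inr ⟨by rw [e], by rw [← e]; exact h3⟩)
        · rintro (⟨a, ha, h⟩ | ⟨h, -⟩ | ⟨h, -⟩)
          · exact absurd h (hk' a ha)
          · exact absurd (congrArg Prod.snd h) (by simp)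
          · exact Or.inr ⟨trivial, r2 (congrArg Prod.fst h)⟩

end Pool.Agent.Lib.MP_2d08ba_nt.Word
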