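import Pool.Agent.Lib.MP_2d08ba_nt.Word.SpecH

set_option autoImplicit false

/-! The number `tn` from the invariants. -/

namespace Pool.Agent.Lib.MP_2d08ba_nt.Word

open Pool.Agent.Lib.MP_2d08ba_nt

private theorem tnh_mult {u p w : ℤ × ℤ} (hp : detZ p u = 1) (h0 : detZ u w = 0) :
    w = detZ p w • u := by
  unfold detZ at *
  apply Prod.ext
  · simp only [Prod.smul_fst, smul_eq_mul]
    linear_combination (-w.1) * hp - p.1 * h0
  · simp only [Prod.smul_snd, smul_eq_mul]
    linear_combination (-w.2) * hp - p.2 * h0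

private theorem tnh_div (x y k s : ℤ) (h : y = x + k * s) (h0 : 0 ≤ y) (h1 : y < s) :
    x / s = -k := by
  have hs : s ≠ 0 := by omega
  have h2 : x = y + (-k) * s := by rw [h]; ring
  rw [h2, Int.add_mul_ediv_right _ _ hs, Int.ediv_eq_zero_of_lt h0 h1, zero_add]

theorem tnh (h1 : S_Bas) : S_Tn := by
  intro n _ V v hn hv i p q c hp hq hpq h2 h3 h4 h5
  obtain ⟨-, -, hP, -⟩ := (h1 n V v hn hv).2 i
  have e1 : sn v (i - 1) = detZ (dir v (i - 1)) (dir v i) := by
    unfold sn
    rw [sub_add_cancel]
  have e2 : sn v i = detZ (dir v i) (dir v (i + 1)) := rfl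
  generalize hu : dir v i = u at hp hq hpq hP e1 e2
  generalize hPP : bez v i = P at hP
  have hup : detZ u p = -1 := by rw [detZ_anti, hp]
  have huP : detZ u P = -1 := by rw [detZ_anti, hP]
  have m1 : p - P = detZ P (p - P) • u := by
    refine tnh_mult hP ?_
    rw [detZ_sub_right, hup, huP, sub_self]
  have m2 : q + P = detZ P (q + P) • u := by
    refine tnh_mult hP ?_
    rw [detZ_add_right, hq, huP]
    norm_num
  have d1 : detZ (dir v (i - 1)) p =
      detZ (dir v (i - 1)) P + detZ P (p - P) * sn v (i - 1) := by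
    have h6 : detZ (dir v (i - 1)) (p - P) = detZ P (p - P) * sn v (i - 1) := by
      conv_lhs => rw [m1]
      rw [detZ_smul_right, ← e1]
    rw [detZ_sub_right] at h6
    linarith
  have d2 : detZ q (dir v (i + 1)) =
      detZ (dir v (i + 1)) P + detZ P (q + P) * sn v i := by
    have h6 : detZ (q + P) (dir v (i + 1)) = detZ P (q + P) * sn v i := by
      conv_lhs => rw [m2]
      rw [detZ_smul_left, ← e2]
    have h7 : detZ (q + P) (dir v (i + 1)) =
        detZ q (dir v (i + 1)) - detZ (dir v (i + 1)) P := by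
      unfold detZ
      simp only [Prod.fst_add, Prod.snd_add]
      ring
    rw [h7] at h6
    linarith
  have f1 := tnh_div _ _ _ _ d1 h2 h3
  have f2 := tnh_div _ _ _ _ d2 h4 h5
  have hc : c = detZ P (p - P) + detZ P (q + P) := by
    have h6 : detZ P (p + q) = c := by
      rw [hpq, detZ_smul_right, hP, mul_one]
    rw [detZ_add_right] at h6
    rw [detZ_sub_right, detZ_add_right, detZ_self, ← h6]
    ring
  unfold tn
  rw [hPP, f1, f2, hc]
  ring

end Pool.Agent.Lib.MP_2d08ba_nt.Word
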