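import Pool.Agent.Lib.MP_2d08ba_nt.Word.Spec

set_option autoImplicit false

/-! A point outside the polygon sees a run of consecutive edges. -/

namespace Pool.Agent.Lib.MP_2d08ba_nt.Word

open Pool.Agent.Lib.MP_2d08ba_nt

variable {n : ℕ}

/-- signs of the lattice distance -/
private theorem visE_sign (h1 : S_Bas) [NeZero n] {V : Finset (ℤ × ℤ)} {v : ZMod n → ℤ × ℤ}
    (hn : 3 ≤ n) (hv : Ccw V v) (k : ZMod n) (w : ℤ × ℤ) :
    0 < glen (v (k + 1) - v k) ∧
      detZ (v (k + 1) - v k) w = glen (v (k + 1) - v k) * detZ (dir v k) w := by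
  obtain ⟨_, h2⟩ := h1 n V v hn hv
  obtain ⟨h3, h4, _, _⟩ := h2 k
  refine ⟨h3, ?_⟩
  conv_lhs => rw [h4]
  exact detZ_smul_left _ _ _

private theorem visE_neg (h1 : S_Bas) [NeZero n] {V : Finset (ℤ × ℤ)} {v : ZMod n → ℤ × ℤ}
    (hn : 3 ≤ n) (hv : Ccw V v) (k : ZMod n) (x : ℤ × ℤ) :
    H v k x < 0 ↔ detZ (v (k + 1) - v k) (x - v k) < 0 := by
  obtain ⟨h2, h3⟩ := visE_sign h1 hn hv k (x - v k)
  rw [h3]
  unfold H
  constructor
  · intro h
    exact mul_neg_of_pos_of_neg h2 h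
  · intro h
    by_contra hc
    push Not at hc
    have := mul_nonneg h2.le hc
    omega

/-- a point beyond all edges is at least as far as all vertices, in every direction -/
private theorem visE_max (h1 : S_Bas) [NeZero n] {V : Finset (ℤ × ℤ)} {v : ZMod n → ℤ × ℤ}
    (hn : 3 ≤ n) (hv : Ccw V v) {x : ℤ × ℤ} (hx : ∀ k, H v k x < 0) (s t : ℤ) :
    ∀ w ∈ V, s * w.1 + t * w.2 ≤ s * x.1 + t * x.2 := by
  have hcard : V.card = n := (h1 n V v hn hv).1
  have hne : V.Nonempty := by rw [← Finset.card_pos]; omega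
  obtain ⟨a, ha, hmax⟩ := Finset.exists_max_image V (fun w => s * w.1 + t * w.2) hne
  obtain ⟨j, hj⟩ := (hv.2.1 a).1 ha
  have e1 := hv.2.2 j
  have e2 := hv.2.2 (j - 1)
  have hj1 : j - 1 + 1 = j := by ring
  rw [hj1] at e2
  have h2 := (visE_neg h1 hn hv j x).1 (hx j)
  have h3 := (visE_neg h1 hn hv (j - 1) x).1 (hx (j - 1))
  rw [hj1] at h3
  have h4 := next_pos (by omega) e2 e1
  have h5 : s * (v (j + 1)).1 + t * (v (j + 1)).2 ≤ s * a.1 + t * a.2 := hmax _ e1.2.1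
  have h6 : s * (v (j - 1)).1 + t * (v (j - 1)).2 ≤ s * a.1 + t * a.2 := hmax _ e2.1
  intro w hw
  refine (hmax w hw).trans ?_
  rw [hj] at h2 h3 h4
  set b := v (j + 1)
  set c := v (j - 1)
  unfold detZ at h2 h3 h4
  simp only [Prod.fst_sub, Prod.snd_sub] at h2 h3 h4
  by_contra hcon
  push Not at hcon
  have e : ((a.1 - c.1) * (b.2 - a.2) - (a.2 - c.2) * (b.1 - a.1)) *
      (s * (x.1 - a.1) + t * (x.2 - a.2)) =
      (-((b.1 - a.1) * (x.2 - a.2) - (b.2 - a.2) * (x.1 - a.1))) *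
        (s * (a.1 - c.1) + t * (a.2 - c.2)) +
      (-((a.1 - c.1) * (x.2 - c.2) - (a.2 - c.2) * (x.1 - c.1))) *
        (s * (a.1 - b.1) + t * (a.2 - b.2)) := by ring
  have h7 : 0 ≤ (-((b.1 - a.1) * (x.2 - a.2) - (b.2 - a.2) * (x.1 - a.1))) *
        (s * (a.1 - c.1) + t * (a.2 - c.2)) := mul_nonneg (by omega) (by linarith)
  have h8 : 0 ≤ (-((a.1 - c.1) * (x.2 - c.2) - (a.2 - c.2) * (x.1 - c.1))) *
        (s * (a.1 - b.1) + t * (a.2 - b.2)) := mul_nonneg (by omega) (by linarith)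
  have h9 : ((a.1 - c.1) * (b.2 - a.2) - (a.2 - c.2) * (b.1 - a.1)) *
      (s * (x.1 - a.1) + t * (x.2 - a.2)) < 0 := mul_neg_of_pos_of_neg h4 (by linarith)
  linarith

private theorem visE_exists_nonneg (h1 : S_Bas) [NeZero n] {V : Finset (ℤ × ℤ)}
    {v : ZMod n → ℤ × ℤ} (hn : 3 ≤ n) (hv : Ccw V v) (x : ℤ × ℤ) : ∃ k, 0 ≤ H v k x := by
  by_contra hc
  push Not at hc
  have hcard : V.card = n := (h1 n V v hn hv).1
  have h2 : ∀ w ∈ V, w = x := by
    intro w hw
    have a1 := visE_max h1 hn hv hc 1 0 w hw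
    have a2 := visE_max h1 hn hv hc (-1) 0 w hw
    have a3 := visE_max h1 hn hv hc 0 1 w hw
    have a4 := visE_max h1 hn hv hc 0 (-1) w hw
    exact Prod.ext (by omega) (by omega)
  have h3 : V.card ≤ 1 := by
    rw [Finset.card_le_one]
    intro a ha b hb
    rw [h2 a ha, h2 b hb]
  omega

private theorem visE_exists_neg (h1 : S_Bas) [NeZero n] {V : Finset (ℤ × ℤ)}
    {v : ZMod n → ℤ × ℤ} (hn : 3 ≤ n) (hV : ConvexPos (vertexSet V)) (hv : Ccw V v) (x : ℤ × ℤ)
    (hx : toR x ∉ poly V) : ∃ k, H v k x < 0 := by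
  have hcard : V.card = n := (h1 n V v hn hv).1
  have h2 : ¬ ∀ a b, IsEdge (vertexSet V) a b → 0 ≤ det (b - a) (toR x - a) := by
    intro h
    exact hx ((mem_hull_iff hV (by rw [card_vertexSet]; omega) (toR x)).2 h)
  push Not at h2
  obtain ⟨a', b', he, hneg⟩ := h2
  obtain ⟨a, b, heZ, rfl, rfl⟩ := edge_lift he
  obtain ⟨k, hk⟩ := (hv.2.1 a).1 heZ.1
  have hb : b = v (k + 1) := by
    have e1 := hv.2.2 k
    rw [hk] at e1
    exact toR_injective (next_unique (edge_iff.2 heZ) (edge_iff.2 e1))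
  refine ⟨k, (visE_neg h1 hn hv k x).2 ?_⟩
  rw [det_toR'] at hneg
  rw [hk, ← hb]
  exact_mod_cast hneg

theorem visE (h1 : S_Bas) : S_VisE := by
  intro n _ V v hn hV hv x hx
  obtain ⟨k1, hk1⟩ := visE_exists_neg h1 hn hV hv x hx
  obtain ⟨k0, hk0⟩ := visE_exists_nonneg h1 hn hv x
  have hex : ∃ a : ℕ, H v (k0 + a) x < 0 := ⟨(k1 - k0).val, by
    rw [ZMod.natCast_zmod_val]
    rw [show k0 + (k1 - k0) = k1 by ring]
    exact hk1⟩
  classical
  set a := Nat.find hex with ha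
  have ha1 : H v (k0 + a) x < 0 := Nat.find_spec hex
  have ha2 : ∀ b < a, 0 ≤ H v (k0 + b) x := fun b hb => by
    have := Nat.find_min hex hb
    push Not at this
    exact this
  have ha3 : a ≠ 0 := by
    intro h
    rw [h] at ha1
    simp only [Nat.cast_zero, add_zero] at ha1
    omega
  have ha4 : a < n := by
    have h2 : a ≤ (k1 - k0).val := Nat.find_min' hex (by
      rw [ZMod.natCast_zmod_val]
      rw [show k0 + (k1 - k0) = k1 by ring]
      exact hk1)
    have h3 := ZMod.val_lt (k1 - k0)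
    omega
  have hn0 : ((n : ℕ) : ZMod n) = 0 := ZMod.natCast_self n
  have hex2 : ∃ j : ℕ, 0 ≤ H v (k0 + a + j) x := ⟨n - a, by
    have h2 : (a : ZMod n) + ((n - a : ℕ) : ZMod n) = 0 := by
      rw [← Nat.cast_add, show a + (n - a) = n by omega, hn0]
    rw [add_assoc, h2, add_zero]
    exact hk0⟩
  set j := Nat.find hex2 with hj
  have hj1 : 0 ≤ H v (k0 + a + j) x := Nat.find_spec hex2
  have hj2 : ∀ b < j, H v (k0 + a + b) x < 0 := fun b hb => by
    have := Nat.find_min hex2 hb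
    push Not at this
    exact this
  have hj3 : j ≠ 0 := by
    intro h
    rw [h] at hj1
    simp only [Nat.cast_zero, add_zero] at hj1
    omega
  have hj4 : j ≤ n - a := Nat.find_min' hex2 (by
    have h2 : (a : ZMod n) + ((n - a : ℕ) : ZMod n) = 0 := by
      rw [← Nat.cast_add, show a + (n - a) = n by omega, hn0]
    rw [add_assoc, h2, add_zero]
    exact hk0)
  refine ⟨k0 + a, j - 1, by omega, fun k hk => hj2 k (by omega), ?_, ?_⟩
  · have h2 := ha2 (a - 1) (by omega)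
    have h3 : k0 + (a : ZMod n) - 1 = k0 + ((a - 1 : ℕ) : ZMod n) := by
      rw [Nat.cast_sub (by omega)]
      push_cast
      ring
    rw [h3]
    exact h2
  · have h3 : k0 + (a : ZMod n) + ((j - 1 : ℕ) : ZMod n) + 1 = k0 + a + (j : ZMod n) := by
      rw [Nat.cast_sub (by omega)]
      push_cast
      ring
    rw [h3]
    exact hj1

end Pool.Agent.Lib.MP_2d08ba_nt.Word
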