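import Pool.Agent.Lib.MP_2d08ba_nt.Word.Spec

set_option autoImplicit false

/-! Edges outside of the visible run have the point strictly inside. -/

namespace Pool.Agent.Lib.MP_2d08ba_nt.Word

open Pool.Agent.Lib.MP_2d08ba_nt

variable {n : ℕ}

private theorem visP_sign (h1 : S_Bas) [NeZero n] {V : Finset (ℤ × ℤ)} {v : ZMod n → ℤ × ℤ}
    (hn : 3 ≤ n) (hv : Ccw V v) (k : ZMod n) (w : ℤ × ℤ) :
    0 < glen (v (k + 1) - v k) ∧
      detZ (v (k + 1) - v k) w = glen (v (k + 1) - v k) * detZ (dir v k) w := by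
  obtain ⟨_, h2⟩ := h1 n V v hn hv
  obtain ⟨h3, h4, _, _⟩ := h2 k
  refine ⟨h3, ?_⟩
  conv_lhs => rw [h4]
  exact detZ_smul_left _ _ _

private theorem visP_neg (h1 : S_Bas) [NeZero n] {V : Finset (ℤ × ℤ)} {v : ZMod n → ℤ × ℤ}
    (hn : 3 ≤ n) (hv : Ccw V v) (k : ZMod n) (x : ℤ × ℤ) :
    H v k x < 0 ↔ detZ (v (k + 1) - v k) (x - v k) < 0 := by
  obtain ⟨h2, h3⟩ := visP_sign h1 hn hv k (x - v k)
  rw [h3]
  unfold H
  constructor
  · intro h
    exact mul_neg_of_pos_of_neg h2 h
  · intro h
    by_contra hc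
    push Not at hc
    have := mul_nonneg h2.le hc
    omega

private theorem visP_nonneg (h1 : S_Bas) [NeZero n] {V : Finset (ℤ × ℤ)} {v : ZMod n → ℤ × ℤ}
    (hn : 3 ≤ n) (hv : Ccw V v) (k : ZMod n) (x : ℤ × ℤ) :
    0 ≤ H v k x ↔ 0 ≤ detZ (v (k + 1) - v k) (x - v k) := by
  have h2 := visP_neg h1 hn hv k x
  constructor
  · intro h
    by_contra hc
    push Not at hc
    have := h2.2 hc
    omega
  · intro h
    by_contra hc
    push Not at hc
    have := h2.1 hc
    omega

/-- vertices satisfy all edge inequalities -/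
private theorem visP_vert [NeZero n] {V : Finset (ℤ × ℤ)} {v : ZMod n → ℤ × ℤ} (hv : Ccw V v)
    (k : ZMod n) {w : ℤ × ℤ} (hw : w ∈ V) : 0 ≤ detZ (v (k + 1) - v k) (w - v k) := by
  have e := hv.2.2 k
  by_cases ha : w = v k
  · rw [ha]; unfold detZ; simp
  by_cases hb : w = v (k + 1)
  · rw [hb]; unfold detZ; rw [mul_comm]; simp
  exact (e.2.2.2 w hw ha hb).le

/-- The index before which the point is inside and at which it is outside is unique. -/
private theorem visP_unique (h1 : S_Bas) [NeZero n] {V : Finset (ℤ × ℤ)} {v : ZMod n → ℤ × ℤ}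
    (hn : 3 ≤ n) (hv : Ccw V v) {x : ℤ × ℤ} {i i' : ZMod n} (h2 : 0 ≤ H v (i - 1) x)
    (h3 : H v i x < 0) (h2' : 0 ≤ H v (i' - 1) x) (h3' : H v i' x < 0) : i' = i := by
  by_contra hne
  have hcard : V.card = n := (h1 n V v hn hv).1
  -- the inequality (A)
  have A : ∀ j : ZMod n, 0 ≤ H v (j - 1) x → H v j x < 0 → ∀ w ∈ V,
      0 < detZ (v (j + 1) - v j) (v (j - 1) - v j) ∧
      0 ≤ detZ (v (j + 1) - v j) (w - v j) ∧ 0 ≤ detZ (w - v j) (v (j - 1) - v j) ∧
      0 ≤ detZ (x - v j) (v (j - 1) - v j) ∧ 0 < detZ (x - v j) (v (j + 1) - v j) ∧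
      detZ (v (j + 1) - v j) (v (j - 1) - v j) * detZ (x - v j) (w - v j) =
        detZ (v (j + 1) - v j) (w - v j) * detZ (x - v j) (v (j - 1) - v j) +
        detZ (w - v j) (v (j - 1) - v j) * detZ (x - v j) (v (j + 1) - v j) := by
    intro j a1 a2 w hw
    have hj1 : j - 1 + 1 = j := by ring
    have e1 := hv.2.2 j
    have e2 := hv.2.2 (j - 1)
    rw [hj1] at e2
    have b1 := (visP_nonneg h1 hn hv (j - 1) x).1 a1
    rw [hj1] at b1
    have b2 := (visP_neg h1 hn hv j x).1 a2
    have b3 := next_pos (by omega) e2 e1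
    have b4 := visP_vert hv j hw
    have b5 := visP_vert hv (j - 1) hw
    rw [hj1] at b5
    unfold detZ at b1 b2 b3 b4 b5 ⊢
    simp only [Prod.fst_sub, Prod.snd_sub] at b1 b2 b3 b4 b5 ⊢
    refine ⟨by linarith, b4, by linarith, by linarith, by linarith, by ring⟩
  have hi : v i ∈ V := (hv.2.1 _).2 ⟨i, rfl⟩
  have hi' : v i' ∈ V := (hv.2.1 _).2 ⟨i', rfl⟩
  obtain ⟨c1, c2, c3, c4, c5, c6⟩ := A i h2 h3 (v i') hi'
  obtain ⟨d1, d2, d3, d4, d5, d6⟩ := A i' h2' h3' (v i) hi
  have e1 : 0 ≤ detZ (x - v i) (v i' - v i) := by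
    by_contra hc
    push Not at hc
    have := mul_neg_of_pos_of_neg c1 hc
    rw [c6] at this
    have := mul_nonneg c2 c4
    have := mul_nonneg c3 c5.le
    omega
  have e2 : 0 ≤ detZ (x - v i') (v i - v i') := by
    by_contra hc
    push Not at hc
    have := mul_neg_of_pos_of_neg d1 hc
    rw [d6] at this
    have := mul_nonneg d2 d4
    have := mul_nonneg d3 d5.le
    omega
  have e3 : detZ (x - v i') (v i - v i') = -detZ (x - v i) (v i' - v i) := by
    unfold detZ; simp only [Prod.fst_sub, Prod.snd_sub]; ring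
  have e4 : detZ (x - v i) (v i' - v i) = 0 := by omega
  rw [e4, mul_zero] at c6
  have e5 := mul_nonneg c2 c4
  have e6 := mul_nonneg c3 c5.le
  have e7 : detZ (v i' - v i) (v (i - 1) - v i) * detZ (x - v i) (v (i + 1) - v i) = 0 := by
    omega
  have e8 : detZ (v i' - v i) (v (i - 1) - v i) = 0 := by
    rcases mul_eq_zero.1 e7 with h | h
    · exact h
    · omega
  have hi1 : i - 1 + 1 = i := by ring
  have e := hv.2.2 (i - 1)
  rw [hi1] at e
  have hne' : v i' ≠ v i := fun h => hne (hv.1 h)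
  have e9 : v i' = v (i - 1) := by
    by_contra hc
    have := e.2.2.2 (v i') hi' hc hne'
    have e10 : detZ (v i - v (i - 1)) (v i' - v (i - 1)) =
        detZ (v i' - v i) (v (i - 1) - v i) := by
      unfold detZ; simp only [Prod.fst_sub, Prod.snd_sub]; ring
    omega
  have e11 : i' = i - 1 := hv.1 e9
  rw [e11] at h3'
  omega

theorem visP (h1 : S_Bas) : S_VisP := by
  intro n _ V v hn _ hv x i K hvis
  obtain ⟨hK, hrun, hb1, hb2⟩ := hvis
  have hcard : V.card = n := (h1 n V v hn hv).1
  have hi0 : H v i x < 0 := by simpa using hrun 0 (Nat.zero_le _)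
  -- outside of the run the point is weakly inside
  have C : ∀ k : ZMod n, (∀ a : ℕ, a ≤ K → k ≠ i + a) → 0 ≤ H v k x := by
    intro k hk
    by_contra hc
    push Not at hc
    have hex : ∃ j : ℕ, 0 ≤ H v (k - j) x := ⟨(k - (i - 1)).val, by
      rw [ZMod.natCast_zmod_val]
      rw [show k - (k - (i - 1)) = i - 1 by ring]
      exact hb1⟩
    classical
    set j := Nat.find hex with hj
    have hj1 : 0 ≤ H v (k - j) x := Nat.find_spec hex
    have hj2 : ∀ b < j, H v (k - b) x < 0 := fun b hb => by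
      have := Nat.find_min hex hb
      push Not at this
      exact this
    have hj3 : j ≠ 0 := by
      intro h
      rw [h] at hj1
      simp only [Nat.cast_zero, sub_zero] at hj1
      omega
    have h4 : k - ((j - 1 : ℕ) : ZMod n) - 1 = k - (j : ZMod n) := by
      rw [Nat.cast_sub (by omega)]
      push_cast
      ring
    have h5 : k - ((j - 1 : ℕ) : ZMod n) = i := by
      refine visP_unique h1 hn hv hb1 hi0 ?_ (hj2 (j - 1) (by omega))
      rw [h4]
      exact hj1
    have h6 : k = i + ((j - 1 : ℕ) : ZMod n) := by rw [← h5]; ring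
    have h7 : K < j - 1 := by
      by_contra hc2
      push Not at hc2
      exact hk (j - 1) hc2 h6
    have h8 := hj2 (j - 1 - (K + 1)) (by omega)
    have h9 : k - ((j - 1 - (K + 1) : ℕ) : ZMod n) = i + K + 1 := by
      rw [h6, Nat.cast_sub (by omega : K + 1 ≤ j - 1)]
      push_cast
      ring
    rw [h9] at h8
    omega
  intro k hk hk1 hk2
  have h3 := C k hk
  rcases lt_or_eq_of_le h3 with h4 | h4
  · exact h4
  exfalso
  -- the neighbours are outside of the run
  have h5 : 0 ≤ H v (k - 1) x := by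
    apply C
    intro a ha hka
    rcases Nat.lt_or_ge a K with h | h
    · apply hk (a + 1) (by omega)
      push_cast
      rw [← add_assoc, ← hka]
      ring
    · apply hk2
      have : a = K := by omega
      rw [← this, ← hka]
      ring
  have h6 : 0 ≤ H v (k + 1) x := by
    apply C
    intro a ha hka
    rcases Nat.eq_zero_or_pos a with h | h
    · apply hk1
      rw [h] at hka
      simp only [Nat.cast_zero, add_zero] at hka
      rw [← hka]
      ring
    · apply hk (a - 1) (by omega)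
      rw [Nat.cast_sub (by omega)]
      push_cast
      rw [← add_sub_assoc, ← hka]
      ring
  have hk3 : k - 1 + 1 = k := by ring
  have g1 := (visP_nonneg h1 hn hv (k - 1) x).1 h5
  rw [hk3] at g1
  have g2 := (visP_nonneg h1 hn hv (k + 1) x).1 h6
  have g3 : detZ (v (k + 1) - v k) (x - v k) = 0 := by
    rw [(visP_sign h1 hn hv k (x - v k)).2]
    unfold H at h4
    rw [← h4, mul_zero]
  have e1 := hv.2.2 k
  have e2 := hv.2.2 (k - 1)
  rw [hk3] at e2
  have e3 := hv.2.2 (k + 1)
  have g4 := next_pos (by omega) e2 e1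
  have g5 := next_pos (by omega) e1 e3
  have g6 := visP_vert hv i e1.1
  have g7 := visP_vert hv i e1.2.1
  have g8 := (visP_neg h1 hn hv i x).1 hi0
  set a := v k
  set b := v (k + 1)
  set c := v (k - 1)
  set d := v (k + 1 + 1)
  set p := v i
  set q := v (i + 1)
  -- `D1 (x - a) = N1 (b - a)`
  have k1 : detZ (a - c) (b - a) * (x - a).1 = detZ (a - c) (x - a) * (b - a).1 := by
    unfold detZ at g3 ⊢
    linear_combination (-(a - c).1) * g3
  have k2 : detZ (a - c) (b - a) * (x - a).2 = detZ (a - c) (x - a) * (b - a).2 := by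
    unfold detZ at g3 ⊢
    linear_combination (-(a - c).2) * g3
  have k3 : 0 ≤ detZ (a - c) (x - a) := by
    have : detZ (a - c) (x - a) = detZ (a - c) (x - c) := by
      unfold detZ; simp only [Prod.fst_sub, Prod.snd_sub]; ring
    rw [this]; exact g1
  have k4 : detZ (a - c) (b - a) * detZ (d - b) (x - b) =
      (detZ (a - c) (b - a) - detZ (a - c) (x - a)) * detZ (b - a) (d - b) := by
    have m1 : (x - b).1 = (x - a).1 - (b - a).1 := by
      simp only [Prod.fst_sub]; ring
    have m2 : (x - b).2 = (x - a).2 - (b - a).2 := by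
      simp only [Prod.snd_sub]; ring
    have : detZ (d - b) (x - b) = (d - b).1 * ((x - a).2 - (b - a).2) -
        (d - b).2 * ((x - a).1 - (b - a).1) := by
      unfold detZ; rw [m1, m2]
    rw [this]
    have m3 : detZ (b - a) (d - b) = (b - a).1 * (d - b).2 - (b - a).2 * (d - b).1 := rfl
    rw [m3]
    linear_combination (d - b).1 * k2 - (d - b).2 * k1
  have k5 : detZ (a - c) (x - a) ≤ detZ (a - c) (b - a) := by
    by_contra hc
    push Not at hc
    have := mul_nonneg g4.le g2
    rw [k4] at this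
    have := mul_neg_of_neg_of_pos (sub_neg.2 hc) g5
    omega
  have k6 : detZ (a - c) (b - a) * detZ (q - p) (x - p) =
      (detZ (a - c) (b - a) - detZ (a - c) (x - a)) * detZ (q - p) (a - p) +
        detZ (a - c) (x - a) * detZ (q - p) (b - p) := by
    have m1 : (x - p).1 = (x - a).1 + (a - p).1 := by
      simp only [Prod.fst_sub]; ring
    have m2 : (x - p).2 = (x - a).2 + (a - p).2 := by
      simp only [Prod.snd_sub]; ring
    have m3 : (b - p).1 = (b - a).1 + (a - p).1 := by
      simp only [Prod.fst_sub]; ring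
    have m4 : (b - p).2 = (b - a).2 + (a - p).2 := by
      simp only [Prod.snd_sub]; ring
    have n1 : detZ (q - p) (x - p) = (q - p).1 * ((x - a).2 + (a - p).2) -
        (q - p).2 * ((x - a).1 + (a - p).1) := by
      unfold detZ; rw [m1, m2]
    have n2 : detZ (q - p) (b - p) = (q - p).1 * ((b - a).2 + (a - p).2) -
        (q - p).2 * ((b - a).1 + (a - p).1) := by
      unfold detZ; rw [m3, m4]
    have n3 : detZ (q - p) (a - p) = (q - p).1 * (a - p).2 - (q - p).2 * (a - p).1 := rfl
    rw [n1, n2, n3]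
    linear_combination (q - p).1 * k2 - (q - p).2 * k1
  have k7 : detZ (a - c) (b - a) * detZ (q - p) (x - p) < 0 := mul_neg_of_pos_of_neg g4 g8
  rw [k6] at k7
  have k8 := mul_nonneg (sub_nonneg.2 k5) g6
  have k9 := mul_nonneg k3 g7
  omega

end Pool.Agent.Lib.MP_2d08ba_nt.Word
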